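import Pool.Agent.H48.Drn.Card

set_option autoImplicit false

/-!
The adjacent-pair theorem: cards of a vertex `z` and of the root `r` of one of its branches.
-/

namespace Pool.Agent.H48.Drn

open RT

variable {V : Type*} [DecidableEq V]

/-- Every component of a forest is contained in `K` if it is larger than `O`, where the forest
lives inside `K ∪ O` and there are no edges between `K` and `O`. -/
theorem Ft.subset_of_big {G : SimpleGraph V} {S : Finset V} {U : Multiset UT} (h : Ft G S U)
    {K O : Finset V} (hno : NoEdge G K O) (hU : ∀ u ∈ U, O.card < usize u) (hS : S ⊆ K ∪ O) :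
    S ⊆ K := by
  induction h with
  | empty => exact Finset.empty_subset _
  | add S S' r R U h1 h2 hd hn ih =>
    refine Finset.union_subset ?_ ?_
    · exact ih (fun u hu => hU u (Multiset.mem_cons_of_mem hu))
        (Finset.Subset.trans Finset.subset_union_left hS)
    · rcases h2.subset_or (Finset.Subset.trans Finset.subset_union_right hS) hno with h3 | h3
      · exact h3
      · exfalso
        have h4 := Finset.card_le_card h3
        have h5 := hU (ut R) (Multiset.mem_cons_self _ _)
        rw [usize_ut, ← h2.card] at h5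
        omega

/-- A connected set inside a forest is contained in one component. -/
theorem Ft.card_le_of_connected {G : SimpleGraph V} {S : Finset V} {U : Multiset UT}
    (h : Ft G S U) {K : Finset V} {c : V} {R : RT} (hK : Rt G K c R) (hKS : K ⊆ S) :
    ∃ u ∈ U, K.card ≤ usize u := by
  obtain ⟨C, W, R', U', hS, hd, hn, hC, _, hU⟩ := h.comp c (hKS hK.mem)
  rcases hK.subset_or (by rw [← hS]; exact hKS) hn with h1 | h1
  · refine ⟨ut R', by rw [hU]; exact Multiset.mem_cons_self _ _, ?_⟩
    rw [usize_ut, ← hC.card]
    exact Finset.card_le_card h1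
  · exact absurd hC.mem (Finset.disjoint_right.1 hd (h1 hK.mem))

open Classical in
/-- degree of the root of a coded graph -/
theorem Rt.ncard_nbrs [Fintype V] {G : SimpleGraph V} {z : V} {R : RT}
    (h : Rt G Finset.univ z R) : (G.neighborSet z).ncard = (kids R).card := by
  rw [← h.card_nbrs]
  rw [← Set.ncard_coe_finset]
  congr 1
  ext b
  simp

/-- The structure of a graph `H` sharing the cards of `z` and `r`. -/
theorem adj_structure {n : ℕ} {T H : SimpleGraph (Fin n)} {z : Fin n} {M N : Multiset RT}
    {S₁ S₂ : Finset (Fin n)} {r x y : Fin n}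
    (hS : Finset.univ = S₁ ∪ S₂) (hd : Disjoint S₁ S₂) (h1 : Rt T S₁ z (node M))
    (h2 : Rt T S₂ r (node N)) (he : OneEdge T S₁ S₂ z r)
    (hM : ∀ A ∈ M, size (node N) ≤ size A) (hbig : size (node N) < size (node M))
    (hxy : x ≠ y)
    (e1 : Nonempty (T.induce ({z}ᶜ : Set (Fin n)) ≃g H.induce ({y}ᶜ : Set (Fin n))))
    (d1 : (T.neighborSet z).ncard = (H.neighborSet y).ncard)
    (e2 : Nonempty (T.induce ({r}ᶜ : Set (Fin n)) ≃g H.induce ({x}ᶜ : Set (Fin n)))) :
    ∃ Z M' N', Rt H Finset.univ y (node (Z ::ₘ M')) ∧ M'.card = M.card ∧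
      N'.map ut = N.map ut ∧
      ut Z ::ₘ M'.map ut = ut (node N) ::ₘ M.map ut ∧
      ((Z = node N' ∧ ut (node M') = ut (node M)) ∨
        (∃ Q, Gr (node N') Q Z ∧ ut (node (Q ::ₘ M')) = ut (node M))) := by
  classical
  have hzS2 : z ∉ S₂ := Finset.disjoint_left.1 hd h1.mem
  have hrS1 : r ∉ S₁ := Finset.disjoint_right.1 hd h2.mem
  have hT : Rt T Finset.univ z (node (node N ::ₘ M)) := Rt.graft' h1 h2 hd he hS
  obtain ⟨e1⟩ := e1
  obtain ⟨e2⟩ := e2
  obtain ⟨f, hf1, hf2, hf3, hf4⟩ := card_fun e1
  obtain ⟨g, hg1, hg2, hg3, hg4⟩ := card_fun e2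
  -- the forest `H - y`
  have hFy : Ft H (Finset.univ.erase y) (ut (node N) ::ₘ M.map ut) := by
    have h := hT.kids_forest
    rw [kids_node, Multiset.map_cons] at h
    have h' := h.map (G' := H) f
      (fun a ha b hb => hf2 a (Finset.ne_of_mem_erase ha) b (Finset.ne_of_mem_erase hb))
      (fun a ha b hb => hf3 a (Finset.ne_of_mem_erase ha) b (Finset.ne_of_mem_erase hb))
    rwa [image_erase hf1 hf4] at h'
  -- `K` and `O`
  have hS1r : ∀ a ∈ S₁, a ≠ r := fun a ha h => hrS1 (h ▸ ha)
  obtain ⟨K, hKdef⟩ : ∃ K, K = S₁.image g := ⟨_, rfl⟩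
  obtain ⟨O, hOdef⟩ : ∃ O, O = (S₂.erase r).image g := ⟨_, rfl⟩
  have hK : Rt H K (g z) (node M) := by
    rw [hKdef]
    exact h1.map g (fun a ha b hb => hg2 a (hS1r a ha) b (hS1r b hb))
      (fun a ha b hb => hg3 a (hS1r a ha) b (hS1r b hb))
  have hO : Ft H O (N.map ut) := by
    rw [hOdef]
    have h := h2.kids_forest
    rw [kids_node] at h
    exact h.map g
      (fun a ha b hb => hg2 a (Finset.ne_of_mem_erase ha) b (Finset.ne_of_mem_erase hb))
      (fun a ha b hb => hg3 a (Finset.ne_of_mem_erase ha) b (Finset.ne_of_mem_erase hb))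
  have hKO : Finset.univ.erase x = K ∪ O := by
    rw [← image_erase hg1 hg4, hKdef, hOdef, ← Finset.image_union]
    congr 1
    rw [hS, Finset.erase_union_distrib, Finset.erase_eq_of_notMem hrS1]
  have hKOd : Disjoint K O := by
    rw [hKdef, hOdef, Finset.disjoint_left]
    intro c hc hc'
    obtain ⟨a, ha, rfl⟩ := Finset.mem_image.1 hc
    obtain ⟨b, hb, hab⟩ := Finset.mem_image.1 hc'
    have := hg2 b (Finset.ne_of_mem_erase hb) a (hS1r a ha) hab
    subst this
    exact Finset.disjoint_left.1 hd ha (Finset.mem_of_mem_erase hb)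
  have hKOn : NoEdge H K O := by
    intro c hc c' hc' hadj
    rw [hKdef] at hc
    rw [hOdef] at hc'
    obtain ⟨a, ha, rfl⟩ := Finset.mem_image.1 hc
    obtain ⟨b, hb, rfl⟩ := Finset.mem_image.1 hc'
    rw [hg3 a (hS1r a ha) b (Finset.ne_of_mem_erase hb)] at hadj
    have := (he a ha b (Finset.mem_of_mem_erase hb)).1 hadj
    exact Finset.ne_of_mem_erase hb this.2
  have hOcard : O.card + 1 = size (node N) := by
    rw [hO.card, Multiset.map_map, size_node]
    have : (usize ∘ ut) = size := by
      funext R
      exact usize_ut R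
    rw [this]
    omega
  -- all components of `H - y` have at least `size (node N)` vertices
  have hcomp : ∀ u ∈ ut (node N) ::ₘ M.map ut, O.card < usize u := by
    intro u hu
    rw [Multiset.mem_cons, Multiset.mem_map] at hu
    rcases hu with rfl | ⟨A, hA, rfl⟩
    · rw [usize_ut]; omega
    · rw [usize_ut]
      have := hM A hA
      omega
  -- `y ∈ K`
  have hyK : y ∈ K := by
    by_contra hy
    have hsub : K ⊆ Finset.univ.erase y := fun a ha =>
      Finset.mem_erase.2 ⟨fun h => hy (h ▸ ha), Finset.mem_univ _⟩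
    obtain ⟨u, hu, hle⟩ := hFy.card_le_of_connected hK hsub
    rw [hK.card] at hle
    rw [Multiset.mem_cons, Multiset.mem_map] at hu
    rcases hu with rfl | ⟨A, hA, rfl⟩
    · rw [usize_ut] at hle
      omega
    · rw [usize_ut] at hle
      have := size_lt_of_mem hA
      omega
  have hxK : x ∉ K := by
    intro h
    have : x ∈ Finset.univ.erase x := by rw [hKO]; exact Finset.mem_union_left _ h
    exact Finset.ne_of_mem_erase this rfl
  have hxO : x ∉ O := by
    intro h
    have : x ∈ Finset.univ.erase x := by rw [hKO]; exact Finset.mem_union_right _ h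
    exact Finset.ne_of_mem_erase this rfl
  have hyO : y ∉ O := Finset.disjoint_left.1 hKOd hyK
  -- the component of `H - y` containing `x`
  obtain ⟨C, W, RC, U', hCW, hCWd, hCWn, hC, hW, hU⟩ :=
    hFy.comp x (Finset.mem_erase.2 ⟨hxy, Finset.mem_univ _⟩)
  have hyC : y ∉ C := by
    intro h
    have : y ∈ Finset.univ.erase y := by rw [hCW]; exact Finset.mem_union_left _ h
    exact Finset.ne_of_mem_erase this rfl
  have hyW : y ∉ W := by
    intro h
    have : y ∈ Finset.univ.erase y := by rw [hCW]; exact Finset.mem_union_right _ h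
    exact Finset.ne_of_mem_erase this rfl
  have hxC : x ∈ C := hC.mem
  have hxW : x ∉ W := Finset.disjoint_left.1 hCWd hxC
  have hWK : W ⊆ K := by
    refine hW.subset_of_big hKOn (fun u hu => hcomp u ?_) ?_
    · rw [hU]; exact Multiset.mem_cons_of_mem hu
    · rw [← hKO]
      intro a ha
      exact Finset.mem_erase.2 ⟨fun h => hxW (h ▸ ha), Finset.mem_univ _⟩
  -- membership facts
  have mem1 : ∀ a, a ≠ x → (a ∈ K ∨ a ∈ O) := fun a ha => by
    have : a ∈ Finset.univ.erase x := Finset.mem_erase.2 ⟨ha, Finset.mem_univ _⟩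
    rw [hKO] at this
    exact Finset.mem_union.1 this
  have mem2 : ∀ a, a ≠ y → (a ∈ C ∨ a ∈ W) := fun a ha => by
    have : a ∈ Finset.univ.erase y := Finset.mem_erase.2 ⟨ha, Finset.mem_univ _⟩
    rw [hCW] at this
    exact Finset.mem_union.1 this
  have hOC : O ⊆ C := by
    intro a ha
    have hay : a ≠ y := fun h => hyO (h ▸ ha)
    rcases mem2 a hay with h | h
    · exact h
    · exact absurd ha (Finset.disjoint_left.1 hKOd (hWK h))
  -- split `K` at `y`
  obtain ⟨RK, hKy⟩ := hK.exists_at y hyK
  have hKe : K.erase y = W ∪ (K ∩ C) := by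
    ext a
    simp only [Finset.mem_erase, Finset.mem_union, Finset.mem_inter]
    constructor
    · rintro ⟨h3, h4⟩
      rcases mem2 a h3 with h | h
      · exact Or.inr ⟨h4, h⟩
      · exact Or.inl h
    · rintro (h | ⟨h3, h4⟩)
      · exact ⟨fun h' => hyW (h' ▸ h), hWK h⟩
      · exact ⟨fun h' => hyC (h' ▸ h4), h3⟩
  have hWQd : Disjoint W (K ∩ C) :=
    Finset.disjoint_of_subset_right Finset.inter_subset_right hCWd.symm
  have hWQn : NoEdge H W (K ∩ C) := hCWn.symm.mono (Finset.Subset.refl _) Finset.inter_subset_right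
  obtain ⟨M', L, hML, hKM, hKL⟩ := hKy.split W (K ∩ C) hKe hWQd hWQn
  -- split `C` at `x`
  have hCe : C.erase x = O ∪ (K ∩ C) := by
    ext a
    simp only [Finset.mem_erase, Finset.mem_union, Finset.mem_inter]
    constructor
    · rintro ⟨h3, h4⟩
      rcases mem1 a h3 with h | h
      · exact Or.inr ⟨h, h4⟩
      · exact Or.inl h
    · rintro (h | ⟨h3, h4⟩)
      · exact ⟨fun h' => hxO (h' ▸ h), hOC h⟩
      · exact ⟨fun h' => hxK (h' ▸ h3), h4⟩
  have hOQd : Disjoint O (K ∩ C) :=
    Finset.disjoint_of_subset_right Finset.inter_subset_left hKOd.symm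
  have hOQn : NoEdge H O (K ∩ C) := hKOn.symm.mono (Finset.Subset.refl _) Finset.inter_subset_left
  obtain ⟨N', L', hNL, hCN, hCL⟩ := hC.split O (K ∩ C) hCe hOQd hOQn
  -- types
  have hM'ut : M'.map ut = U' := by
    have h3 := hKM.kids_forest
    rw [kids_node, Finset.erase_insert hyW] at h3
    exact h3.unique _ hW
  have hN'ut : N'.map ut = N.map ut := by
    have h3 := hCN.kids_forest
    rw [kids_node, Finset.erase_insert hxO] at h3
    exact h3.unique _ hO
  have hLut : L.map ut = L'.map ut := by
    have h3 := hKL.kids_forest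
    have h4 := hCL.kids_forest
    have hy' : y ∉ K ∩ C := fun h => hyC (Finset.mem_of_mem_inter_right h)
    have hx' : x ∉ K ∩ C := fun h => hxK (Finset.mem_of_mem_inter_left h)
    rw [kids_node, Finset.erase_insert hy'] at h3
    rw [kids_node, Finset.erase_insert hx'] at h4
    exact h3.unique _ h4
  have hM'card : M'.card = M.card := by
    have h3 : (M'.map ut).card = U'.card := by rw [hM'ut]
    have h4 : (ut (node N) ::ₘ M.map ut).card = (ut RC ::ₘ U').card := by rw [hU]
    rw [Multiset.card_map] at h3
    rw [Multiset.card_cons, Multiset.card_cons, Multiset.card_map] at h4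
    omega
  -- the degree of `y`
  have hdeg : (H.neighborSet y).ncard = M.card + 1 := by
    rw [← d1, hT.ncard_nbrs, kids_node, Multiset.card_cons]
  have hnb : (H.neighborSet y).ncard =
      (K.filter (fun b => H.Adj y b)).card + (if H.Adj y x then 1 else 0) := by
    have h3 : (Finset.univ.filter (fun b => H.Adj y b)).card = (H.neighborSet y).ncard := by
      rw [← Set.ncard_coe_finset]
      congr 1
      ext b
      simp
    rw [← h3]
    have h4 : Finset.univ.filter (fun b => H.Adj y b) =
        K.filter (fun b => H.Adj y b) ∪ ({x} : Finset (Fin n)).filter (fun b => H.Adj y b) := by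
      ext b
      simp only [Finset.mem_filter, Finset.mem_univ, true_and, Finset.mem_union,
        Finset.mem_singleton]
      constructor
      · intro hb
        by_cases hbx : b = x
        · exact Or.inr ⟨hbx, hb⟩
        · rcases mem1 b hbx with h | h
          · exact Or.inl ⟨h, hb⟩
          · exact absurd hb (hKOn y hyK b h)
      · rintro (⟨_, hb⟩ | ⟨_, hb⟩) <;> exact hb
    rw [h4, Finset.card_union_of_disjoint]
    · congr 1
      by_cases hyx : H.Adj y x
      · rw [if_pos hyx, Finset.filter_singleton, if_pos hyx]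
        simp
      · rw [if_neg hyx, Finset.filter_singleton, if_neg hyx]
        simp
    · rw [Finset.disjoint_left]
      intro b hb hb'
      rw [Finset.mem_filter] at hb hb'
      rw [Finset.mem_singleton] at hb'
      exact hxK (hb'.1 ▸ hb.1)
  rw [hKy.card_nbrs, hdeg, hML, Multiset.card_add, hM'card] at hnb
  have hUeq : ut RC ::ₘ M'.map ut = ut (node N) ::ₘ M.map ut := by rw [hM'ut, hU]
  have hKut : ut RK = ut (node M) := hKy.ut_eq hK
  by_cases hyx : H.Adj y x
  · -- case 1
    rw [if_pos hyx] at hnb
    have hL0 : L = 0 := by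
      rw [← Multiset.card_eq_zero]
      omega
    have hL'0 : L' = 0 := by
      rw [hL0, Multiset.map_zero] at hLut
      exact Multiset.map_eq_zero.1 hLut.symm
    have hRK : RK = node M' := by
      rw [← node_kids RK, hML, hL0, add_zero]
    have hRC : RC = node N' := by
      rw [← node_kids RC, hNL, hL'0, add_zero]
    have hQ0 : K ∩ C = ∅ := by
      have h3 := hKL.card
      have hy' : y ∉ K ∩ C := fun h => hyC (Finset.mem_of_mem_inter_right h)
      rw [hL0, node_zero, size_pt, Finset.card_insert_of_notMem hy'] at h3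
      rw [← Finset.card_eq_zero]
      omega
    refine ⟨node N', M', N', ?_, hM'card, hN'ut, ?_, Or.inl ⟨rfl, ?_⟩⟩
    · rw [hRK] at hKy
      rw [hRC] at hC
      refine Rt.graft' hKy hC ?_ (r' := x) ?_ ?_
      · rw [Finset.disjoint_iff_inter_eq_empty]
        exact hQ0
      · intro a ha b hb
        by_cases hay : a = y
        · subst hay
          constructor
          · intro hab
            refine ⟨rfl, ?_⟩
            by_contra hbx
            have hbO : b ∈ C.erase x := Finset.mem_erase.2 ⟨hbx, hb⟩
            rw [hCe, hQ0, Finset.union_empty] at hbO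
            exact hKOn a hyK b hbO hab
          · rintro ⟨_, rfl⟩
            exact hyx
        · constructor
          · intro hab
            have haW : a ∈ K.erase y := Finset.mem_erase.2 ⟨hay, ha⟩
            rw [hKe, hQ0, Finset.union_empty] at haW
            exact absurd hab.symm (hCWn b hb a haW)
          · rintro ⟨h, _⟩
            exact absurd h hay
      · ext a
        simp only [Finset.mem_univ, Finset.mem_union, true_iff]
        by_cases hay : a = y
        · subst hay
          exact Or.inl hyK
        · rcases mem2 a hay with h | h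
          · exact Or.inr h
          · exact Or.inl (hWK h)
    · rw [← hRC]
      exact hUeq
    · rw [← hRK]
      exact hKut
  · -- case 2
    rw [if_neg hyx] at hnb
    have hL1 : L.card = 1 := by omega
    have hL'1 : L'.card = 1 := by
      have : (L.map ut).card = (L'.map ut).card := by rw [hLut]
      rw [Multiset.card_map, Multiset.card_map] at this
      omega
    obtain ⟨Q, rfl⟩ := Multiset.card_eq_one.1 hL1
    obtain ⟨Q', rfl⟩ := Multiset.card_eq_one.1 hL'1
    have hy' : y ∉ K ∩ C := fun h => hyC (Finset.mem_of_mem_inter_right h)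
    have hx' : x ∉ K ∩ C := fun h => hxK (Finset.mem_of_mem_inter_left h)
    have hRK : RK = node (Q ::ₘ M') := by
      rw [← node_kids RK, hML, add_comm, Multiset.singleton_add]
    -- `Q` at its neighbour of `y`
    have extract : ∀ {v : Fin n} {P : RT}, v ∉ K ∩ C → Rt H (insert v (K ∩ C)) v (node {P}) →
        ∃ q, Rt H (K ∩ C) q P ∧ ∀ b ∈ K ∩ C, (H.Adj v b ↔ b = q) := by
      intro v P hv hP
      have hP' : Rt H (insert v (K ∩ C)) v (node (P ::ₘ 0)) := hP
      obtain ⟨T₁, T₂, q, hTT, hTd, hT1, hT2, hTe⟩ := hP'.inv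
      have hT1' : T₁ = {v} := hT1.eq_singleton
      subst hT1'
      have hT2' : T₂ = K ∩ C := by
        ext a
        have ha : a ∈ insert v (K ∩ C) ↔ a ∈ {v} ∪ T₂ := by rw [hTT]
        rw [Finset.mem_insert, Finset.mem_union, Finset.mem_singleton] at ha
        have h3 : v ∉ T₂ := Finset.disjoint_left.1 hTd (Finset.mem_singleton_self v)
        constructor
        · intro h
          rcases ha.2 (Or.inr h) with h' | h'
          · rw [h'] at h
            exact absurd h h3
          · exact h'
        · intro h
          rcases ha.1 (Or.inr h) with h' | h'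
          · rw [h'] at h
            exact absurd h hv
          · exact h'
      subst hT2'
      refine ⟨q, hT2, ?_⟩
      intro b hb
      rw [hTe v (Finset.mem_singleton_self v) b hb]
      simp
    obtain ⟨q, hq, hqadj⟩ := extract hy' hKL
    obtain ⟨q', hq', hqadj'⟩ := extract hx' hCL
    -- graft `{x} ∪ O` onto `Q`
    have hCN' : Rt H (insert x O) x (node N') := hCN
    have hQC : Disjoint (K ∩ C) (insert x O) := by
      rw [Finset.disjoint_insert_right]
      exact ⟨hx', hOQd.symm⟩
    obtain ⟨Z, hZ, hGr⟩ := hq.graft_at (insert x O) x (node N') q' hCN' hQC hq'.mem (by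
      intro a ha b hb
      rcases Finset.mem_insert.1 hb with rfl | hbO
      · rw [H.adj_comm, hqadj' a ha]
        simp
      · constructor
        · intro hab
          exact absurd hab (hKOn a (Finset.mem_of_mem_inter_left ha) b hbO)
        · rintro ⟨_, rfl⟩
          exact absurd hbO hxO)
    have hCeq : (K ∩ C) ∪ insert x O = C := by
      ext a
      simp only [Finset.mem_union, Finset.mem_inter, Finset.mem_insert]
      constructor
      · rintro (⟨_, h⟩ | rfl | h)
        · exact h
        · exact hxC
        · exact hOC h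
      · intro h
        by_cases hax : a = x
        · exact Or.inr (Or.inl hax)
        · rcases mem1 a hax with h' | h'
          · exact Or.inl ⟨h', h⟩
          · exact Or.inr (Or.inr h')
    rw [hCeq] at hZ
    refine ⟨Z, M', N', ?_, hM'card, hN'ut, ?_, Or.inr ⟨Q, hGr, ?_⟩⟩
    · refine Rt.graft' hKM hZ ?_ (r' := q) ?_ ?_
      · rw [Finset.disjoint_insert_left]
        exact ⟨hyC, hCWd.symm⟩
      · intro a ha b hb
        rcases Finset.mem_insert.1 ha with rfl | haW
        · constructor
          · intro hab
            refine ⟨rfl, ?_⟩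
            have hbx : b ≠ x := fun h => hyx (h ▸ hab)
            rcases mem1 b hbx with h' | h'
            · exact (hqadj b (Finset.mem_inter.2 ⟨h', hb⟩)).1 hab
            · exact absurd hab (hKOn a hyK b h')
          · rintro ⟨_, rfl⟩
            exact (hqadj _ hq.mem).2 rfl
        · constructor
          · intro hab
            exact absurd hab.symm (hCWn b hb a haW)
          · rintro ⟨rfl, _⟩
            exact absurd haW hyW
      · ext a
        simp only [Finset.mem_univ, Finset.mem_union, Finset.mem_insert, true_iff]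
        by_cases hay : a = y
        · exact Or.inl (Or.inl hay)
        · rcases mem2 a hay with h | h
          · exact Or.inr h
          · exact Or.inl (Or.inr h)
    · rw [hZ.ut_eq hC]
      exact hUeq
    · rw [← hRK]
      exact hKut

/-- The adjacent-pair theorem: reduction to a statement about codes. -/
theorem det_of_adj_pair {n : ℕ} {T : SimpleGraph (Fin n)} {z : Fin n} {M N : Multiset RT}
    (hT : Rt T Finset.univ z (node (node N ::ₘ M)))
    (hM : ∀ A ∈ M, size (node N) ≤ size A) (hbig : size (node N) < size (node M))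
    (hcode : ∀ Z M' N', M'.card = M.card → N'.map ut = N.map ut →
      ut Z ::ₘ M'.map ut = ut (node N) ::ₘ M.map ut →
      ((Z = node N' ∧ ut (node M') = ut (node M)) ∨
        (∃ Q, Gr (node N') Q Z ∧ ut (node (Q ::ₘ M')) = ut (node M))) →
      Same (node (Z ::ₘ M')) (node (node N ::ₘ M))) : Det T := by
  obtain ⟨S₁, S₂, r, hS, hd, h1, h2, he⟩ := hT.inv
  refine ⟨z, r, ?_, ?_⟩
  · rintro rfl
    exact Finset.disjoint_left.1 hd h1.mem h2.mem
  · intro H y x hyx e1 d1 e2 _
    obtain ⟨Z, M', N', hH, h3, h4, h5, h6⟩ :=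
      adj_structure hS hd h1 h2 he hM hbig hyx.symm e1 d1 e2
    obtain ⟨c, _, hc⟩ := hH.of_same (hcode Z M' N' h3 h4 h5 h6)
    exact hT.nonempty_iso hc

end Pool.Agent.H48.Drn
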