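import Pool.Agent.H48.Drn.Forest

set_option autoImplicit false

/-!
The property `Det T` (some pair of degree-associated cards determines `T`), and the reduction of
pairs of leaf cards to a statement about codes.
-/

namespace Pool.Agent.H48.Drn

open RT

/-- Some two degree-associated cards of `T` determine `T` (as in the frozen statement). -/
def Det {n : ℕ} (T : SimpleGraph (Fin n)) : Prop :=
  ∃ u v : Fin n, u ≠ v ∧
    ∀ H : SimpleGraph (Fin n), ∀ x y : Fin n, x ≠ y →
      Nonempty (T.induce ({u}ᶜ : Set (Fin n)) ≃g H.induce ({x}ᶜ : Set (Fin n))) →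
      (T.neighborSet u).ncard = (H.neighborSet x).ncard →
      Nonempty (T.induce ({v}ᶜ : Set (Fin n)) ≃g H.induce ({y}ᶜ : Set (Fin n))) →
      (T.neighborSet v).ncard = (H.neighborSet y).ncard →
      Nonempty (T ≃g H)

/-- Every branch at the root has at most half of the vertices. -/
def Cen (R : RT) : Prop := ∀ A ∈ kids R, 2 * size A ≤ size R

theorem exists_cen_aux : ∀ (k : ℕ) (M : Multiset RT) (A : RT), size A ≤ k →
    size (node (A ::ₘ M)) < 2 * size A → ∃ R', Same (node (A ::ₘ M)) R' ∧ Cen R' := by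
  intro k
  induction k with
  | zero =>
    intro M A hA _
    have := size_pos A
    omega
  | succ k ih =>
    intro M A hA hbig
    obtain ⟨N, rfl⟩ := exists_eq_node A
    have hs := (same_step M N).size_eq
    have hM : size (node (node N ::ₘ M)) = size (node N) + size (node M) := by
      simp only [size_node, Multiset.map_cons, Multiset.sum_cons]
      omega
    by_cases hc : ∀ B ∈ N, 2 * size B ≤ size (node (node N ::ₘ M))
    · refine ⟨_, same_step M N, ?_⟩
      intro B hB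
      rw [kids_node, Multiset.mem_cons] at hB
      rw [← hs]
      rcases hB with rfl | hB
      · omega
      · exact hc B hB
    · push Not at hc
      obtain ⟨B, hB, hB2⟩ := hc
      obtain ⟨N', rfl⟩ := Multiset.exists_cons_of_mem hB
      have h1 : size B < size (node (B ::ₘ N')) := size_lt_of_mem (Multiset.mem_cons_self _ _)
      have e1 : node (node M ::ₘ (B ::ₘ N')) = node (B ::ₘ (node M ::ₘ N')) := by
        rw [Multiset.cons_swap]
      have hB3 : size (node (B ::ₘ (node M ::ₘ N'))) < 2 * size B := by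
        rw [← e1, ← hs]
        exact hB2
      obtain ⟨R', hR', hcen⟩ := ih (node M ::ₘ N') B (by omega) hB3
      refine ⟨R', ?_, hcen⟩
      refine (same_step M (B ::ₘ N')).trans ?_
      rw [e1]
      exact hR'

/-- Every tree has a centroid. -/
theorem exists_cen (R : RT) : ∃ R', Same R R' ∧ Cen R' := by
  by_cases h : Cen R
  · exact ⟨R, Same.refl R, h⟩
  · unfold Cen at h
    push Not at h
    obtain ⟨A, hA, hA2⟩ := h
    obtain ⟨M, rfl⟩ := exists_eq_node R
    rw [kids_node] at hA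
    obtain ⟨N, rfl⟩ := Multiset.exists_cons_of_mem hA
    exact exists_cen_aux (size A) N A le_rfl hA2

/-- An isomorphism of cards as a map. -/
theorem card_fun {V V' : Type*} {T : SimpleGraph V} {H : SimpleGraph V'} {u : V} {x : V'}
    (e : T.induce ({u}ᶜ : Set V) ≃g H.induce ({x}ᶜ : Set V')) :
    ∃ f : V → V', (∀ a, a ≠ u → f a ≠ x) ∧ (∀ a, a ≠ u → ∀ b, b ≠ u → f a = f b → a = b) ∧
      (∀ a, a ≠ u → ∀ b, b ≠ u → (H.Adj (f a) (f b) ↔ T.Adj a b)) ∧
      (∀ c, c ≠ x → ∃ a, a ≠ u ∧ f a = c) := by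
  classical
  let f : V → V' := fun a => if h : a ≠ u then ((e ⟨a, h⟩ : ({x}ᶜ : Set V')) : V') else x
  have hf : ∀ a (h : a ≠ u), f a = ((e ⟨a, h⟩ : ({x}ᶜ : Set V')) : V') := fun a h => dif_pos h
  refine ⟨f, ?_, ?_, ?_, ?_⟩
  · intro a h
    rw [hf a h]
    exact (e ⟨a, h⟩).2
  · intro a h b h' hab
    rw [hf a h, hf b h'] at hab
    have := e.injective (Subtype.ext hab)
    exact congrArg Subtype.val this
  · intro a h b h'
    rw [hf a h, hf b h']
    have := e.map_adj_iff (v := ⟨a, h⟩) (w := ⟨b, h'⟩)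
    simpa using this
  · intro c hc
    refine ⟨(e.symm ⟨c, hc⟩ : ({u}ᶜ : Set V)), (e.symm ⟨c, hc⟩).2, ?_⟩
    rw [hf _ (e.symm ⟨c, hc⟩).2]
    simp

theorem image_erase {V V' : Type*} [DecidableEq V] [DecidableEq V'] [Fintype V] [Fintype V']
    {u : V} {x : V'} {f : V → V'} (h1 : ∀ a, a ≠ u → f a ≠ x)
    (h2 : ∀ c, c ≠ x → ∃ a, a ≠ u ∧ f a = c) :
    (Finset.univ.erase u).image f = Finset.univ.erase x := by
  ext c
  simp only [Finset.mem_image, Finset.mem_erase, Finset.mem_univ, and_true]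
  constructor
  · rintro ⟨a, ha, rfl⟩
    exact h1 a ha
  · exact h2 c

/-- The information contained in one leaf card. -/
theorem leaf_side {n : ℕ} {T H : SimpleGraph (Fin n)} {u p z x : Fin n} {D : RT}
    (hD : Rt T (Finset.univ.erase u) z D) (hu : ∀ a, (T.Adj a u ↔ a = p))
    (e : Nonempty (T.induce ({u}ᶜ : Set (Fin n)) ≃g H.induce ({x}ᶜ : Set (Fin n))))
    (hd : (T.neighborSet u).ncard = (H.neighborSet x).ncard) :
    (∃ p', p' ≠ x ∧ ∀ a, (H.Adj a x ↔ a = p')) ∧ ∃ c, Rt H (Finset.univ.erase x) c D := by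
  obtain ⟨e⟩ := e
  obtain ⟨f, hf1, hf2, hf3, hf4⟩ := card_fun e
  constructor
  · have h1 : T.neighborSet u = {p} := by
      ext a
      rw [SimpleGraph.mem_neighborSet, Set.mem_singleton_iff, T.adj_comm]
      exact hu a
    rw [h1, Set.ncard_singleton] at hd
    obtain ⟨p', hp'⟩ := Set.ncard_eq_one.1 hd.symm
    have h2 : ∀ a, (H.Adj a x ↔ a = p') := by
      intro a
      rw [H.adj_comm, ← SimpleGraph.mem_neighborSet, hp', Set.mem_singleton_iff]
    refine ⟨p', ?_, h2⟩
    rintro rfl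
    exact H.irrefl ((h2 p').2 rfl)
  · have h := hD.map (G' := H) f
      (fun a ha b hb => hf2 a (Finset.ne_of_mem_erase ha) b (Finset.ne_of_mem_erase hb))
      (fun a ha b hb => hf3 a (Finset.ne_of_mem_erase ha) b (Finset.ne_of_mem_erase hb))
    rw [image_erase hf1 hf4] at h
    exact ⟨f z, h⟩

/-- Putting back the leaf `x`, seen from another vertex `c`. -/
theorem leaf_back {n : ℕ} {H : SimpleGraph (Fin n)} {x p' c₁ c : Fin n} {D Q : RT}
    (hp : p' ≠ x) (hx : ∀ a, (H.Adj a x ↔ a = p'))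
    (hD : Rt H (Finset.univ.erase x) c₁ D) (hQ : Rt H Finset.univ c Q) (hc : c ≠ x) :
    ∃ X, Del Q X ∧ Same X D := by
  obtain ⟨X, hX⟩ := hD.exists_at c (Finset.mem_erase.2 ⟨hc, Finset.mem_univ _⟩)
  obtain ⟨Q', hQ', hdel⟩ := hX.add_leaf (b := x) (p := p') (by simp)
    (Finset.mem_erase.2 ⟨hp, Finset.mem_univ _⟩) (fun a _ => hx a)
  rw [Finset.insert_erase (Finset.mem_univ x)] at hQ'
  rw [hQ'.unique Q hQ] at hdel
  exact ⟨X, hdel, hX.same hD⟩

theorem cen_ne_leaf {n : ℕ} (hn : 3 ≤ n) {H : SimpleGraph (Fin n)} {x p' c₁ c : Fin n} {D Q : RT}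
    (hp : p' ≠ x) (hx : ∀ a, (H.Adj a x ↔ a = p'))
    (hD : Rt H (Finset.univ.erase x) c₁ D) (hQ : Rt H Finset.univ c Q) (hcen : Cen Q) :
    c ≠ x := by
  rintro rfl
  obtain ⟨X, hX⟩ := hD.exists_at p' (Finset.mem_erase.2 ⟨hp, Finset.mem_univ _⟩)
  have h1 : Rt H Finset.univ c (node (X ::ₘ 0)) := by
    refine Rt.graft' (Rt.single c) hX ?_ (r' := p') ?_ ?_
    · simp
    · intro a ha b hb
      rw [Finset.mem_singleton] at ha
      subst ha
      rw [H.adj_comm, hx b]
      simp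
    · ext a
      simp only [Finset.mem_univ, Finset.mem_union, Finset.mem_singleton, Finset.mem_erase,
        and_true, true_iff]
      exact em _
  have h2 := h1.unique Q hQ
  subst h2
  have h3 := hcen X (by simp)
  have h4 := hX.card
  rw [Finset.card_erase_of_mem (Finset.mem_univ _), Finset.card_univ, Fintype.card_fin] at h4
  simp at h3
  omega

/-- Pairs of leaf cards: reduction to a statement about codes. -/
theorem det_of_leaf_pair {n : ℕ} (hn : 3 ≤ n) {T : SimpleGraph (Fin n)} {z : Fin n}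
    {R D₁ D₂ : RT} (hT : Rt T Finset.univ z R) (h1 : Del R D₁) (h2 : Del R D₂) (hne : D₁ ≠ D₂)
    (hcode : ∀ Q X Y, Cen Q → Del Q X → Del Q Y → Same X D₁ → Same Y D₂ → Same Q R) :
    Det T := by
  obtain ⟨u, p, _, _, _, huz, hu, hup⟩ := hT.del_leaf h1
  obtain ⟨v, q, _, _, _, hvz, hv, hvq⟩ := hT.del_leaf h2
  refine ⟨u, v, ?_, ?_⟩
  · rintro rfl
    exact hne (hu.unique _ hv)
  · intro H x y hxy e1 d1 e2 d2
    obtain ⟨⟨px, hpx, hx⟩, cx, hcx⟩ := leaf_side hu (fun a => hup a (Finset.mem_univ _)) e1 d1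
    obtain ⟨⟨py, hpy, hy⟩, cy, hcy⟩ := leaf_side hv (fun a => hvq a (Finset.mem_univ _)) e2 d2
    obtain ⟨R₀, hR₀, _⟩ := hcx.add_leaf (b := x) (p := px) (by simp)
      (Finset.mem_erase.2 ⟨hpx, Finset.mem_univ _⟩) (fun a _ => hx a)
    rw [Finset.insert_erase (Finset.mem_univ x)] at hR₀
    obtain ⟨Q, hQ, hcen⟩ := exists_cen R₀
    obtain ⟨c, _, hc⟩ := hR₀.of_same hQ
    obtain ⟨X, hX1, hX2⟩ := leaf_back hpx hx hcx hc (cen_ne_leaf hn hpx hx hcx hc hcen)
    obtain ⟨Y, hY1, hY2⟩ := leaf_back hpy hy hcy hc (cen_ne_leaf hn hpy hy hcy hc hcen)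
    obtain ⟨c', _, hc'⟩ := hc.of_same (hcode Q X Y hcen hX1 hY1 hX2 hY2)
    exact hT.nonempty_iso hc'

end Pool.Agent.H48.Drn
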