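import Pool.Agent.H91.Drn.Base

set_option autoImplicit false

/-!
Spiders with a leg of length one, and the two caterpillars with pendants at two adjacent middle
vertices, both by an adjacent pair.
-/

namespace Pool.Agent.H48.Drn.Cat

open Drn Drn.RT

@[simp] theorem size_path (m : ℕ) : (path m).size = m + 1 := by
  induction m with
  | zero => rfl
  | succ m ih => rw [path, size_add, size_pt, ih]; omega

theorem size_chain (i : ℕ) (Z : RT) : (chain i Z).size = i + Z.size := by
  induction i with
  | zero => simp [chain]
  | succ i ih => rw [chain, size_add, size_pt, ih]; omega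

theorem pt_add_inj {A E B : RT} (h : pt.add A = E.add B) : E = pt ∧ A = B := by
  rcases add_eq_add_iff.1 h with ⟨h1, h2⟩ | ⟨E', h1, _⟩
  · exact ⟨h1.symm, h2⟩
  · exact absurd h1.symm add_ne_pt

theorem chain_pt_add (i : ℕ) (Z : RT) : chain i (pt.add Z) = pt.add (chain i Z) := by
  induction i with
  | zero => rfl
  | succ i ih => rw [chain, ih, chain]

/-- positions inside a path hanging by its end -/
theorem pos_path {m : ℕ} : ∀ {P D K : RT}, PosD P (path m) D K →
    ∃ i, i ≤ m ∧ D = path (m - i) ∧ K = chain i P := by
  induction m with
  | zero =>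
    intro P D K h
    generalize hB : path 0 = B at h
    cases h with
    | here => exact ⟨0, le_rfl, by rw [← hB], rfl⟩
    | deeper h => exact absurd hB.symm add_ne_pt
  | succ m ih =>
    intro P D K h
    generalize hB : path (m + 1) = B at h
    cases h with
    | here => exact ⟨0, by omega, by rw [← hB]; rfl, rfl⟩
    | @deeper _ X C _ _ h =>
      obtain ⟨rfl, rfl⟩ := pt_add_inj (show pt.add (path m) = X.add C from hB)
      obtain ⟨i, hi, hD, hK⟩ := ih h
      refine ⟨i + 1, by omega, ?_, ?_⟩
      · rw [hD]; congr 1; omega
      · rw [hK, chain_pt_add]; rfl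

/-- All codes of a path. -/
theorem path_codes {m : ℕ} {A : RT} (h : ut A = ut (path m)) :
    A = path m ∨ ∃ i j, i + j + 2 = m ∧ A = (pt.add (path i)).add (path j) := by
  have h' : Same A (path m) := ut_eq.1 h
  clear h
  have h'' := h'.symm
  clear h'
  have key : ∀ {B A : RT}, Same A B →
      (B = path m ∨ ∃ i j, i + j + 2 = m ∧ B = (pt.add (path i)).add (path j)) →
      (A = path m ∨ ∃ i j, i + j + 2 = m ∧ A = (pt.add (path i)).add (path j)) := by
    intro B A h hB
    induction h using Same.indMove with
    | refl => exact hB
    | head P Q _ _ ih =>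
      rcases ih with h1 | ⟨i, j, hij, h1⟩
      · -- `Q.add P = path m`
        cases m with
        | zero => exact absurd h1 add_ne_pt
        | succ m =>
          obtain ⟨rfl, rfl⟩ := pt_add_inj (show pt.add (path m) = Q.add P from h1.symm)
          cases m with
          | zero => exact Or.inl rfl
          | succ m => exact Or.inr ⟨m, 0, by omega, rfl⟩
      · rcases add_eq_add_iff.1 h1 with ⟨rfl, rfl⟩ | ⟨E, rfl, h2⟩
        · -- `P.add Q = (path j).add (pt.add (path i))`
          cases j with
          | zero =>
            left
            rw [show m = i + 2 by omega]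
            rfl
          | succ j => exact Or.inr ⟨j, i + 1, by omega, rfl⟩
        · obtain ⟨rfl, rfl⟩ := pt_add_inj h2
          cases i with
          | zero =>
            left
            rw [show m = j + 2 by omega]
            rfl
          | succ i => exact Or.inr ⟨i, j + 1, by omega, rfl⟩
  exact key h''.symm (Or.inl rfl)

theorem path_codes_card {m : ℕ} {A : RT} (h : ut A = ut (path m)) :
    Multiset.card A.kids ≤ 2 := by
  rcases path_codes h with rfl | ⟨i, j, _, rfl⟩
  · cases m with
    | zero => simp [path]
    | succ m => simp [path]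
  · simp

theorem card_path_le (m : ℕ) : Multiset.card (path m).kids ≤ 1 := by
  cases m with
  | zero => simp [path]
  | succ m => simp [path]

theorem card_chain_succ (i : ℕ) (Z : RT) : Multiset.card (chain (i + 1) Z).kids = 1 := by
  simp [chain]

theorem path_inj {m l : ℕ} (h : path m = path l) : m = l := by
  have := congrArg size h
  simpa using this

theorem eq_pt_of_cards {N : RT} (h : cards N = cards pt) : N = pt := by
  rw [cards_pt, cards, Multiset.map_eq_zero] at h
  rw [← kids_inj, h]
  simp

theorem eq_pt_add_of_cards {N A : RT} (h : cards N = cards (pt.add A)) :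
    ∃ A', N = pt.add A' ∧ ut A' = ut A := by
  have h1 : Multiset.card N.kids = 1 := by
    rw [← card_cards, h]; simp
  obtain ⟨A', hA'⟩ := Multiset.card_eq_one.1 h1
  refine ⟨A', by rw [← kids_inj, hA']; simp, ?_⟩
  rw [cards, hA'] at h
  simpa using h

theorem eq_pt_add_of_card' {M : RT} (h : Multiset.card M.kids = 1) : ∃ X, M = pt.add X := by
  obtain ⟨X, hX⟩ := Multiset.card_eq_one.1 h
  exact ⟨X, by rw [← kids_inj, hX]; simp⟩

/-- L5: a spider with a leg of length one. -/
theorem good_spider (a b : ℕ) : Good (((pt.add (path a)).add (path b)).add pt) := by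
  refine good_of_adj (fun A _ => by rw [size_pt]; exact A.size_pos) ?_ ?_
  · rw [size_pt, size_add, size_add, size_pt]
    have := (path a).size_pos
    omega
  intro M' Z N' hcard hN' hcards hcase
  have hN0 := eq_pt_of_cards hN'
  subst hN0
  have hMp : ut ((pt.add (path a)).add (path b)) = ut (path (a + b + 2)) := by
    rcases Nat.eq_zero_or_pos b with rfl | hb
    · rw [ut_add_comm]
      rfl
    · obtain ⟨b, rfl⟩ : ∃ c, b = c + 1 := ⟨b - 1, by omega⟩
      have : ∀ b a : ℕ, ut ((pt.add (path a)).add (path b)) = ut (path (a + b + 2)) := by
        intro b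
        induction b with
        | zero =>
          intro a
          rw [ut_add_comm]
          rfl
        | succ b ih =>
          intro a
          rw [ut_add_comm]
          have := ih (a + 1)
          rw [show a + (b + 1) + 2 = a + 1 + b + 2 by omega, ← this]
          rw [show (path (b + 1)).add (pt.add (path a)) = (pt.add (path b)).add (path (a + 1)) from rfl,
            add_swap]
      exact this _ _
  simp only [kids_add, kids_pt, Multiset.card_cons, Multiset.card_zero] at hcard
  rcases hcase with ⟨rfl, hut⟩ | ⟨Q, hQ, hut⟩
  · rw [hMp] at hut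
    rcases path_codes hut with rfl | ⟨i, j, hij, rfl⟩
    · have := card_path_le (a + b + 2)
      omega
    · -- compare sizes
      have hsz := map_size_of_cards hcards
      simp only [kids_add, kids_pt, Multiset.map_cons, Multiset.map_zero, size_path, size_pt] at hsz
      rw [Multiset.cons_inj_right] at hsz
      have h1 : j + 1 = b + 1 ∧ i + 1 = a + 1 ∨ j + 1 = a + 1 ∧ i + 1 = b + 1 := by
        have h2 : j + 1 ∈ (b + 1) ::ₘ (a + 1) ::ₘ (0 : Multiset ℕ) := by rw [← hsz]; simp
        simp only [Multiset.mem_cons, Multiset.notMem_zero, or_false] at h2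
        rcases h2 with h2 | h2
        · left
          exact ⟨h2, by omega⟩
        · right
          exact ⟨h2, by omega⟩
      rcases h1 with ⟨h1, h2⟩ | ⟨h1, h2⟩
      · have h3 : j = b := by omega
        have h4 : i = a := by omega
        rw [h3, h4]
      · have h3 : j = a := by omega
        have h4 : i = b := by omega
        rw [h3, h4, add_swap pt]
  · exfalso
    rw [hMp] at hut
    have := path_codes_card hut
    rw [kids_add, Multiset.card_cons] at this
    omega

/-! ### the caterpillars -/

/-- arm vertex `y` of the caterpillar: a pendant and a path with `m + 1` vertices -/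
def cY (m : ℕ) : RT := (pt.add pt).add (path m)

/-- `c` without its arm: a pendant and `y` -/
def cV (m : ℕ) : RT := (pt.add pt).add (cY m)

theorem cV_spider (m : ℕ) : ut (cV m) = ut (((pt.add pt).add (path 1)).add (path m)) := by
  rw [cV, ut_add_comm, cY]
  rw [show path 1 = pt.add pt from rfl, add_swap _ (path m)]

/-- the other end of the arm seen from far away -/
def cQ : RT := (pt.add pt).add ((pt.add pt).add pt)

/-- All codes of the spider. -/
theorem spider_codes {m : ℕ} {A : RT}
    (h : ut A = ut (((pt.add pt).add (path 1)).add (path m))) :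
    A = ((pt.add pt).add (path 1)).add (path m) ∨
    ∃ (l i : ℕ) (P : RT), i ≤ l ∧ A = (path (l - i)).add (chain i P) ∧
      ((l = 0 ∧ P = (pt.add (path 1)).add (path m)) ∨ (l = 1 ∧ P = (pt.add pt).add (path m)) ∨
        (l = m ∧ P = (pt.add pt).add (path 1))) := by
  rcases same_iff.1 h.symm with h1 | ⟨P, B, D, K, h1, h2, hp⟩
  · exact Or.inl h1.symm
  · right
    rcases add_eq_add_iff.1 h1 with ⟨h3, h4⟩ | ⟨E, h3, h4⟩
    · subst h3 h4
      obtain ⟨i, hi, hD, hK⟩ := pos_path hp
      exact ⟨m, i, _, hi, by rw [h2, hD, hK], Or.inr (Or.inr ⟨rfl, rfl⟩)⟩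
    · rcases add_eq_add_iff.1 h3 with ⟨h5, h6⟩ | ⟨E', h5, h6⟩
      · subst h5 h6
        obtain ⟨i, hi, hD, hK⟩ := pos_path hp
        exact ⟨1, i, P, hi, by rw [h2, hD, hK], Or.inr (Or.inl ⟨rfl, h4⟩)⟩
      · obtain ⟨rfl, rfl⟩ := pt_add_inj h5
        obtain ⟨i, hi, hD, hK⟩ := pos_path (m := 0) hp
        exact ⟨0, i, P, hi, by rw [h2, hD, hK], Or.inl ⟨rfl, by rw [h4, h6]⟩⟩

theorem two_kids {A B C D : RT} (h : (pt.add A).add B = (pt.add C).add D) :
    (A = C ∧ B = D) ∨ (A = D ∧ B = C) := by
  rcases add_eq_add_iff.1 h with ⟨h1, h2⟩ | ⟨E, h1, h2⟩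
  · exact Or.inl ⟨by simpa using h1, h2⟩
  · obtain ⟨h3, h4⟩ := pt_add_inj h1
    obtain ⟨_, h6⟩ := pt_add_inj h2
    exact Or.inr ⟨h4, h6.symm⟩

theorem fork_ne_path (m : ℕ) (A B : RT) : (pt.add A).add B ≠ path m := by
  intro h
  have := congrArg (fun A => Multiset.card (kids A)) h
  have h2 := card_path_le m
  simp at this
  omega

/-- shape of a two-kid code of the spider -/
theorem spider_two {m : ℕ} {A B : RT}
    (h : ut ((pt.add A).add B) = ut (((pt.add pt).add (path 1)).add (path m)))
    (hB : ∀ k, B ≠ path k) (hA : ∀ k C, B ≠ chain (k + 1) C) :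
    (∃ l P, l + 1 ≤ m + 1 ∧ A = path l ∧ B = P ∧
      ((l + 1 = 1 ∧ P = (pt.add pt).add (path m)) ∨
        (l + 1 = m ∧ P = (pt.add pt).add (path 1)))) := by
  rcases spider_codes h with h1 | ⟨l, i, P, hi, h1, h2⟩
  · have := congrArg (fun A => Multiset.card (kids A)) h1
    simp at this
  · rcases Nat.eq_zero_or_pos (l - i) with h0 | h0
    · rw [h0] at h1
      have := congrArg (fun A => Multiset.card (kids A)) h1
      simp [path] at this
    · obtain ⟨k, hk⟩ : ∃ k, l - i = k + 1 := ⟨l - i - 1, by omega⟩
      rw [hk, path] at h1
      rcases two_kids h1 with ⟨h3, h4⟩ | ⟨h3, h4⟩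
      · rcases Nat.eq_zero_or_pos i with rfl | hip
        · rw [chain] at h4
          rcases h2 with ⟨hl, _⟩ | ⟨hl, hP⟩ | ⟨hl, hP⟩
          · omega
          · exact ⟨k, P, by omega, h3, h4, Or.inl ⟨by omega, hP⟩⟩
          · exact ⟨k, P, by omega, h3, h4, Or.inr ⟨by omega, hP⟩⟩
        · obtain ⟨i', rfl⟩ : ∃ i', i = i' + 1 := ⟨i - 1, by omega⟩
          exact absurd h4 (hA _ _)
      · exact absurd h4 (hB _)

/-- positions in `pt.add (cV m)` other than its root -/
theorem cat_pos {m : ℕ} {D K : RT} (h : PosD pt (cV m) D K) :
    (D = cV m ∧ K = pt) ∨ (D = pt ∧ K = cV m) ∨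
    (D = cY m ∧ K = (pt.add pt).add pt) ∨
    (D = pt ∧ K = (pt.add (path m)).add ((pt.add pt).add pt)) ∨
    (∃ i, i ≤ m ∧ D = path (m - i) ∧ K = chain i cQ) := by
  generalize hV : cV m = V at h
  cases h with
  | here => exact Or.inl ⟨rfl, rfl⟩
  | @deeper _ X₁ C₁ _ _ h1 =>
    right
    rw [cV] at hV
    rcases add_eq_add_iff.1 hV with ⟨h2, h3⟩ | ⟨E, h2, h3⟩
    · subst h2 h3
      right
      generalize hY : cY m = Y at h1
      cases h1 with
      | here => exact Or.inl ⟨rfl, rfl⟩
      | @deeper _ X₂ C₂ _ _ h4 =>
        right
        rw [cY] at hY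
        rcases add_eq_add_iff.1 hY with ⟨h5, h6⟩ | ⟨E, h5, h6⟩
        · subst h5 h6
          obtain ⟨i, hi, hD, hK⟩ := pos_path h4
          exact Or.inr ⟨i, hi, hD, hK⟩
        · obtain ⟨rfl, rfl⟩ := pt_add_inj h5
          subst h6
          obtain ⟨i, hi, hD, hK⟩ := pos_path (m := 0) h4
          have hi0 : i = 0 := by omega
          subst hi0
          exact Or.inl ⟨hD, hK⟩
    · obtain ⟨rfl, rfl⟩ := pt_add_inj h2
      subst h3
      obtain ⟨i, hi, hD, hK⟩ := pos_path (m := 0) h1
      have hi0 : i = 0 := by omega
      subst hi0
      left
      refine ⟨hD, ?_⟩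
      rw [hK, chain, ← hV]

theorem cQ_ne_path (k : ℕ) : cQ ≠ path k := fork_ne_path k _ _

theorem fork_ne_chain (k : ℕ) (A B C : RT) : (pt.add A).add B ≠ chain (k + 1) C := by
  intro h
  have := congrArg (fun A => Multiset.card (kids A)) h
  simp [chain] at this

theorem chain_eq_chain {i j : ℕ} {A B C D : RT}
    (h : chain i ((pt.add A).add B) = chain j ((pt.add C).add D)) :
    i = j ∧ (pt.add A).add B = (pt.add C).add D := by
  induction i generalizing j with
  | zero =>
    cases j with
    | zero => exact ⟨rfl, h⟩
    | succ j => exact absurd h (fork_ne_chain j _ _ _)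
  | succ i ih =>
    cases j with
    | zero => exact absurd h.symm (fork_ne_chain i _ _ _)
    | succ j =>
      simp only [chain, add_right_inj] at h
      obtain ⟨h1, h2⟩ := ih h
      exact ⟨by omega, h2⟩

theorem chain_fork_ne_path (i k : ℕ) (A B : RT) : chain i ((pt.add A).add B) ≠ path k := by
  induction i generalizing k with
  | zero => exact fork_ne_path k _ _
  | succ i ih =>
    cases k with
    | zero =>
      intro h
      exact absurd h add_ne_pt
    | succ k =>
      intro h
      simp only [chain, path, add_right_inj] at h
      exact ih k h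

/-- `chain i cQ` is not a code of a path -/
theorem chain_cQ_not_path (i k : ℕ) : ut (chain i cQ) ≠ ut (path k) := by
  intro h
  rcases path_codes h with h1 | ⟨a, b, _, h1⟩
  · exact chain_fork_ne_path i k _ _ h1
  · cases i with
    | zero =>
      rw [chain, cQ] at h1
      rcases two_kids h1 with ⟨_, h2⟩ | ⟨_, h2⟩
      · exact fork_ne_path _ _ _ h2
      · exact fork_ne_path _ _ _ h2
    | succ i =>
      exact fork_ne_chain i _ _ _ h1.symm

/-- the two caterpillars: arms with `m + 1` and `b + 1` vertices, `b = m` or `b = m + 1`. -/
theorem good_cat {m b : ℕ} (hb : b = m ∨ b = m + 1) (hm : 4 ≤ m) :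
    Good ((cV m).add (path b)) := by
  -- root at the first vertex of the arm of `c`
  obtain ⟨b', rfl⟩ : ∃ b', b = b' + 1 := ⟨b - 1, by omega⟩
  have hR : ut ((pt.add (cV m)).add (path b')) = ut ((cV m).add (path (b' + 1))) := by
    rw [path, ut_add_comm (cV m), add_swap]
  refine Good.congr ?_ hR
  have hVs : (cV m).size = m + 5 := by
    simp [cV, cY]
    omega
  refine good_of_adj ?_ ?_ ?_
  · intro A hA
    simp only [mem_kids_add, kids_pt, Multiset.notMem_zero, or_false] at hA
    rw [hA, hVs, size_path]
    omega
  · rw [size_add, hVs, size_path]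
    omega
  intro M' Z N' hcard hN' hcards hcase
  simp only [kids_add, kids_pt, Multiset.card_cons, Multiset.card_zero] at hcard
  obtain ⟨V', rfl⟩ := eq_pt_add_of_card' hcard
  have hN's := size_of_cards hN'
  rw [size_path] at hN's
  simp only [cards_add, cards_pt] at hcards
  -- `Z` and `V'`
  have hZm : ut Z = ut (path b') ∧ ut V' = ut (cV m) ∨ ut Z = ut (cV m) ∧ ut V' = ut (path b') := by
    have h1 : ut Z ∈ ut (path b') ::ₘ ut (cV m) ::ₘ (0 : Multiset UT) := by rw [← hcards]; simp
    simp only [Multiset.mem_cons, Multiset.notMem_zero, or_false] at h1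
    rcases h1 with h1 | h1
    · left
      refine ⟨h1, ?_⟩
      rw [h1, Multiset.cons_inj_right, Multiset.cons_inj_left] at hcards
      exact hcards
    · right
      refine ⟨h1, ?_⟩
      rw [h1, Multiset.cons_swap (ut (path b')), Multiset.cons_inj_right,
        Multiset.cons_inj_left] at hcards
      exact hcards
  rcases hcase with ⟨rfl, hut⟩ | ⟨Q, hQ, hut⟩
  · -- case 1
    rcases hZm with ⟨hZ, hV'⟩ | ⟨hZ, _⟩
    · have hZp : Z = path b' := by
        rcases path_codes hZ with h1 | ⟨i, j, _, h1⟩
        · exact h1
        · exfalso
          have h2 := card_cards Z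
          rw [hN', card_cards, h1] at h2
          have h3 := card_path_le b'
          simp at h2
          omega
      have hV : V' = cV m := by
        rcases same_iff.1 hut.symm with h1 | ⟨P, B, D, K, h1, h2, hp⟩
        · simpa using h1.symm
        · obtain ⟨rfl, rfl⟩ := pt_add_inj h1
          obtain ⟨rfl, rfl⟩ := pt_add_inj h2
          rw [cV_spider] at hV'
          rcases cat_pos hp with ⟨h3, _⟩ | ⟨_, h3⟩ | ⟨h3, _⟩ | ⟨_, h3⟩ | ⟨i, hi, h3, h4⟩
          · exact absurd h3.symm add_ne_pt
          · exact h3
          · exact absurd h3.symm add_ne_pt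
          · exfalso
            rw [h3] at hV'
            obtain ⟨l, P, _, h5, h6, h7⟩ := spider_two hV' (fun k => fork_ne_path k _ _)
              (fun k C => fork_ne_chain k _ _ _)
            rcases h7 with ⟨h8, h9⟩ | ⟨h8, h9⟩
            · rw [h9] at h6
              have := congrArg size h6
              simp at this
              omega
            · rw [h9] at h6
              have := congrArg size h6
              simp at this
          · exfalso
            have him : i = m := by
              have := congrArg size h3
              simp at this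
              omega
            subst him
            rw [h4] at hV'
            obtain ⟨i', rfl⟩ : ∃ i', i = i' + 1 := ⟨i - 1, by omega⟩
            rcases spider_codes hV' with h5 | ⟨l, j, P, hj, h5, h6⟩
            · have := congrArg (fun A => Multiset.card (kids A)) h5
              simp [chain] at this
            · have hlj : l = j := by
                by_contra hne
                obtain ⟨k, hk⟩ : ∃ k, l - j = k + 1 := ⟨l - j - 1, by omega⟩
                rw [hk, path] at h5
                exact fork_ne_chain _ _ _ _ h5.symm
              subst hlj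
              rw [Nat.sub_self] at h5
              have h7 : chain (i' + 1) cQ = chain (l + 1) P := h5
              rcases h6 with ⟨_, hP⟩ | ⟨_, hP⟩ | ⟨_, hP⟩
              · rw [hP, cQ] at h7
                have h8 := (chain_eq_chain h7).2
                have := congrArg size h8
                simp at this
                rcases two_kids h8 with ⟨h9, _⟩ | ⟨_, h9⟩
                · have := congrArg size h9
                  simp at this
                · have h10 := congrArg size h9
                  simp at h10
              · rw [hP, cQ] at h7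
                have h8 := (chain_eq_chain h7).2
                rcases two_kids h8 with ⟨_, h9⟩ | ⟨_, h9⟩
                · exact fork_ne_path _ _ _ h9
                · exact add_ne_pt h9
              · rw [hP, cQ] at h7
                have h8 := (chain_eq_chain h7).2
                rcases two_kids h8 with ⟨_, h9⟩ | ⟨_, h9⟩
                · exact fork_ne_path _ _ _ h9
                · exact add_ne_pt h9
      rw [hV, hZp]
    · exfalso
      have := size_of_ut hZ
      omega
  · -- case 2
    have hsz := hQ.size
    have hQpos := Q.size_pos
    rcases hZm with ⟨hZ, _⟩ | ⟨hZ, hV'⟩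
    · exfalso
      have := size_of_ut hZ
      rw [size_path] at this
      omega
    · have hpos : Q = cQ ∧ V' = path b' := by
        have hV's := size_of_ut hV'
        rw [size_path] at hV's
        rcases same_iff.1 hut.symm with h1 | ⟨P, B, D, K, h1, h2, hp⟩
        · have := congrArg (fun A => Multiset.card (kids A)) h1
          simp at this
        · obtain ⟨rfl, rfl⟩ := pt_add_inj h1
          have hD1 : Multiset.card D.kids = 1 := by
            have := congrArg (fun A => Multiset.card (kids A)) h2
            simp at this
            omega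
          have hcase2 : (D = pt.add V' ∧ K = Q) ∨ (D = pt.add Q ∧ K = V') := by
            rcases add_eq_add_iff.1 h2 with ⟨h3, h4⟩ | ⟨E, h3, h4⟩
            · exact Or.inl ⟨h3.symm, h4.symm⟩
            · obtain ⟨rfl, rfl⟩ := pt_add_inj h3
              exact Or.inr ⟨h4, rfl⟩
          rcases cat_pos hp with ⟨h3, _⟩ | ⟨h3, _⟩ | ⟨h3, _⟩ | ⟨h3, _⟩ | ⟨i, hi, h3, h4⟩
          · rw [h3] at hD1
            simp [cV] at hD1
          · rw [h3] at hD1
            simp at hD1
          · rw [h3] at hD1
            simp [cY] at hD1
          · rw [h3] at hD1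
            simp at hD1
          · have hmi : 1 ≤ m - i := by
              by_contra hcon
              have : m - i = 0 := by omega
              rw [h3, this] at hD1
              simp [path] at hD1
            obtain ⟨k, hk⟩ : ∃ k, m - i = k + 1 := ⟨m - i - 1, by omega⟩
            rw [hk, path] at h3
            rcases hcase2 with ⟨h5, h6⟩ | ⟨_, h6⟩
            · rw [h3, add_right_inj] at h5
              have h7 := congrArg size h5
              rw [size_path, hV's] at h7
              have hi0 : i = 0 := by omega
              subst hi0
              refine ⟨by rw [← h6, h4]; rfl, ?_⟩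
              rw [← h5]
              congr 1
              omega
            · exfalso
              rw [← h6, h4] at hV'
              exact chain_cQ_not_path _ _ hV'
      obtain ⟨rfl, rfl⟩ := hpos
      -- `b' + 1 = m`
      have hZs := size_of_ut hZ
      have hcQs : cQ.size = 5 := by simp [cQ]
      have hbm : b' + 1 = m := by omega
      rw [cV_spider] at hZ
      have hZ2 : Z = cV m := by
        rw [cQ] at hQ
        rcases gr_add_iff.1 hQ with ⟨A', hA', rfl⟩ | ⟨C', hC', rfl⟩
        · exfalso
          rcases gr_add_iff.1 hA' with ⟨A'', hA'', rfl⟩ | ⟨B'', hB'', rfl⟩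
          · rw [gr_pt_iff] at hA''
            subst hA''
            rcases spider_codes hZ with h1 | ⟨l, i, P, _, h1, _⟩
            · have h2 : (pt.add pt).add pt ∈ (((pt.add pt).add (path 1)).add (path m)).kids := by
                rw [← h1]; simp
              simp only [mem_kids_add, kids_pt, Multiset.notMem_zero, or_false] at h2
              rcases h2 with h2 | h2 | h2
              · exact fork_ne_path _ _ _ h2
              · exact fork_ne_path _ _ _ h2
              · exact add_ne_pt h2
            · have h2 := congrArg (fun A => Multiset.card (kids A)) h1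
              have h3 := card_path_le (l - i)
              simp at h2
              omega
          · obtain ⟨l, P, _, h5, h6, h7⟩ := spider_two hZ (fun k => fork_ne_path k _ _)
              (fun k C => fork_ne_chain k _ _ _)
            rcases h7 with ⟨h8, h9⟩ | ⟨h8, h9⟩
            · rw [h9] at h6
              have := congrArg size h6
              simp at this
              omega
            · rw [h9] at h6
              have := congrArg size h6
              simp at this
        · rcases gr_add_iff.1 hC' with ⟨A', hA', rfl⟩ | ⟨C'', hC'', rfl⟩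
          · rcases gr_add_iff.1 hA' with ⟨A'', hA'', rfl⟩ | ⟨B'', hB'', rfl⟩
            · exfalso
              rw [gr_pt_iff] at hA''
              subst hA''
              obtain ⟨l, P, _, h5, h6, h7⟩ := spider_two hZ (by
                intro k hk
                have := congrArg (fun A => Multiset.card (kids A)) hk
                have h2 := card_path_le k
                simp at this
                omega) (by
                intro k C hk
                have := congrArg (fun A => Multiset.card (kids A)) hk
                simp [chain] at this)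
              rcases h7 with ⟨h8, h9⟩ | ⟨h8, h9⟩
              · rw [h9] at h6
                have := congrArg (fun A => Multiset.card (kids A)) h6
                simp at this
              · rw [h9] at h6
                have := congrArg (fun A => Multiset.card (kids A)) h6
                simp at this
            · rw [gr_pt_iff] at hB''
              subst hB''
              obtain ⟨l, P, _, h5, h6, h7⟩ := spider_two hZ (fun k => fork_ne_path k _ _)
                (fun k C => fork_ne_chain k _ _ _)
              rcases h7 with ⟨h8, h9⟩ | ⟨h8, h9⟩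
              · rw [h9] at h6
                rw [h6, cV, cY]
              · exfalso
                have := congrArg size h5
                simp at this
                omega
          · rw [gr_pt_iff] at hC''
            subst hC''
            obtain ⟨l, P, _, h5, h6, h7⟩ := spider_two hZ (fun k => fork_ne_path k _ _)
              (fun k C => fork_ne_chain k _ _ _)
            rcases h7 with ⟨h8, h9⟩ | ⟨h8, h9⟩
            · rw [h9] at h6
              rw [h6, cV, cY]
            · exfalso
              have := congrArg size h5
              simp at this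
              omega
      rw [hZ2, add_swap]

/-- L6: `X.add X` with `X = <P_{m+1}, pt>` -/
theorem good_L6 {m : ℕ} (hm : 4 ≤ m) :
    Good (((pt.add (path m)).add pt).add ((pt.add (path m)).add pt)) := by
  have h := good_cat (m := m) (b := m) (Or.inl rfl) hm
  have e : ((pt.add (path m)).add pt).add ((pt.add (path m)).add pt) = (cV m).add (path m) := by
    rw [cV, cY, add_swap pt (path m) pt, add_swap (pt.add pt) (path m)]
  rwa [e]

/-- T0: `<<P_{m+1}, pt>, P_{m+2}, pt>` -/
theorem good_T0 {m : ℕ} (hm : 4 ≤ m) :
    Good (((pt.add ((pt.add (path m)).add pt)).add (path (m + 1))).add pt) := by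
  have h := good_cat (m := m) (b := m + 1) (Or.inr rfl) hm
  have e : ((pt.add ((pt.add (path m)).add pt)).add (path (m + 1))).add pt =
      (cV m).add (path (m + 1)) := by
    rw [cV, cY, add_swap _ (path (m + 1)) pt, add_swap pt (path m) pt, add_swap pt _ pt]
  rwa [e]

end Pool.Agent.H48.Drn.Cat
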