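import Pool.Agent.H48.Drn.Card

set_option autoImplicit false

/-!
Two codes of the same tree are the two ends of a chain; centroid uniqueness.
-/

namespace Pool.Agent.H48.Drn

open RT

/-- The branch consisting of a path whose vertices carry the given side branches
(empty for the empty list). -/
def hang : List (Multiset RT) → Multiset RT
  | [] => 0
  | S :: L => {node (S + hang L)}

@[simp] theorem hang_nil : hang [] = 0 := rfl

@[simp] theorem hang_cons (S : Multiset RT) (L : List (Multiset RT)) :
    hang (S :: L) = {node (S + hang L)} := rfl

theorem hang_append (L L' : List (Multiset RT)) (T : Multiset RT) :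
    hang (L ++ T :: L') = hang (L ++ [T + hang L']) := by
  induction L with
  | nil => simp
  | cons S L ih => simp only [List.cons_append, hang_cons, ih]

/-- Codes of the two ends of a chain. -/
def Ch (R R' : RT) : Prop := R = R' ∨ ∃ (S : Multiset RT) (L : List (Multiset RT))
  (S' : Multiset RT), R = node (S + hang (L ++ [S'])) ∧ R' = node (S' + hang (L.reverse ++ [S]))

theorem Ch.step {R R' R'' : RT} (h : Ch R R') (h' : RR R' R'') : Ch R R'' := by
  obtain ⟨M, N⟩ := h'
  rcases h with rfl | ⟨S, L, S', rfl, hR'⟩
  · right
    refine ⟨M, [], N, ?_, ?_⟩
    · simp [← Multiset.singleton_add, add_comm]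
    · simp [← Multiset.singleton_add, add_comm]
  · obtain ⟨X, hX⟩ : ∃ X, hang (L.reverse ++ [S]) = {X} := by
      cases L.reverse with
      | nil => exact ⟨_, rfl⟩
      | cons T L => exact ⟨_, rfl⟩
    rw [hX, node_inj, add_comm, Multiset.singleton_add, Multiset.cons_eq_cons] at hR'
    rcases hR' with ⟨hXN, hMS⟩ | ⟨_, M₀, h3, h4⟩
    · -- stepping back along the chain
      subst hXN hMS
      rcases List.eq_nil_or_concat L with rfl | ⟨L₀, T, rfl⟩
      · left
        simp only [List.reverse_nil, List.nil_append, hang_cons, hang_nil, add_zero,
          Multiset.singleton_inj, node_inj] at hX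
        subst hX
        simp [← Multiset.singleton_add, add_comm]
      · right
        rw [List.concat_eq_append, List.reverse_append, List.reverse_singleton] at hX
        simp only [List.cons_append, hang_cons, Multiset.singleton_inj,
          node_inj] at hX
        refine ⟨S, L₀, T + {node M}, ?_, ?_⟩
        · rw [List.concat_eq_append, List.append_assoc, List.singleton_append, hang_append]
          simp
        · rw [← hX, node_inj, ← Multiset.singleton_add]
          abel
    · -- extending the chain
      right
      refine ⟨S, L ++ [M₀], N, ?_, ?_⟩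
      · rw [List.append_assoc, List.singleton_append, hang_append L [N] M₀, h4]
        simp [← Multiset.singleton_add, add_comm]
      · rw [List.reverse_append, List.reverse_singleton, List.singleton_append, List.cons_append,
          hang_cons, hX, h3]
        simp [← Multiset.singleton_add, add_comm]

theorem Same.ch {R R' : RT} (h : Same R R') : Ch R R' := by
  induction h with
  | refl => exact Or.inl rfl
  | tail _ h2 ih => exact ih.step h2

/-- weight of a chain vertex together with its side branches -/
def wt (S : Multiset RT) : ℕ := 1 + (S.map size).sum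

theorem wt_pos (S : Multiset RT) : 0 < wt S := by unfold wt; omega

theorem size_eq_wt (S : Multiset RT) : size (node S) = wt S := size_node S

theorem hang_size (L : List (Multiset RT)) : ((hang L).map size).sum = (L.map wt).sum := by
  induction L with
  | nil => simp
  | cons S L ih =>
    simp only [hang_cons, Multiset.map_singleton, Multiset.sum_singleton, size_node,
      Multiset.map_add, Multiset.sum_add, ih, List.map_cons, List.sum_cons, wt]
    omega

theorem hang_eq_singleton (L : List (Multiset RT)) (S : Multiset RT) :
    ∃ V, hang (L ++ [S]) = {V} ∧ size V = (L.map wt).sum + wt S := by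
  obtain ⟨V, hV⟩ : ∃ V, hang (L ++ [S]) = {V} := by
    cases L with
    | nil => exact ⟨_, rfl⟩
    | cons T L => exact ⟨_, rfl⟩
  refine ⟨V, hV, ?_⟩
  have h := hang_size (L ++ [S])
  rw [hV, Multiset.map_singleton, Multiset.sum_singleton] at h
  rw [h]
  simp

/-- Two codes of the same tree: equal, or the two ends of a chain with the two branches facing
each other having at least `size R` vertices together. -/
theorem Same.two {R R' : RT} (h : Same R R') : R = R' ∨
    ∃ (S : Multiset RT) (L : List (Multiset RT)) (S' : Multiset RT) (A B : RT),
      R = node (A ::ₘ S) ∧ R' = node (B ::ₘ S') ∧ hang (L ++ [S']) = {A} ∧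
      hang (L.reverse ++ [S]) = {B} ∧ size A = (L.map wt).sum + wt S' ∧
      size B = (L.map wt).sum + wt S ∧ size R = (L.map wt).sum + wt S' + wt S := by
  rcases h.ch with h | ⟨S, L, S', h1, h2⟩
  · exact Or.inl h
  · right
    obtain ⟨A, hA, hA'⟩ := hang_eq_singleton L S'
    obtain ⟨B, hB, hB'⟩ := hang_eq_singleton L.reverse S
    refine ⟨S, L, S', A, B, ?_, ?_, hA, hB, hA', ?_, ?_⟩
    · rw [h1, hA, add_comm, Multiset.singleton_add]
    · rw [h2, hB, add_comm, Multiset.singleton_add]
    · rw [hB', List.map_reverse, List.sum_reverse]
    · rw [h1, hA, size_node, Multiset.map_add, Multiset.sum_add, Multiset.map_singleton,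
        Multiset.sum_singleton, hA']
      unfold wt
      omega

/-- The two facing branches cover the tree. -/
theorem Same.facing {R R' : RT} (h : Same R R') (hne : R ≠ R') :
    ∃ A ∈ kids R, ∃ B ∈ kids R', size R ≤ size A + size B := by
  rcases h.two with h | ⟨S, L, S', A, B, rfl, rfl, _, _, h1, h2, h3⟩
  · exact absurd h hne
  · refine ⟨A, by simp, B, by simp, ?_⟩
    omega

/-- A strict centroid code is unique among centroid codes. -/
theorem Same.cen_unique {R R' : RT} (h : Same R R') (h1 : ∀ A ∈ kids R, 2 * size A < size R)
    (h2 : Cen R') : R = R' := by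
  by_contra hne
  obtain ⟨A, hA, B, hB, hAB⟩ := h.facing hne
  have h3 := h1 A hA
  have h4 := h2 B hB
  rw [← h.size_eq] at h4
  omega

/-- Two centroid codes are equal or the two ends of a central edge. -/
theorem Same.cen_cen {R R' : RT} (h : Same R R') (h1 : Cen R) (h2 : Cen R') : R = R' ∨
    ∃ M M', R = node (node M' ::ₘ M) ∧ R' = node (node M ::ₘ M') ∧
      size (node M) = size (node M') := by
  rcases h.two with h | ⟨S, L, S', A, B, hR, hR', hA, hB, h3, h4, h5⟩
  · exact Or.inl h
  · right
    have hAR := h1 A (by rw [hR]; simp)
    have hBR := h2 B (by rw [hR']; simp)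
    rw [← h.size_eq] at hBR
    have hL : (L.map wt).sum = 0 := by
      have := wt_pos S
      omega
    have hL0 : L = [] := by
      cases L with
      | nil => rfl
      | cons T L =>
        simp only [List.map_cons, List.sum_cons] at hL
        have := wt_pos T
        omega
    subst hL0
    simp only [List.nil_append, hang_cons, hang_nil, add_zero, Multiset.singleton_inj,
      List.reverse_nil] at hA hB
    subst hA hB
    refine ⟨S, S', hR, hR', ?_⟩
    rw [size_eq_wt, size_eq_wt]
    simp only [List.map_nil, List.sum_nil] at h3 h4 h5
    omega

end Pool.Agent.H48.Drn
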