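import Pool.Agent.H48.Drn.Chain

set_option autoImplicit false

/-!
Deletion algebra on codes; rooted trees determined by two of their leaf deletions.
-/

namespace Pool.Agent.H48.Drn

open RT

/-- Deleting a leaf of a branch `B`: the branch disappears if it is a single vertex. -/
def DelM (B : RT) (X : Multiset RT) : Prop := (B = pt ∧ X = 0) ∨ ∃ B', Del B B' ∧ X = {B'}

theorem del_iff {M M' : Multiset RT} :
    Del (node M) (node M') ↔ ∃ B X N, M = B ::ₘ N ∧ M' = X + N ∧ DelM B X := by
  rw [del_node_iff]
  constructor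
  · rintro (rfl | ⟨B, B', N, rfl, rfl, h⟩)
    · exact ⟨pt, 0, M', rfl, by simp, Or.inl ⟨rfl, rfl⟩⟩
    · exact ⟨B, {B'}, N, rfl, by simp, Or.inr ⟨B', h, rfl⟩⟩
  · rintro ⟨B, X, N, rfl, rfl, ⟨rfl, rfl⟩ | ⟨B', h, rfl⟩⟩
    · left
      simp
    · right
      exact ⟨B, B', N, rfl, by simp, h⟩

theorem exists_delM (B : RT) : ∃ X, DelM B X := by
  by_cases h : B = pt
  · exact ⟨0, Or.inl ⟨h, rfl⟩⟩
  · obtain ⟨D, hD⟩ := exists_del h
    exact ⟨{D}, Or.inr ⟨D, hD, rfl⟩⟩

theorem DelM.sum_size {B : RT} {X : Multiset RT} (h : DelM B X) :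
    (X.map size).sum + 1 = size B := by
  rcases h with ⟨rfl, rfl⟩ | ⟨B', h, rfl⟩
  · simp
  · have := h.size_eq
    simp
    omega

theorem DelM.mem_size {B : RT} {X : Multiset RT} (h : DelM B X) {A : RT} (hA : A ∈ X) :
    size A + 1 = size B ∧ X = {A} ∧ Del B A := by
  rcases h with ⟨rfl, rfl⟩ | ⟨B', h, rfl⟩
  · simp at hA
  · rw [Multiset.mem_singleton] at hA
    subst hA
    have := h.size_eq
    exact ⟨by omega, rfl, h⟩

theorem DelM.of_ne {B : RT} {X : Multiset RT} (h : DelM B X) (hB : 2 ≤ size B) :
    ∃ B', Del B B' ∧ X = {B'} ∧ size B = size B' + 1 := by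
  rcases h with ⟨rfl, rfl⟩ | ⟨B', h, rfl⟩
  · simp at hB
  · exact ⟨B', h, rfl, h.size_eq⟩

/-- number of branches with at least `t` vertices -/
def G (t : ℕ) (M : Multiset RT) : ℕ := M.countP (fun A => t ≤ size A)

theorem G_add (t : ℕ) (M N : Multiset RT) : G t (M + N) = G t M + G t N := by
  simp [G]

theorem G_singleton (t : ℕ) (A : RT) : G t {A} = if t ≤ size A then 1 else 0 := by
  rw [G, ← Multiset.cons_zero, Multiset.countP_cons]
  simp

theorem G_delM {t : ℕ} (ht : 1 ≤ t) {B : RT} {X : Multiset RT} (h : DelM B X) :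
    G t X + (if size B = t then 1 else 0) = G t {B} := by
  rcases h with ⟨rfl, rfl⟩ | ⟨B', h, rfl⟩
  · rw [G_singleton, size_pt]
    have : G t 0 = 0 := by simp [G]
    rw [this]
    by_cases h1 : t = 1
    · subst h1; simp
    · rw [if_neg (by omega), if_neg (by omega)]
  · rw [G_singleton, G_singleton]
    have := h.size_eq
    split_ifs <;> omega

/-- The comparison of two trees having a common deletion. -/
theorem common_del {M Q N : Multiset RT} (h1 : Del (node M) (node N)) (h2 : Del (node Q) (node N)) :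
    ∃ B XB E XE, B ∈ M ∧ DelM B XB ∧ E ∈ Q ∧ DelM E XE ∧ Q + {B} + XE = M + {E} + XB := by
  obtain ⟨B, XB, L, rfl, rfl, hB⟩ := del_iff.1 h1
  obtain ⟨E, XE, K, rfl, hN, hE⟩ := del_iff.1 h2
  refine ⟨B, XB, E, XE, by simp, hB, by simp, hE, ?_⟩
  rw [← Multiset.singleton_add, ← Multiset.singleton_add]
  have : XE + K = XB + L := hN.symm
  calc {E} + K + {B} + XE = {E} + {B} + (XE + K) := by abel
    _ = {E} + {B} + (XB + L) := by rw [this]
    _ = {B} + L + {E} + XB := by abel

/-- Version with the deletion of `M` given explicitly. -/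
theorem common_del' {L Q : Multiset RT} {B : RT} {XB : Multiset RT} (hB : DelM B XB)
    (h2 : Del (node Q) (node (XB + L))) :
    ∃ E XE, E ∈ Q ∧ DelM E XE ∧ Q + {B} + XE = (B ::ₘ L) + {E} + XB := by
  obtain ⟨E, XE, K, rfl, hN, hE⟩ := del_iff.1 h2
  refine ⟨E, XE, by simp, hE, ?_⟩
  rw [← Multiset.singleton_add, ← Multiset.singleton_add]
  have : XE + K = XB + L := hN.symm
  calc {E} + K + {B} + XE = {E} + {B} + (XE + K) := by abel
    _ = {E} + {B} + (XB + L) := by rw [this]
    _ = {B} + L + {E} + XB := by abel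

theorem G_common {M Q : Multiset RT} {B E : RT} {XB XE : Multiset RT} (hB : DelM B XB)
    (hE : DelM E XE) (h : Q + {B} + XE = M + {E} + XB) {t : ℕ} (ht : 1 ≤ t) :
    G t Q + (if size B = t then 1 else 0) = G t M + (if size E = t then 1 else 0) := by
  have h1 := congrArg (G t) h
  rw [G_add, G_add, G_add, G_add] at h1
  have h2 := G_delM ht hB
  have h3 := G_delM ht hE
  omega

/-- Deletions from branches of different sizes are different. -/
theorem del_ne_of_size {L L' : Multiset RT} {B C : RT} {XB XC : Multiset RT} (hB : DelM B XB)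
    (hC : DelM C XC) (hM : B ::ₘ L = C ::ₘ L') (hne : size B ≠ size C) : XB + L ≠ XC + L' := by
  intro h
  have h1 := congrArg (G (size B)) h
  have h2 := congrArg (G (size B)) hM
  rw [← Multiset.singleton_add, ← Multiset.singleton_add, G_add, G_add] at h2
  rw [G_add, G_add] at h1
  have hb := size_pos B
  have h3 := G_delM hb hB
  have h4 := G_delM hb hC
  rw [if_pos rfl] at h3
  rw [if_neg (Ne.symm hne)] at h4
  omega

/-- Sizes of the branches where deletions happened, when the sizes for `M` are different. -/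
theorem sizes_of_ne {M Q : Multiset RT} {B C E F : RT} {XB XC XE XF : Multiset RT}
    (hB : DelM B XB) (hC : DelM C XC) (hE : DelM E XE) (hF : DelM F XF)
    (h1 : Q + {B} + XE = M + {E} + XB) (h2 : Q + {C} + XF = M + {F} + XC)
    (hne : size B ≠ size C) : size E = size B ∧ size F = size C := by
  have e1 := G_common hB hE h1 (size_pos B)
  have e2 := G_common hC hF h2 (size_pos B)
  have e3 := G_common hB hE h1 (size_pos C)
  have e4 := G_common hC hF h2 (size_pos C)
  rw [if_pos rfl] at e1
  rw [if_neg (Ne.symm hne)] at e2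
  rw [if_neg hne] at e3
  rw [if_pos rfl] at e4
  constructor
  · by_contra h
    rw [if_neg h] at e1
    split_ifs at e2 <;> omega
  · by_contra h
    rw [if_neg h] at e4
    split_ifs at e3 <;> omega

theorem sizes_of_eq {M Q : Multiset RT} {B C E F : RT} {XB XC XE XF : Multiset RT}
    (hB : DelM B XB) (hC : DelM C XC) (hE : DelM E XE) (hF : DelM F XF)
    (h1 : Q + {B} + XE = M + {E} + XB) (h2 : Q + {C} + XF = M + {F} + XC)
    (heq : size B = size C) : size E = size F := by
  have e1 := G_common hB hE h1 (size_pos E)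
  have e2 := G_common hC hF h2 (size_pos E)
  rw [if_pos rfl, heq] at e1
  by_contra h
  rw [if_neg (Ne.symm h)] at e2
  omega

theorem count_delM {B A : RT} {X : Multiset RT} (h : DelM B X) (hA : size A + 1 ≠ size B) :
    X.count A = 0 := by
  rw [Multiset.count_eq_zero]
  intro hA'
  exact hA (h.mem_size hA').1

/-- Kronecker delta on codes. -/
noncomputable def dl (A B : RT) : ℕ := if A = B then 1 else 0

theorem count_sg (A B : RT) : ({B} : Multiset RT).count A = dl A B := by
  rw [Multiset.count_singleton, dl]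

theorem dl_self (A : RT) : dl A A = 1 := if_pos rfl

theorem dl_ne {A B : RT} (h : A ≠ B) : dl A B = 0 := if_neg h

theorem dl_ns {A B : RT} (h : size A ≠ size B) : dl A B = 0 := if_neg (fun h' => h (by rw [h']))

theorem dl_le (A B : RT) : dl A B ≤ 1 := by
  unfold dl
  split_ifs <;> omega

theorem dl_comm (A B : RT) : dl A B = dl B A := by
  unfold dl
  by_cases h : A = B
  · subst h; rfl
  · rw [if_neg h, if_neg (Ne.symm h)]

theorem eq_of_dl {A B : RT} (h : dl A B ≠ 0) : A = B := by
  by_contra hne
  exact h (dl_ne hne)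

/-- Sizes differ by at least two: any deletions determine the tree. -/
theorem eq_of_far {M Q : Multiset RT} {B C E F : RT} {XB XC XE XF : Multiset RT}
    (hB : DelM B XB) (hC : DelM C XC) (hE : DelM E XE) (hF : DelM F XF)
    (h1 : Q + {B} + XE = M + {E} + XB) (h2 : Q + {C} + XF = M + {F} + XC)
    (hne : size C + 2 ≤ size B) : Q = M := by
  obtain ⟨hsE, hsF⟩ := sizes_of_ne hB hC hE hF h1 h2 (by omega)
  ext A
  by_cases hA : size A + 1 = size B ∨ size A = size B
  · have e := congrArg (Multiset.count A) h2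
    simp only [Multiset.count_add, count_sg] at e
    rw [count_delM hC (by omega), count_delM hF (by omega), dl_ns (by omega),
      dl_ns (by omega)] at e
    omega
  · push Not at hA
    have e := congrArg (Multiset.count A) h1
    simp only [Multiset.count_add, count_sg] at e
    rw [count_delM hB hA.1, count_delM hE (by rw [hsE]; exact hA.1), dl_ns (by omega),
      dl_ns (by omega)] at e
    omega

/-- Sizes differ by one: the deletion `B'` of the bigger branch `B` must be `C` itself if this is
possible. -/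
theorem eq_of_near {M Q : Multiset RT} {B C E F B' : RT} {XC XE XF : Multiset RT}
    (hB : Del B B') (hC : DelM C XC) (hE : DelM E XE) (hF : DelM F XF)
    (h1 : Q + {B} + XE = M + {E} + {B'}) (h2 : Q + {C} + XF = M + {F} + XC)
    (hne : size C + 1 = size B) (hch : B' = C ∨ ¬ Del B C) : Q = M := by
  have hBM : DelM B {B'} := Or.inr ⟨B', hB, rfl⟩
  obtain ⟨hsE, hsF⟩ := sizes_of_ne hBM hC hE hF h1 h2 (by omega)
  have hc := size_pos C
  obtain ⟨E', hE', rfl, hsE'⟩ := hE.of_ne (by omega)
  have hsB' := hB.size_eq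
  -- `E = B`
  have hEB : E = B := by
    by_contra hcon
    have e1 := congrArg (Multiset.count B) h1
    have e2 := congrArg (Multiset.count B) h2
    simp only [Multiset.count_add, count_sg] at e1 e2
    rw [count_delM hC (by omega), count_delM hF (by omega), dl_ns (by omega),
      dl_ns (by omega)] at e2
    rw [dl_self, dl_ns (B := E') (by omega), dl_ne (Ne.symm hcon), dl_ns (B := B') (by omega)] at e1
    omega
  subst hEB
  -- counts at size `size C`
  have key : ∀ A, size A = size C → dl A F + dl A E' = dl A C + dl A B' := by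
    intro A hA
    have e1 := congrArg (Multiset.count A) h1
    have e2 := congrArg (Multiset.count A) h2
    simp only [Multiset.count_add, count_sg] at e1 e2
    rw [count_delM hC (by omega), count_delM hF (by omega)] at e2
    omega
  have hE'B' : E' = B' := by
    rcases hch with rfl | hno
    · have := key B' rfl
      rw [dl_self] at this
      by_contra hcon
      rw [dl_ne (B := E') (Ne.symm hcon)] at this
      have := dl_le B' F
      omega
    · have := key C rfl
      rw [dl_self] at this
      by_contra hcon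
      have hCE' : C ≠ E' := by
        rintro rfl
        exact hno hE'
      have hCB' : C ≠ B' := by
        rintro rfl
        exact hno hB
      rw [dl_ne hCE', dl_ne hCB'] at this
      have hCF : C = F := eq_of_dl (by omega)
      have k2 := key B' (by omega)
      rw [dl_self, ← hCF, dl_ne (Ne.symm hCB'), dl_ne (Ne.symm hcon)] at k2
      omega
  subst hE'B'
  exact add_right_cancel (add_right_cancel h1)

/-- Equal sizes, different branches with different deletions. -/
theorem eq_of_same {M Q : Multiset RT} {B C E F B' C' : RT} {XE XF : Multiset RT}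
    (hB : Del B B') (hC : Del C C') (hE : DelM E XE) (hF : DelM F XF)
    (h1 : Q + {B} + XE = M + {E} + {B'}) (h2 : Q + {C} + XF = M + {F} + {C'})
    (hs : size B = size C) (hBC : B ≠ C) (hB'C' : B' ≠ C') : Q = M := by
  have hBM : DelM B {B'} := Or.inr ⟨B', hB, rfl⟩
  have hCM : DelM C {C'} := Or.inr ⟨C', hC, rfl⟩
  have hEF := sizes_of_eq hBM hCM hE hF h1 h2 hs
  have hsB' := hB.size_eq
  have hsC' := hC.size_eq
  have hb' := size_pos B'
  -- the difference equation
  have key : ∀ A, dl A B + XE.count A + dl A F + dl A C' =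
      dl A C + XF.count A + dl A E + dl A B' := by
    intro A
    have e1 := congrArg (Multiset.count A) h1
    have e2 := congrArg (Multiset.count A) h2
    simp only [Multiset.count_add, count_sg] at e1 e2
    omega
  have hEb : size E = size B := by
    by_contra hcon
    by_cases h3 : size E = size B + 1
    · -- look at `B'`
      have k := key B'
      rw [count_delM hE (by omega), count_delM hF (by omega), dl_ns (B := B) (by omega),
        dl_ns (B := F) (by omega), dl_ne hB'C', dl_ns (B := C) (by omega),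
        dl_ns (B := E) (by omega), dl_self] at k
      omega
    · have k := key B
      rw [count_delM hE (by omega), count_delM hF (by omega), dl_self, dl_ne hBC,
        dl_ns (B := E) (by omega), dl_ns (B := B') (by omega)] at k
      omega
  have hEB : E = B := by
    by_contra hcon
    have k := key B
    rw [count_delM hE (by omega), count_delM hF (by omega), dl_self, dl_ne hBC,
      dl_ne (Ne.symm hcon), dl_ns (B := B') (by omega)] at k
    omega
  subst hEB
  obtain ⟨E', hE', rfl, hsE'⟩ := hE.of_ne (by omega)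
  obtain ⟨F', hF', rfl, hsF'⟩ := hF.of_ne (by omega)
  have hE'B' : E' = B' := by
    by_contra hcon
    have k := key B'
    rw [count_sg, count_sg, dl_ns (B := E) (by omega), dl_ne (Ne.symm hcon),
      dl_ns (B := F) (by omega), dl_ne hB'C', dl_ns (B := C) (by omega), dl_self] at k
    omega
  subst hE'B'
  exact add_right_cancel (add_right_cancel h1)

/-- Rooted trees determined by two different leaf deletions. -/
def RGood (R : RT) : Prop := ∃ D₁ D₂, D₁ ≠ D₂ ∧ Del R D₁ ∧ Del R D₂ ∧
  ∀ Q, Del Q D₁ → Del Q D₂ → Q = R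

/-- Branches of different sizes: a pair of deletions, the first one in the bigger branch. -/
theorem good_of_size {L : Multiset RT} {B C : RT} (hlt : size C < size B) :
    ∃ B' XC, Del B B' ∧ DelM C XC ∧
      (∀ Q, Del Q (node (B' ::ₘ C ::ₘ L)) → Del Q (node (XC + (B ::ₘ L))) →
        Q = node (B ::ₘ C ::ₘ L)) ∧
      node (B' ::ₘ C ::ₘ L) ≠ node (XC + (B ::ₘ L)) := by
  have hc := size_pos C
  obtain ⟨B', hB', hch⟩ : ∃ B', Del B B' ∧ (B' = C ∨ ¬ Del B C) := by
    by_cases h : Del B C
    · exact ⟨C, h, Or.inl rfl⟩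
    · obtain ⟨D, hD⟩ := exists_del (R := B) (by rintro rfl; rw [size_pt] at hlt; omega)
      exact ⟨D, hD, Or.inr h⟩
  obtain ⟨XC, hXC⟩ := exists_delM C
  have hBM : DelM B {B'} := Or.inr ⟨B', hB', rfl⟩
  refine ⟨B', XC, hB', hXC, ?_, ?_⟩
  · intro Q hQ1 hQ2
    obtain ⟨K, rfl⟩ := exists_eq_node Q
    rw [← Multiset.singleton_add] at hQ1
    obtain ⟨E, XE, _, hE, h1⟩ := common_del' hBM hQ1
    obtain ⟨F, XF, _, hF, h2⟩ := common_del' hXC hQ2
    rw [Multiset.cons_swap] at h2
    rw [node_inj]
    by_cases h : size C + 2 ≤ size B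
    · exact eq_of_far hBM hXC hE hF h1 h2 h
    · exact eq_of_near hB' hXC hE hF h1 h2 (by omega) hch
  · rw [Ne, node_inj, ← Multiset.singleton_add B']
    exact del_ne_of_size hBM hXC (Multiset.cons_swap _ _ _) (by omega)

theorem good_of_same {L : Multiset RT} {B C B' C' : RT} (hs : size B = size C) (hBC : B ≠ C)
    (hB : Del B B') (hC : Del C C') (hne : B' ≠ C') : RGood (node (B ::ₘ C ::ₘ L)) := by
  have hBM : DelM B {B'} := Or.inr ⟨B', hB, rfl⟩
  have hCM : DelM C {C'} := Or.inr ⟨C', hC, rfl⟩
  refine ⟨node (B' ::ₘ C ::ₘ L), node (C' ::ₘ B ::ₘ L), ?_, ?_, ?_, ?_⟩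
  · rw [Ne, node_inj]
    intro h
    have := congrArg (Multiset.count C') h
    have h1 := hB.size_eq
    have h2 := hC.size_eq
    rw [Multiset.count_cons_of_ne (Ne.symm hne), Multiset.count_cons_of_ne hC.ne.symm,
      Multiset.count_cons_self, Multiset.count_cons_of_ne] at this
    · omega
    · rintro rfl
      omega
  · rw [del_node_iff]
    exact Or.inr ⟨B, B', C ::ₘ L, rfl, rfl, hB⟩
  · rw [del_node_iff]
    exact Or.inr ⟨C, C', B ::ₘ L, Multiset.cons_swap _ _ _, rfl, hC⟩
  · intro Q hQ1 hQ2
    obtain ⟨K, rfl⟩ := exists_eq_node Q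
    rw [← Multiset.singleton_add] at hQ1 hQ2
    obtain ⟨E, XE, _, hE, h1⟩ := common_del' hBM hQ1
    obtain ⟨F, XF, _, hF, h2⟩ := common_del' hCM hQ2
    rw [Multiset.cons_swap] at h2
    rw [node_inj]
    exact eq_of_same hB hC hE hF h1 h2 hs hBC hne

end Pool.Agent.H48.Drn
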