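import Pool.Agent.H91.Drn.Base
import Pool.Agent.H48.Drn.Good

set_option autoImplicit false

/-!
Good pairs of leaf deletions at the rooted level.
-/

namespace Pool.Agent.H48.Drn

open RT

theorem add_eq_node (A B : RT) : A.add B = node (B ::ₘ A.kids) := rfl

/-- Two branches of different sizes. -/
theorem delta {M A A1 B Rv : RT} (hA : Lf A1 A) (hs : B.size < A.size) (hc : Lf B A → A1 = B)
    (hv : (∃ B1, Lf B1 B ∧ Rv = (M.add A).add B1) ∨ (B = pt ∧ Rv = M.add A)) :
    R1 ((M.add A).add B) ((M.add A1).add B) Rv := by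
  have hAM : DelM A {A1} := Or.inr ⟨A1, hA, rfl⟩
  obtain ⟨XB, hXB, hRv⟩ : ∃ XB, DelM B XB ∧ Rv = node (XB + (A ::ₘ M.kids)) := by
    rcases hv with ⟨B1, hB1, rfl⟩ | ⟨rfl, rfl⟩
    · exact ⟨{B1}, Or.inr ⟨B1, hB1, rfl⟩, by
        rw [add_eq_node, kids_add, Multiset.singleton_add]⟩
    · exact ⟨0, Or.inl ⟨rfl, rfl⟩, by simp [add_eq_node]⟩
  have hRu : (M.add A1).add B = node ({A1} + (B ::ₘ M.kids)) := by
    rw [add_eq_node, kids_add, Multiset.singleton_add, Multiset.cons_swap]
  have hR : (M.add A).add B = node (A ::ₘ B ::ₘ M.kids) := by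
    rw [add_eq_node, kids_add, Multiset.cons_swap]
  have hR' : (M.add A).add B = node (B ::ₘ A ::ₘ M.kids) := by
    rw [add_eq_node, kids_add]
  refine ⟨?_, ?_, ?_, ?_⟩
  · exact (Gr.right hA M).left B
  · change Del _ _
    rw [hRv, hR', del_iff]
    exact ⟨B, XB, A ::ₘ M.kids, rfl, rfl, hXB⟩
  · rw [hRu, hRv, Ne, node_inj]
    exact del_ne_of_size hAM hXB (Multiset.cons_swap _ _ _) (by omega)
  · intro S h1 h2
    have h1' : Del (node S.kids) (node ({A1} + (B ::ₘ M.kids))) := by
      rw [node_kids, ← hRu]; exact h1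
    have h2' : Del (node S.kids) (node (XB + (A ::ₘ M.kids))) := by
      rw [node_kids, ← hRv]; exact h2
    obtain ⟨E, XE, _, hE, e1⟩ := common_del' hAM h1'
    obtain ⟨F, XF, _, hF, e2⟩ := common_del' hXB h2'
    rw [Multiset.cons_swap B A] at e2
    have hkey : S.kids = A ::ₘ B ::ₘ M.kids := by
      by_cases h : B.size + 2 ≤ A.size
      · exact eq_of_far hAM hXB hE hF e1 e2 h
      · refine eq_of_near hA hXB hE hF e1 e2 (by omega) ?_
        by_cases hAB : Lf B A
        · exact Or.inl (hc hAB)
        · exact Or.inr hAB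
    rw [hR, ← hkey, node_kids]

/-- A good pair inside one branch is a good pair of the whole tree. -/
theorem nested {P X Xu Xv : RT} (h : R1 X Xu Xv) (hP : ∀ C ∈ P.kids, C.size + 2 ≠ X.size) :
    R1 (P.add X) (P.add Xu) (P.add Xv) := by
  obtain ⟨hB1, hB2, hne, hgood⟩ := h
  have hM1 : DelM X {Xu} := Or.inr ⟨Xu, hB1, rfl⟩
  have hM2 : DelM X {Xv} := Or.inr ⟨Xv, hB2, rfl⟩
  have hs1 := Lf.size hB1
  have hs2 := Lf.size hB2
  refine ⟨Gr.right hB1 P, Gr.right hB2 P, ?_, ?_⟩
  · rw [Ne, add_right_inj]
    exact hne
  · intro S h1 h2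
    have h1' : Del (node S.kids) (node ({Xu} + P.kids)) := by
      rw [node_kids, Multiset.singleton_add]; exact h1
    have h2' : Del (node S.kids) (node ({Xv} + P.kids)) := by
      rw [node_kids, Multiset.singleton_add]; exact h2
    obtain ⟨E, XE, _, hE, e1⟩ := common_del' hM1 h1'
    obtain ⟨F, XF, _, hF, e2⟩ := common_del' hM2 h2'
    have hEF := sizes_of_eq hM1 hM2 hE hF e1 e2 rfl
    have key : ∀ A, XE.count A + dl A F + dl A Xv = XF.count A + dl A E + dl A Xu := by
      intro A
      have c1 := congrArg (Multiset.count A) e1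
      have c2 := congrArg (Multiset.count A) e2
      simp only [Multiset.count_add, count_sg] at c1 c2
      omega
    have hfin : S.kids = X ::ₘ P.kids := by
      by_cases he : size E = size X
      · have k1 := key Xu
        rw [dl_ns (B := F) (by omega), dl_ne hne, dl_ns (B := E) (by omega), dl_self] at k1
        have hXE : Xu ∈ XE := by
          rw [← Multiset.count_pos]
          omega
        have k2 := key Xv
        rw [dl_ns (B := F) (by omega), dl_ne (Ne.symm hne), dl_ns (B := E) (by omega),
          dl_self] at k2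
        have hXF : Xv ∈ XF := by
          rw [← Multiset.count_pos]
          omega
        obtain ⟨_, rfl, hE1⟩ := hE.mem_size hXE
        obtain ⟨_, rfl, hF2⟩ := hF.mem_size hXF
        have hEF' : E = F := by
          have k3 := key E
          rw [count_sg, count_sg, dl_self] at k3
          apply eq_of_dl
          omega
        subst hEF'
        have hEB := hgood E hE1 hF2
        subst hEB
        exact add_right_cancel (add_right_cancel e1)
      · exfalso
        by_cases he1 : size E + 1 = size X
        · have k1 := key Xu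
          rw [count_delM hE (by omega), count_delM hF (by omega), dl_ne hne, dl_self] at k1
          have k2 := key Xv
          rw [count_delM hE (by omega), count_delM hF (by omega), dl_ne (Ne.symm hne),
            dl_self] at k2
          have h3 : Xv = E := eq_of_dl (by omega)
          subst h3
          rcases hE with ⟨h4, rfl⟩ | ⟨B', hB', rfl⟩
          · subst h4
            rw [size_pt] at he1
            have : size Xu = 1 := by omega
            exact hne (size_eq_one.1 this)
          · have h5 := hB'.size_eq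
            have e := congrArg (Multiset.count B') e1
            simp only [Multiset.count_add, count_sg] at e
            rw [dl_self, dl_ns (B := X) (by omega), dl_ns (B := Xv) (by omega),
              dl_ns (B := Xu) (by omega)] at e
            have h6 : (X ::ₘ P.kids).count B' = 0 := by
              rw [Multiset.count_eq_zero]
              intro hmem
              rw [Multiset.mem_cons] at hmem
              rcases hmem with h | h
              · rw [h] at h5; omega
              · have := hP B' h
                omega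
            omega
        · have k1 := key Xu
          rw [count_delM hE (by omega), dl_ns (B := F) (by omega), dl_ne hne, dl_self] at k1
          omega
    rw [add_eq_node, ← hfin, node_kids]

theorem R1_of_sizes {A B C : RT} (hB : B ∈ A.kids) (hC : C ∈ A.kids) (h : C.size < B.size) :
    ∃ Au Av, R1 A Au Av := by
  obtain ⟨M', rfl⟩ := exists_add_of_mem hC
  rw [mem_kids_add] at hB
  rcases hB with rfl | hB
  · omega
  obtain ⟨M, rfl⟩ := exists_add_of_mem hB
  have hc := C.size_pos
  obtain ⟨B', hB', hch⟩ : ∃ B', Lf B' B ∧ (Lf C B → B' = C) := by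
    by_cases h1 : Lf C B
    · exact ⟨C, h1, fun _ => rfl⟩
    · obtain ⟨D, hD⟩ := exists_lf (R := B) (by omega)
      exact ⟨D, hD, fun h2 => absurd h2 h1⟩
  by_cases hp : C = pt
  · exact ⟨_, _, delta hB' h hch (Or.inr ⟨hp, rfl⟩)⟩
  · have h2 : 2 ≤ C.size := by
      by_contra hcon
      exact hp (eq_pt_of_size (by omega))
    obtain ⟨C1, hC1⟩ := exists_lf h2
    exact ⟨_, _, delta hB' h hch (Or.inl ⟨C1, hC1, rfl⟩)⟩

theorem R1_of_not_EQ {A : RT} : ¬ EQ A → ∃ Au Av, R1 A Au Av := by
  induction A using RT.ind with
  | h M ih =>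
    intro hA
    by_cases h : ∀ B ∈ (node M).kids, ∀ C ∈ (node M).kids, B.size = C.size
    · have h2 : ∃ B ∈ (node M).kids, ¬ EQ B := by
        by_contra hcon
        push Not at hcon
        exact hA (EQ.mk _ h hcon)
      obtain ⟨B, hB, hnB⟩ := h2
      obtain ⟨Bu, Bv, hR⟩ := ih B (by rwa [kids_node] at hB) hnB
      obtain ⟨P, hP⟩ := exists_add_of_mem hB
      rw [hP] at h ⊢
      refine ⟨_, _, nested hR ?_⟩
      intro C hC
      have := h C (by simp [hC]) B (by simp)
      omega
    · push Not at h
      obtain ⟨B, hB, C, hC, hne⟩ := h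
      rcases Nat.lt_or_gt_of_ne hne with hlt | hlt
      · exact R1_of_sizes hC hB hlt
      · exact R1_of_sizes hB hC hlt

theorem lf_kids_le {Ru R : RT} {m : ℕ} (h : Lf Ru R) (hm : ∀ B ∈ R.kids, B.size ≤ m) :
    ∀ B ∈ Ru.kids, B.size ≤ m := by
  have h' : Del (node R.kids) (node Ru.kids) := by
    rw [node_kids, node_kids]; exact h
  rcases del_node_iff.1 h' with h1 | ⟨C, C', N, h1, h2, h3⟩
  · intro B hB
    exact hm B (by rw [h1]; simp [hB])
  · intro B hB
    rw [h2, Multiset.mem_cons] at hB
    rcases hB with rfl | hB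
    · have := hm C (by rw [h1]; simp)
      have := h3.size_eq
      omega
    · exact hm B (by rw [h1]; simp [hB])

theorem lf_kids_le' {Ru S : RT} {m : ℕ} (h : Lf Ru S) (hm : ∀ B ∈ Ru.kids, B.size ≤ m) :
    ∀ B ∈ S.kids, B.size ≤ m + 1 := by
  have h' : Del (node S.kids) (node Ru.kids) := by
    rw [node_kids, node_kids]; exact h
  rcases del_node_iff.1 h' with h1 | ⟨C, C', N, h1, h2, h3⟩
  · intro B hB
    rw [h1, Multiset.mem_cons] at hB
    rcases hB with rfl | hB
    · rw [size_pt]; omega
    · have := hm B hB
      omega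
  · intro B hB
    rw [h1, Multiset.mem_cons] at hB
    rcases hB with rfl | hB
    · have := hm C' (by rw [h2]; simp)
      have := h3.size_eq
      omega
    · have := hm B (by rw [h2]; simp [hB])
      omega

end Pool.Agent.H48.Drn
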