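import Pool.Agent.H91.Drn.Base

set_option autoImplicit false

/-!
The exceptional families (trees whose rooted pieces are hereditarily equal-sized), handled by a
pair of adjacent vertices.
-/

namespace Pool.Agent.H48.Drn

open RT

/-- The hypothesis K: an `EQ` rooted tree is determined by its unrooted type and the cards at
the root. -/
def KHyp : Prop := ∀ A B : RT, EQ A → ut B = ut A → cards B = cards A → B = A

/-- The hypothesis K2. -/
def K2Hyp : Prop := ∀ A B : RT, EQ A → 4 ≤ A.size → ut B = ut A →
  ut (pt.add (pt.add B)) = ut (pt.add (pt.add A)) → B = A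

theorem EQ.same_size {A : RT} (h : EQ A) : ∀ B ∈ A.kids, ∀ C ∈ A.kids, B.size = C.size := by
  cases h with
  | mk _ h1 _ => exact h1

theorem EQ.kid {A : RT} (h : EQ A) : ∀ B ∈ A.kids, EQ B := by
  cases h with
  | mk _ _ h2 => exact h2

theorem EQ.pt_add {A : RT} (h : EQ A) : EQ (pt.add A) := by
  refine EQ.mk _ ?_ ?_
  · intro B hB C hC
    simp at hB hC
    rw [hB, hC]
  · intro B hB
    simp at hB
    rw [hB]
    exact h

theorem sum_size_eq {M : Multiset RT} {a : ℕ} (h : ∀ A ∈ M, A.size = a) :
    (M.map size).sum = Multiset.card M * a := by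
  induction M using Multiset.induction_on with
  | empty => simp
  | cons B M ih =>
    rw [Multiset.map_cons, Multiset.sum_cons, Multiset.card_cons,
      ih (fun A hA => h A (Multiset.mem_cons_of_mem hA)), h B (Multiset.mem_cons_self _ _)]
    ring

theorem size_of_all {X : RT} {a : ℕ} (h : ∀ A ∈ X.kids, A.size = a) :
    X.size = 1 + Multiset.card X.kids * a := by
  rw [size_eq X, sum_size_eq h]

/-- sizes of kids only depend on the cards -/
theorem exists_size_of_cards {S R : RT} (h : cards S = cards R) {A : RT} (hA : A ∈ S.kids) :
    ∃ B ∈ R.kids, B.size = A.size := by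
  have h1 : A.size ∈ S.kids.map size := Multiset.mem_map_of_mem _ hA
  rw [map_size_of_cards h, Multiset.mem_map] at h1
  exact h1

theorem card_of_cards {S R : RT} (h : cards S = cards R) :
    Multiset.card S.kids = Multiset.card R.kids := by
  rw [← card_cards, ← card_cards, h]

theorem eq_pt_add_of_card {M : RT} (h : Multiset.card M.kids = 1) : ∃ X, M = pt.add X := by
  obtain ⟨X, hX⟩ := Multiset.card_eq_one.1 h
  exact ⟨X, by rw [← kids_inj, hX]; simp⟩

theorem eq_pt_of_card {M : RT} (h : Multiset.card M.kids = 0) : M = pt := by
  rw [Multiset.card_eq_zero] at h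
  rw [← kids_inj, h]
  simp

/-! ### E1: all branches of the same size, at least three of them -/

theorem good_E1 (hK : KHyp) {M N : RT} (hs : ∀ A ∈ M.kids, A.size = N.size)
    (hc : 2 ≤ Multiset.card M.kids) (hN : EQ N) : Good (M.add N) := by
  have hMs := size_of_all hs
  have hNpos := N.size_pos
  have hMs2 : 1 + 2 * N.size ≤ M.size := by
    rw [hMs]
    have := Nat.mul_le_mul_right N.size hc
    omega
  refine good_of_adj (fun A hA => (hs A hA).ge) (by omega) ?_
  intro M' Z N' hcard hN' hcards hcase
  have hN's := size_of_cards hN'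
  have hall : ∀ A ∈ (M'.add Z).kids, A.size = N.size := by
    intro A hA
    obtain ⟨B, hB, hBA⟩ := exists_size_of_cards hcards hA
    rw [← hBA]
    rw [mem_kids_add] at hB
    rcases hB with rfl | hB
    · rfl
    · exact hs B hB
  have hZ : Z.size = N.size := hall Z (by simp)
  have hM' : ∀ A ∈ M'.kids, A.size = N.size := fun A hA => hall A (by simp [hA])
  rcases hcase with ⟨rfl, hut⟩ | ⟨Q, hQ, _⟩
  · have hSB : SBal M := by
      intro B hB
      rw [hs B hB]
      omega
    have hB' : Bal M' := by
      intro B hB
      rw [hM' B hB, size_of_ut hut]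
      omega
    have hMM : M = M' := hSB.eq hB' hut.symm
    subst hMM
    rw [cards_add, cards_add, Multiset.cons_inj_left] at hcards
    rw [hK N Z hN hcards hN']
  · exfalso
    have h1 := hQ.size
    have h2 := Q.size_pos
    omega

/-! ### E2: two equal branches -/

theorem good_E2 (hK : KHyp) {X : RT} (hX : EQ X) : Good ((pt.add X).add X) := by
  refine good_of_adj (by simp) (by simp) ?_
  intro M' Z N' hcard hN' hcards hcase
  have hXpos := X.size_pos
  simp only [kids_add, kids_pt, Multiset.card_cons, Multiset.card_zero] at hcard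
  obtain ⟨X', rfl⟩ := eq_pt_add_of_card hcard
  have hN's := size_of_cards hN'
  have hZX : ut Z = ut X ∧ ut X' = ut X := by
    simp only [cards_add, cards_pt] at hcards
    have h1 : ut Z ∈ ut X ::ₘ ut X ::ₘ (0 : Multiset UT) := by rw [← hcards]; simp
    have h2 : ut X' ∈ ut X ::ₘ ut X ::ₘ (0 : Multiset UT) := by rw [← hcards]; simp
    simp at h1 h2
    exact ⟨h1, h2⟩
  rcases hcase with ⟨rfl, hut⟩ | ⟨Q, hQ, _⟩
  · have h1 : X' = X := by
      have := hK (pt.add X) (pt.add X') hX.pt_add hut (by simp [hZX.2])
      simpa using this
    have h2 : Z = X := hK X Z hX hZX.1 hN'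
    rw [h1, h2]
  · exfalso
    have h1 := hQ.size
    have h2 := Q.size_pos
    have h3 := size_of_ut hZX.1
    omega

/-! ### E3: two copies of `X` joined by an edge between the roots -/

theorem KK (hK2 : K2Hyp) {A B : RT} (hA : EQ A) (hAs : 5 ≤ A.size)
    (hut : ut (pt.add B) = ut (pt.add A)) (hc : cards B = cards A) : B = A := by
  have hcard := card_of_cards hc
  rcases Nat.lt_or_ge (Multiset.card A.kids) 2 with h | h
  · rcases Nat.lt_or_ge (Multiset.card A.kids) 1 with h0 | h1
    · rw [eq_pt_of_card (M := A) (by omega), eq_pt_of_card (M := B) (by omega)]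
    · obtain ⟨C, rfl⟩ := eq_pt_add_of_card (M := A) (by omega)
      obtain ⟨C', rfl⟩ := eq_pt_add_of_card (M := B) (by omega)
      simp only [cards_add, cards_pt, Multiset.cons_inj_left] at hc
      rw [size_add, size_pt] at hAs
      rw [hK2 C C' (hA.kid C (by simp)) (by omega) hc hut]
  · obtain ⟨C, hC⟩ : ∃ C, C ∈ A.kids := Multiset.card_pos_iff_exists_mem.1 (by omega)
    have hs : ∀ D ∈ A.kids, D.size = C.size := fun D hD => hA.same_size D hD C hC
    have hsz := size_of_all hs
    have hCpos := C.size_pos
    have h2 := Nat.mul_le_mul_right C.size h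
    have hSB : SBal (A.add pt) := by
      intro D hD
      rw [mem_kids_add] at hD
      rw [size_add, size_pt]
      rcases hD with rfl | hD
      · rw [size_pt]; omega
      · rw [hs D hD]; omega
    have hBB : Bal (B.add pt) := (hSB.bal).congr_cards (by rw [cards_add, cards_add, hc])
    have := hSB.eq hBB (by rw [ut_add_comm A, ut_add_comm B, hut])
    exact (add_left_inj.1 this).symm

theorem good_E3a (hK : KHyp) (hK2 : K2Hyp) {A : RT} (hA : EQ A) (hAs : 5 ≤ A.size) :
    Good ((pt.add A).add (pt.add A)) := by
  have hR : (pt.add A).add (pt.add A) = (pt.add (pt.add A)).add A := add_swap _ _ _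
  rw [hR]
  have hApos := A.size_pos
  refine good_of_adj (by simp) (by simp; omega) ?_
  intro M' Z N' hcard hN' hcards hcase
  simp only [kids_add, kids_pt, Multiset.card_cons, Multiset.card_zero] at hcard
  obtain ⟨X', rfl⟩ := eq_pt_add_of_card hcard
  have hN's := size_of_cards hN'
  simp only [cards_add, cards_pt] at hcards
  rcases hcase with ⟨rfl, hut⟩ | ⟨Q, hQ, hut⟩
  · -- case 1
    have hZ : ut Z = ut A := by
      have h1 : ut Z ∈ ut A ::ₘ ut (pt.add A) ::ₘ (0 : Multiset UT) := by rw [← hcards]; simp
      simp only [Multiset.mem_cons, Multiset.notMem_zero, or_false] at h1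
      rcases h1 with h1 | h1
      · exact h1
      · have := size_of_ut h1
        simp at this
        omega
    rw [hZ, Multiset.cons_inj_right, Multiset.cons_inj_left] at hcards
    have h1 : X' = pt.add A := by
      have := hK (pt.add (pt.add A)) (pt.add X') hA.pt_add.pt_add hut (by simp [hcards])
      simpa using this
    rw [h1, hK A Z hA hZ hN']
  · -- case 2
    have hsz := hQ.size
    have hQpos := Q.size_pos
    have hZ : ut Z = ut (pt.add A) := by
      have h1 : ut Z ∈ ut A ::ₘ ut (pt.add A) ::ₘ (0 : Multiset UT) := by rw [← hcards]; simp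
      simp only [Multiset.mem_cons, Multiset.notMem_zero, or_false] at h1
      rcases h1 with h1 | h1
      · have := size_of_ut h1
        omega
      · exact h1
    rw [hZ, Multiset.cons_swap (ut A), Multiset.cons_inj_right, Multiset.cons_inj_left] at hcards
    have hZs := size_of_ut hZ
    rw [size_add, size_pt] at hZs
    have hQ1 : Q = pt := eq_pt_of_size (by omega)
    subst hQ1
    rw [gr_pt_iff] at hQ
    subst hQ
    have h1 : X' = A := by
      refine hK2 A X' hA (by omega) hcards ?_
      rw [← hut, ut_add_comm pt (pt.add X')]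
    have h2 : N' = A := KK hK2 hA hAs hZ hN'
    rw [h1, h2, hR]

/-- `X` has at least three branches: `X = Y.add A` with `Y` having at least two. -/
theorem good_E3b (hK : KHyp) {Y A : RT} (hs : ∀ B ∈ Y.kids, B.size = A.size)
    (hc : 2 ≤ Multiset.card Y.kids) (hA : EQ A) : Good ((Y.add A).add (Y.add A)) := by
  obtain ⟨X, hX⟩ : ∃ X, X = Y.add A := ⟨_, rfl⟩
  have hR : (Y.add A).add (Y.add A) = (Y.add X).add A := by rw [hX, add_swap]
  rw [hR]
  have hApos := A.size_pos
  have hYs := size_of_all hs
  have hYs2 : 1 + 2 * A.size ≤ Y.size := by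
    rw [hYs]
    have := Nat.mul_le_mul_right A.size hc
    omega
  have hXs : X.size = Y.size + A.size := by rw [hX, size_add]
  have hXk : ∀ B ∈ X.kids, B.size = A.size := by
    intro B hB
    rw [hX, mem_kids_add] at hB
    rcases hB with rfl | hB
    · rfl
    · exact hs B hB
  -- the centroid of `Y.add X`
  have hSB : SBal (X.add Y) := by
    intro B hB
    rw [mem_kids_add] at hB
    rw [size_add]
    rcases hB with rfl | hB
    · omega
    · rw [hXk B hB]; omega
  have hSX : SBal X := by
    intro B hB
    rw [hXk B hB]
    omega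
  refine good_of_adj ?_ (by rw [size_add]; omega) ?_
  · intro B hB
    rw [mem_kids_add] at hB
    rcases hB with rfl | hB
    · omega
    · rw [hs B hB]
  intro M' Z N' hcard hN' hcards hcase
  have hN's := size_of_cards hN'
  simp only [cards_add] at hcards
  rcases hcase with ⟨rfl, hut⟩ | ⟨Q, hQ, hut⟩
  · -- case 1
    have hX'mem : ut X ∈ cards M' := by
      have h1 : ut X ∈ ut Z ::ₘ cards M' := by rw [hcards]; simp
      rw [Multiset.mem_cons] at h1
      rcases h1 with h1 | h1
      · have := size_of_ut h1
        omega
      · exact h1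
    obtain ⟨X', hX', hX'X⟩ := Multiset.mem_map.1 hX'mem
    obtain ⟨Y', rfl⟩ := exists_add_of_mem hX'
    rw [cards_add, hX'X, Multiset.cons_swap (ut Z), Multiset.cons_swap (ut A),
      Multiset.cons_inj_right] at hcards
    have hX's := size_of_ut hX'X
    have hMM : Y'.add X' = Y.add X := by
      have hall : ∀ B ∈ Y'.kids, B.size = A.size := by
        intro B hB
        have h1 : ut B ∈ ut Z ::ₘ cards Y' := Multiset.mem_cons_of_mem (Multiset.mem_map_of_mem _ hB)
        rw [hcards, Multiset.mem_cons] at h1
        rcases h1 with h1 | h1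
        · exact size_of_ut h1
        · obtain ⟨C, hC, hCB⟩ := Multiset.mem_map.1 h1
          rw [← size_of_ut hCB]
          exact hs C hC
      have h0 : ut (X.add Y) = ut (Y'.add X') := by rw [ut_add_comm X Y, hut]
      rcases same_iff.1 h0 with h1 | ⟨P, B, D, K, h1, h2, hp⟩
      · exfalso
        have h2 : X' ∈ (X.add Y).kids := by rw [h1]; simp
        rw [mem_kids_add] at h2
        rcases h2 with h2 | h2
        · rw [h2] at hX's; omega
        · have := hXk X' h2
          omega
      · have hBm : B ∈ (X.add Y).kids := by rw [h1]; simp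
        have hKm : K ∈ (Y'.add X').kids := by rw [h2]; simp
        have hsP : P.size + B.size = X.size + Y.size := by
          have := congrArg size h1
          simp only [size_add] at this
          omega
        have hPK := hp.size_le
        rw [mem_kids_add] at hBm hKm
        have hBY : B.size = Y.size ∧ P = X ∧ B = Y := by
          rcases hBm with rfl | hBm
          · exact ⟨rfl, (add_left_inj.1 h1).symm, rfl⟩
          · exfalso
            have h3 := hXk B hBm
            rcases hKm with rfl | hKm
            · omega
            · have := hall K hKm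
              omega
        obtain ⟨_, rfl, rfl⟩ := hBY
        have hKs : K.size ≤ P.size := by
          rcases hKm with rfl | hKm
          · omega
          · have := hall K hKm
            omega
        obtain ⟨rfl, rfl⟩ := hp.eq_of_size hKs
        exact h2
    -- conclude
    have hcc : cards Y' = cards Y ∧ ut Z = ut A := by
      rcases add_eq_add_iff.1 hMM with ⟨rfl, _⟩ | ⟨E, rfl, rfl⟩
      · rw [Multiset.cons_inj_left] at hcards
        exact ⟨rfl, hcards⟩
      · rw [cards_add, cards_add, hX'X, Multiset.cons_inj_left] at hcards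
        rw [cards_add, cards_add, hX'X]
        exact ⟨rfl, hcards⟩
    rw [hMM, hK A Z hA hcc.2 hN']
  · -- case 2
    have hsz := hQ.size
    have hQpos := Q.size_pos
    have hZX : ut Z = ut X := by
      have h1 : ut Z ∈ ut A ::ₘ ut X ::ₘ cards Y := by rw [← hcards]; simp
      simp only [Multiset.mem_cons] at h1
      rcases h1 with h1 | h1 | h1
      · have := size_of_ut h1
        omega
      · exact h1
      · obtain ⟨C, hC, hCZ⟩ := Multiset.mem_map.1 h1
        have h2 := hs C hC
        have := size_of_ut hCZ
        omega
    rw [hZX, Multiset.cons_swap (ut A), Multiset.cons_inj_right] at hcards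
    have hZs := size_of_ut hZX
    have hM'c : cards M' = cards X := by rw [hcards, hX, cards_add]
    have hM's := size_of_cards hM'c
    have hM'k : ∀ B ∈ M'.kids, B.size = A.size := by
      intro B hB
      obtain ⟨C, hC, hCB⟩ := exists_size_of_cards hM'c hB
      rw [← hCB]
      exact hXk C hC
    have hutsz := size_of_ut hut
    rw [size_add, size_add] at hutsz
    have hMQ : X.add Y = M'.add Q := by
      refine hSB.eq ?_ (by rw [ut_add_comm X Y, hut])
      intro B hB
      rw [mem_kids_add] at hB
      rw [size_add]
      rcases hB with rfl | hB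
      · omega
      · rw [hM'k B hB]; omega
    have hXM : X = M' ∧ Y = Q := by
      rcases add_eq_add_iff.1 hMQ with h | ⟨E, h1, _⟩
      · exact h
      · exfalso
        have h2 := hXk Q (by rw [h1]; simp)
        omega
    obtain ⟨rfl, rfl⟩ := hXM
    have hZ : X = Z := by
      rcases hQ.casesAdd with rfl | ⟨Y₀, B, B', hY, rfl, hB⟩
      · refine hSX.eq ?_ hZX.symm
        intro B hB
        rw [mem_kids_add] at hB
        rcases hB with rfl | hB
        · omega
        · rw [hs B hB]
          omega
      · exfalso
        have hBs : B.size = A.size := hs B (by rw [hY]; simp)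
        have hB's := hB.size
        rcases same_iff.1 hZX.symm with h1 | ⟨P, B₁, D, K, h1, h2, hp⟩
        · have h3 := hXk B' (by rw [h1]; simp)
          omega
        · have hB₁ := hXk B₁ (by rw [h1]; simp)
          have hKm : K ∈ (Y₀.add B').kids := by rw [h2]; simp
          have hPK := hp.size_le
          have hsP := congrArg size h1
          rw [size_add] at hsP
          rw [mem_kids_add] at hKm
          rcases hKm with rfl | hKm
          · omega
          · have := hs K (by rw [hY]; simp [hKm])
            omega
    rw [← hZ, hX, add_swap]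

end Pool.Agent.H48.Drn
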