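import Pool.Agent.H48.Drn.Exc

set_option autoImplicit false

/-!
E4: two copies of `X` joined by an edge between the roots, where `X` has exactly two branches.
-/

namespace Pool.Agent.H48.Drn

open RT

theorem pt_add_eq {A E B : RT} (h : pt.add A = E.add B) : E = pt ∧ A = B := by
  rcases add_eq_add_iff.1 h with ⟨h1, h2⟩ | ⟨E', h1, _⟩
  · exact ⟨h1.symm, h2⟩
  · exact absurd h1.symm add_ne_pt

/-- position of a big branch: general form -/
theorem pos_of_ut {S M Q : RT} (hS : SBal S) (h : ut S = ut (M.add Q))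
    (hQ : ∀ B ∈ S.kids, B.size ≠ Q.size) (hM : ∀ K ∈ M.kids, 2 * K.size < S.size) :
    ∃ P B, S = P.add B ∧ PosD P B M Q := by
  rcases same_iff.1 h with h1 | ⟨P, B, D, K, h1, h2, hp⟩
  · exact absurd rfl (hQ Q (by rw [h1]; simp))
  · rcases add_eq_add_iff.1 h2 with ⟨rfl, rfl⟩ | ⟨E, rfl, _⟩
    · exact ⟨P, B, h1, hp⟩
    · exfalso
      have h3 := hM K (by simp)
      have h4 := hp.size_le
      have h5 := hS B (by rw [h1]; simp)
      have h6 := congrArg size h1
      rw [size_add] at h6
      omega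

section E4

variable {N₁ B A₂ : RT}

/-- the branch `X` -/
def e4X (N₁ B A₂ : RT) : RT := (pt.add A₂).add (N₁.add B)

/-- the tree with one branch removed, rooted at the near root -/
def e4W (N₁ B A₂ : RT) : RT := (pt.add A₂).add (e4X N₁ B A₂)

/-- centroid code of `W` -/
def e4CW (N₁ B A₂ : RT) : RT := (e4X N₁ B A₂).add (pt.add A₂)

/-- the deficient side -/
def e4Xm (N₁ A₂ : RT) : RT := (pt.add A₂).add N₁

/-- centroid code of the tree without the branch `B` -/
def e4C (N₁ B A₂ : RT) : RT := (e4X N₁ B A₂).add (e4Xm N₁ A₂)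

theorem e4_utM : ut (N₁.add (e4W N₁ B A₂)) = ut (e4C N₁ B A₂) := by
  rw [ut_add_comm, e4W, add_swap, e4C, e4Xm, ut_add_comm]

theorem e4_utW : ut (e4W N₁ B A₂) = ut (e4CW N₁ B A₂) := by
  rw [e4W, e4CW, ut_add_comm]

theorem e4X_size (hs : A₂.size = N₁.size + B.size) :
    (e4X N₁ B A₂).size = 1 + 2 * (N₁.size + B.size) := by
  rw [e4X, size_add, size_add, size_add, size_pt, hs]; omega

theorem e4X_kids {K : RT} (h : K ∈ (e4X N₁ B A₂).kids) : K = N₁.add B ∨ K = A₂ := by
  simpa [e4X] using h

theorem e4CW_size (hs : A₂.size = N₁.size + B.size) :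
    (e4CW N₁ B A₂).size = 2 + 3 * (N₁.size + B.size) := by
  rw [e4CW, size_add, size_add, e4X_size hs, size_pt, hs]; omega

theorem e4CW_kids {K : RT} (h : K ∈ (e4CW N₁ B A₂).kids) :
    K = pt.add A₂ ∨ K = N₁.add B ∨ K = A₂ := by
  rw [e4CW, mem_kids_add] at h
  rcases h with h | h
  · exact Or.inl h
  · exact Or.inr (e4X_kids h)

theorem e4CW_sbal (hs : A₂.size = N₁.size + B.size) : SBal (e4CW N₁ B A₂) := by
  intro K hK
  rw [e4CW_size hs]
  have := N₁.size_pos
  have := B.size_pos
  rcases e4CW_kids hK with rfl | rfl | rfl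
  · rw [size_add, size_pt, hs]; omega
  · rw [size_add]; omega
  · rw [hs]; omega

theorem e4Xm_size (hs : A₂.size = N₁.size + B.size) :
    (e4Xm N₁ A₂).size = 1 + 2 * N₁.size + B.size := by
  rw [e4Xm, size_add, size_add, size_pt, hs]; omega

theorem e4C_size (hs : A₂.size = N₁.size + B.size) :
    (e4C N₁ B A₂).size = 2 + 4 * N₁.size + 3 * B.size := by
  rw [e4C, size_add, e4X_size hs, e4Xm_size hs]; omega

theorem e4C_kids {K : RT} (h : K ∈ (e4C N₁ B A₂).kids) :
    K = e4Xm N₁ A₂ ∨ K = N₁.add B ∨ K = A₂ := by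
  rw [e4C, mem_kids_add] at h
  rcases h with h | h
  · exact Or.inl h
  · exact Or.inr (e4X_kids h)

theorem e4C_sbal (hs : A₂.size = N₁.size + B.size) : SBal (e4C N₁ B A₂) := by
  intro K hK
  rw [e4C_size hs]
  have := N₁.size_pos
  have := B.size_pos
  rcases e4C_kids hK with rfl | rfl | rfl
  · rw [e4Xm_size hs]; omega
  · rw [size_add]; omega
  · rw [hs]; omega

/-- the decompositions of `C` -/
theorem e4C_dec {P B₁ : RT} (h : e4C N₁ B A₂ = P.add B₁) :
    (P = e4X N₁ B A₂ ∧ B₁ = e4Xm N₁ A₂) ∨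
    (P = (pt.add A₂).add (e4Xm N₁ A₂) ∧ B₁ = N₁.add B) ∨
    (P = (pt.add (N₁.add B)).add (e4Xm N₁ A₂) ∧ B₁ = A₂) := by
  rw [e4C] at h
  rcases add_eq_add_iff.1 h with ⟨h1, h2⟩ | ⟨E, h1, h2⟩
  · exact Or.inl ⟨h1.symm, h2.symm⟩
  · rw [e4X] at h1
    rcases add_eq_add_iff.1 h1 with ⟨h3, h4⟩ | ⟨E', h3, h4⟩
    · exact Or.inr (Or.inl ⟨by rw [h2, ← h3], h4.symm⟩)
    · obtain ⟨h5, h6⟩ := pt_add_eq h3
      exact Or.inr (Or.inr ⟨by rw [h2, h4, h5], h6.symm⟩)

theorem e4CW_dec {P B₁ : RT} (hs : A₂.size = N₁.size + B.size)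
    (h : e4CW N₁ B A₂ = P.add B₁) (hB : N₁.size + B.size < B₁.size) :
    P = e4X N₁ B A₂ ∧ B₁ = pt.add A₂ := by
  rw [e4CW] at h
  rcases add_eq_add_iff.1 h with ⟨h1, h2⟩ | ⟨E, h1, _⟩
  · exact ⟨h1.symm, h2.symm⟩
  · exfalso
    have : B₁ ∈ (e4X N₁ B A₂).kids := by rw [h1]; simp
    rcases e4X_kids this with rfl | rfl
    · rw [size_add] at hB; omega
    · omega

theorem e4CW_card : Multiset.card (e4CW N₁ B A₂).kids = 3 := by
  simp [e4CW, e4X]

/-- if `Z` is the tree `W` and all branches of `Z` are small, `Z` is rooted at the centroid -/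
theorem e4_small {Z : RT} (hs : A₂.size = N₁.size + B.size) (hZ : ut Z = ut (e4CW N₁ B A₂))
    (h : ∀ K ∈ Z.kids, K.size < 1 + 2 * (N₁.size + B.size)) : e4CW N₁ B A₂ = Z := by
  rcases same_iff.1 hZ.symm with h1 | ⟨P, B₁, D, K, h1, h2, hp⟩
  · exact h1
  · exfalso
    have h3 := h K (by rw [h2]; simp)
    have h4 := hp.size_le
    have h5 := congrArg size h1
    rw [size_add, e4CW_size hs] at h5
    have hm : B₁ ∈ (e4CW N₁ B A₂).kids := by rw [h1]; simp
    rcases e4CW_kids hm with rfl | rfl | rfl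
    · rw [size_add, size_pt, hs] at h5; omega
    · rw [size_add] at h5; omega
    · omega

/-- if `Z = F.add U` is the tree `W` with `U` as big as `X` then `Z = W` as rooted trees. -/
theorem e4_big {F U : RT} (hs : A₂.size = N₁.size + B.size)
    (hZ : ut (F.add U) = ut (e4CW N₁ B A₂)) (hU : U.size = 1 + 2 * (N₁.size + B.size)) :
    F = pt.add A₂ ∧ U = e4X N₁ B A₂ := by
  have hN := N₁.size_pos
  have hBp := B.size_pos
  have hsz := size_of_ut hZ
  rw [size_add, e4CW_size hs] at hsz
  have hF : ∀ K ∈ F.kids, 2 * K.size < (e4CW N₁ B A₂).size := by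
    intro K hK
    have := size_lt_of_mem' hK
    rw [e4CW_size hs]
    omega
  obtain ⟨P, B₁, h1, hp⟩ := pos_of_ut (e4CW_sbal hs) hZ.symm (by
    intro K hK
    rcases e4CW_kids hK with rfl | rfl | rfl
    · rw [size_add, size_pt, hs]; omega
    · rw [size_add]; omega
    · omega) hF
  have h5 := congrArg size h1
  rw [size_add, e4CW_size hs] at h5
  have h4 := hp.size_le
  obtain ⟨rfl, rfl⟩ := e4CW_dec hs h1 (by omega)
  obtain ⟨h6, h7⟩ := hp.eq_of_size (by rw [e4X_size hs]; omega)
  exact ⟨h6, h7⟩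

/-- sub-case (2b) -/
theorem e4_2b {Aj N' Z : RT} (hs : A₂.size = N₁.size + B.size) (hAj : Aj.size = A₂.size)
    (hN' : N'.size = B.size) (hG : Gr N' ((pt.add Aj).add (e4Xm N₁ A₂)) Z)
    (hZ : ut Z = ut (e4CW N₁ B A₂)) : Aj = A₂ ∧ Z = e4W N₁ B A₂ := by
  have hN := N₁.size_pos
  have hBp := B.size_pos
  have hXm := e4Xm_size (N₁ := N₁) (B := B) (A₂ := A₂) hs
  rcases gr_add_iff.1 hG with ⟨A', hA', rfl⟩ | ⟨B', hB', rfl⟩
  · exfalso
    rcases gr_add_iff.1 hA' with ⟨A'', hA'', rfl⟩ | ⟨B'', hB'', rfl⟩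
    · rw [gr_pt_iff] at hA''
      subst hA''
      have h1 := e4_small hs hZ (by
        intro K hK
        simp only [mem_kids_add, kids_pt, Multiset.notMem_zero, or_false] at hK
        rcases hK with rfl | rfl | rfl <;> omega)
      have h2 : N' ∈ (e4CW N₁ B A₂).kids := by rw [h1]; simp
      rcases e4CW_kids h2 with rfl | rfl | rfl
      · rw [size_add, size_pt] at hN'; omega
      · rw [size_add] at hN'; omega
      · omega
    · have hs'' := hB''.size
      have h1 := e4_small hs hZ (by
        intro K hK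
        simp only [mem_kids_add, kids_pt, Multiset.notMem_zero, or_false] at hK
        rcases hK with rfl | rfl <;> omega)
      have h2 := congrArg (fun A => Multiset.card (kids A)) h1
      simp only [e4CW_card] at h2
      simp at h2
  · have hs' := hB'.size
    obtain ⟨h1, h2⟩ := e4_big hs hZ (by omega)
    rw [add_right_inj] at h1
    exact ⟨h1, by rw [h1, h2, e4W]⟩

/-- sub-case (2a) -/
theorem e4_2a (hK : KHyp) {N' Z : RT} (hs : A₂.size = N₁.size + B.size) (hB : EQ B)
    (hN₁ : ∀ K ∈ N₁.kids, K.size = B.size) (hA₂ : ∀ K ∈ A₂.kids, K.size ≤ B.size)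
    (ha : 3 ≤ A₂.size) (hN' : cards N' = cards B)
    (hcc : cards A₂ = cards (N₁.add B)) (hG : Gr N' ((pt.add N₁).add (e4X N₁ B A₂)) Z)
    (hZ : ut Z = ut (e4CW N₁ B A₂)) : A₂ = N₁.add B ∧ Z = e4W N₁ B A₂ := by
  have hN := N₁.size_pos
  have hBp := B.size_pos
  have hN's := size_of_cards hN'
  rcases gr_add_iff.1 hG with ⟨A', hA', rfl⟩ | ⟨X', hX', rfl⟩
  · obtain ⟨h1, _⟩ := e4_big hs hZ (e4X_size hs)
    subst h1
    refine ⟨?_, rfl⟩
    rcases gr_add_iff.1 hA' with ⟨A'', hA'', h2⟩ | ⟨B'', hB'', h2⟩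
    · exfalso
      rw [gr_pt_iff] at hA''
      subst hA''
      have h3 := congrArg (fun A => Multiset.card (kids A)) h2
      simp at h3
    · rw [add_right_inj] at h2
      subst h2
      rcases hB''.casesAdd with h3 | ⟨A₀, B₀, B₀', h4, h5, _⟩
      · rw [h3, cards_add, cards_add, Multiset.cons_inj_left] at hcc
        rw [h3, hK B N' hB hcc hN']
      · exfalso
        have h6 := card_of_cards hcc
        rw [h5, h4] at h6
        simp at h6
  · exfalso
    rw [ut_add_comm] at hZ
    have key : ∀ U V : RT, U.size = A₂.size → V.size = A₂.size + B.size →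
        ut (((pt.add U).add V).add (pt.add N₁)) = ut (e4CW N₁ B A₂) → False := by
      intro U V hU hV hUV
      have h1 := e4_small hs hUV (by
        intro K hK
        simp only [mem_kids_add, kids_pt, Multiset.notMem_zero, or_false] at hK
        rcases hK with rfl | rfl | rfl
        · rw [size_add, size_pt]; omega
        · omega
        · omega)
      have h2 : V ∈ (e4CW N₁ B A₂).kids := by rw [h1]; simp
      have hb1 : B.size = 1 := by
        rcases e4CW_kids h2 with rfl | rfl | rfl
        · rw [size_add, size_pt] at hV; omega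
        · rw [size_add] at hV; omega
        · omega
      have h3 : pt.add N₁ ∈ (e4CW N₁ B A₂).kids := by rw [h1]; simp
      rcases e4CW_kids h3 with h4 | h4 | h4
      · have := congrArg size h4
        simp only [size_add, size_pt] at this
        omega
      · obtain ⟨h5, h6⟩ := pt_add_eq h4
        rw [h5, size_pt] at hs
        omega
      · have h5 := hA₂ N₁ (by rw [← h4]; simp)
        omega
    rw [e4X] at hX'
    rcases gr_add_iff.1 hX' with ⟨A', hA', rfl⟩ | ⟨B', hB', rfl⟩
    · rcases gr_add_iff.1 hA' with ⟨A'', hA'', rfl⟩ | ⟨B'', hB'', rfl⟩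
      · rw [gr_pt_iff] at hA''
        subst hA''
        have h1 := e4_small hs hZ (by
          intro K hK
          simp only [mem_kids_add, kids_pt, Multiset.notMem_zero, or_false] at hK
          rcases hK with rfl | rfl | rfl | rfl
          · rw [size_add, size_pt]; omega
          · rw [size_add]; omega
          · omega
          · omega)
        have h2 := congrArg (fun A => Multiset.card (kids A)) h1
        simp only [e4CW_card] at h2
        simp at h2
      · have h3 := hB''.size
        refine key (N₁.add B) B'' (by rw [size_add]; omega) (by omega) ?_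
        rw [add_swap pt]
        exact hZ
    · have h3 := hB'.size
      rw [size_add] at h3
      exact key A₂ B' rfl (by omega) hZ

/-- case 1 -/
theorem e4_1 {N' W' : RT} (hs : A₂.size = N₁.size + B.size)
    (hN₁ : ∀ K ∈ N₁.kids, K.size = B.size) (hA₂ : ∀ K ∈ A₂.kids, K.size ≤ B.size)
    (hN' : ∀ K ∈ N'.kids, K.size = B.size) (hsN' : N'.size = N₁.size)
    (hW' : ut W' = ut (e4W N₁ B A₂))
    (hut : ut (N'.add W') = ut (e4C N₁ B A₂)) : N' = N₁ ∧ W' = e4W N₁ B A₂ := by
  have hN := N₁.size_pos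
  have hBp := B.size_pos
  have hXm := e4Xm_size (N₁ := N₁) (B := B) (A₂ := A₂) hs
  have hX := e4X_size (N₁ := N₁) (B := B) (A₂ := A₂) hs
  have hW's : W'.size = 2 + 3 * (N₁.size + B.size) := by
    rw [size_of_ut hW', size_of_ut e4_utW, e4CW_size hs]
  have hW'C : ut (e4CW N₁ B A₂) = ut W' := by rw [hW', e4_utW]
  obtain ⟨P, B₁, h1, hp⟩ := pos_of_ut (e4C_sbal hs) hut.symm (by
    intro K hK
    rcases e4C_kids hK with rfl | rfl | rfl
    · omega
    · rw [size_add]; omega
    · omega) (by
    intro K hK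
    rw [e4C_size hs, hN' K hK]
    omega)
  -- positions inside a branch whose branches are small
  have key : ∀ A P : RT, A.size = N₁.size + B.size → (∀ K ∈ A.kids, K.size ≤ B.size) →
      PosD P A N' W' → N' = pt ∧ N₁ = pt := by
    intro A P hA hAk hpp
    cases hpp with
    | here => omega
    | @deeper _ X₁ C₁ _ _ hpp =>
      have h2 := hAk C₁ (by simp)
      have h3 := hpp.size_le'
      rcases N₁.eq_pt_or with h4 | ⟨E, F, h4⟩
      · refine ⟨eq_pt_of_size ?_, h4⟩
        rw [hsN', h4, size_pt]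
      · exfalso
        have h5 := hN₁ F (by rw [h4]; simp)
        have h6 := congrArg size h4
        rw [size_add] at h6
        have := E.size_pos
        omega
  -- positions at a leaf inside one of the two branches of `X`
  have key2 : ∀ A A' P : RT, A.size = N₁.size + B.size → A'.size = N₁.size + B.size →
      P = (pt.add A').add (e4Xm N₁ A₂) → (∀ K ∈ A.kids, K.size ≤ B.size) →
      PosD P A N' W' → False := by
    intro A A' P hA hA' hP hAk hpp
    obtain ⟨h2, h3⟩ := key A P hA hAk hpp
    have h4 : N₁.size = 1 := by rw [h3, size_pt]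
    rcases hpp.gr with ⟨h5, _⟩ | ⟨W₂, h5, h6⟩
    · rw [← h5, h2, size_pt] at hA
      omega
    · have h7 := h5.size
      rw [h2, size_pt] at h7
      rw [← hW'C, ut_add_comm] at h6
      have hall : ∀ K ∈ (P.add W₂).kids, K.size ≤ 2 + (N₁.size + B.size) := by
        intro K hK
        rw [hP] at hK
        simp only [mem_kids_add, kids_pt, Multiset.notMem_zero, or_false] at hK
        rcases hK with rfl | rfl | rfl <;> omega
      have hPs : (P.add W₂).size = 2 + 3 * (N₁.size + B.size) := by
        rw [← size_of_ut h6, e4CW_size hs]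
      have h8 := (e4CW_sbal hs).eq (B := P.add W₂) (by
        intro K hK
        have := hall K hK
        omega) h6
      have h9 : e4Xm N₁ A₂ ∈ (e4CW N₁ B A₂).kids := by
        rw [h8, hP]; simp
      rcases e4CW_kids h9 with h | h | h
      · have := congrArg size h
        rw [size_add, size_pt] at this
        omega
      · have := congrArg size h
        rw [size_add] at this
        omega
      · have := congrArg size h
        omega
  have hA₁k : ∀ K ∈ (N₁.add B).kids, K.size ≤ B.size := by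
    intro K hK
    rw [mem_kids_add] at hK
    rcases hK with rfl | hK
    · exact le_rfl
    · exact (hN₁ K hK).le
  rcases e4C_dec h1 with ⟨rfl, rfl⟩ | ⟨hP, rfl⟩ | ⟨hP, rfl⟩
  · -- position in the deficient side
    rw [e4Xm] at hp
    generalize hY : (pt.add A₂).add N₁ = Y at hp
    cases hp with
    | here =>
      exfalso
      have := congrArg size hY
      rw [size_add, size_add, size_pt] at this
      omega
    | @deeper _ X₁ C₁ _ _ hpp =>
      rcases add_eq_add_iff.1 hY with ⟨rfl, rfl⟩ | ⟨E, h2, rfl⟩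
      · obtain ⟨h3, h4⟩ := hpp.eq_of_size' (by omega)
        exact ⟨h3, by rw [h4, e4W]⟩
      · exfalso
        obtain ⟨rfl, rfl⟩ := pt_add_eq h2
        obtain ⟨h2, h3⟩ := key _ _ hs hA₂ hpp
        have h4 : N₁.size = 1 := by rw [h3, size_pt]
        rcases hpp.gr with ⟨h5, _⟩ | ⟨W₂, h5, h6⟩
        · rw [← h5, h2, size_pt] at hs
          omega
        · have h7 := h5.size
          rw [h2, size_pt] at h7
          rw [← hW'C, ut_add_comm, add_swap, ut_add_comm] at h6
          have h8 := (e4CW_sbal hs).eq (B := (e4X N₁ B A₂).add ((pt.add N₁).add W₂)) (by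
            intro K hK
            have hsz := size_of_ut h6
            rw [← hsz, e4CW_size hs]
            rw [mem_kids_add] at hK
            rcases hK with rfl | hK
            · rw [size_add, size_add, size_pt]; omega
            · rcases e4X_kids hK with rfl | rfl
              · rw [size_add]; omega
              · omega) h6
          rw [e4CW, add_right_inj] at h8
          have h9 := congrArg (fun A => Multiset.card (kids A)) h8
          simp at h9
  · exact absurd (key2 _ _ _ (by rw [size_add]) hs hP hA₁k hp) id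
  · exact absurd (key2 _ _ _ hs (by rw [size_add]) hP hA₂ hp) id

theorem good_E4_aux (hK : KHyp) (hs : A₂.size = N₁.size + B.size) (hB : EQ B)
    (hN₁ : ∀ K ∈ N₁.kids, K.size = B.size) (hA₂ : ∀ K ∈ A₂.kids, K.size ≤ B.size)
    (ha : 3 ≤ A₂.size) : Good ((e4X N₁ B A₂).add (e4X N₁ B A₂)) := by
  have hN := N₁.size_pos
  have hBp := B.size_pos
  have hXm := e4Xm_size (N₁ := N₁) (B := B) (A₂ := A₂) hs
  have hX := e4X_size (N₁ := N₁) (B := B) (A₂ := A₂) hs
  have hWs : (e4W N₁ B A₂).size = 2 + 3 * (N₁.size + B.size) := by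
    rw [size_of_ut e4_utW, e4CW_size hs]
  have hR : ut ((N₁.add (e4W N₁ B A₂)).add B) = ut ((e4X N₁ B A₂).add (e4X N₁ B A₂)) := by
    rw [add_swap, ut_add_comm, e4W, add_swap, ← e4X]
  refine Good.congr ?_ hR
  refine good_of_adj ?_ ?_ ?_
  · intro K hK
    rw [mem_kids_add] at hK
    rcases hK with rfl | hK
    · omega
    · rw [hN₁ K hK]
  · rw [size_add]; omega
  intro M' Z N' hcard hN' hcards hcase
  have hN's := size_of_cards hN'
  simp only [cards_add] at hcards
  rcases hcase with ⟨rfl, hut⟩ | ⟨Q, hQ, hut⟩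
  · -- case 1
    have hWmem : ut (e4W N₁ B A₂) ∈ cards M' := by
      have h1 : ut (e4W N₁ B A₂) ∈ ut Z ::ₘ cards M' := by rw [hcards]; simp
      rw [Multiset.mem_cons] at h1
      rcases h1 with h1 | h1
      · have := size_of_ut h1
        omega
      · exact h1
    obtain ⟨W', hW', hW'W⟩ := Multiset.mem_map.1 hWmem
    obtain ⟨N₂, rfl⟩ := exists_add_of_mem hW'
    rw [cards_add, hW'W, Multiset.cons_swap (ut Z), Multiset.cons_swap (ut B),
      Multiset.cons_inj_right] at hcards
    have hall : ∀ K ∈ N₂.kids, K.size = B.size := by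
      intro K hK
      have h1 : ut K ∈ ut Z ::ₘ cards N₂ := Multiset.mem_cons_of_mem (Multiset.mem_map_of_mem _ hK)
      rw [hcards, Multiset.mem_cons] at h1
      rcases h1 with h1 | h1
      · exact size_of_ut h1
      · obtain ⟨C, hC, hCK⟩ := Multiset.mem_map.1 h1
        rw [← size_of_ut hCK]
        exact hN₁ C hC
    have hsz := size_of_ut hut
    rw [size_add, size_add, size_of_ut hW'W] at hsz
    obtain ⟨h1, h2⟩ := e4_1 hs hN₁ hA₂ hall (by omega) hW'W (by rw [hut, e4_utM])
    subst h1 h2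
    rw [Multiset.cons_inj_left] at hcards
    rw [hK B Z hB hcards hN']
  · -- case 2
    have hsz := hQ.size
    have hQpos := Q.size_pos
    have hZW : ut Z = ut (e4W N₁ B A₂) := by
      have h1 : ut Z ∈ ut B ::ₘ ut (e4W N₁ B A₂) ::ₘ cards N₁ := by rw [← hcards]; simp
      simp only [Multiset.mem_cons] at h1
      rcases h1 with h1 | h1 | h1
      · have := size_of_ut h1
        omega
      · exact h1
      · obtain ⟨C, hC, hCZ⟩ := Multiset.mem_map.1 h1
        have h2 := hN₁ C hC
        have := size_of_ut hCZ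
        omega
    rw [hZW, Multiset.cons_swap (ut B), Multiset.cons_inj_right] at hcards
    have hM'c : cards M' = cards (N₁.add B) := by rw [hcards, cards_add]
    have hM's := size_of_cards hM'c
    rw [size_add] at hM's
    have hM'k : ∀ K ∈ M'.kids, K.size = B.size := by
      intro K hK
      obtain ⟨C, hC, hCK⟩ := exists_size_of_cards hM'c hK
      rw [mem_kids_add] at hC
      rw [← hCK]
      rcases hC with rfl | hC
      · rfl
      · exact hN₁ C hC
    have hutsz := size_of_ut hut
    rw [size_add, size_add] at hutsz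
    have hZC : ut Z = ut (e4CW N₁ B A₂) := by rw [hZW, e4_utW]
    obtain ⟨P, B₁, h1, hp⟩ := pos_of_ut (M := M') (Q := Q) (e4C_sbal hs) (by rw [hut, e4_utM]) (by
      intro K hK
      rcases e4C_kids hK with rfl | rfl | rfl
      · omega
      · rw [size_add]; omega
      · omega) (by
      intro K hK
      rw [e4C_size hs, hM'k K hK]
      omega)
    have hfin : M' = N₁.add B ∧ Z = e4W N₁ B A₂ := by
      rcases e4C_dec h1 with ⟨rfl, rfl⟩ | ⟨hP, rfl⟩ | ⟨hP, rfl⟩
      · rw [e4Xm] at hp
        generalize hY : (pt.add A₂).add N₁ = Y at hp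
        cases hp with
        | here =>
          exfalso
          have := congrArg size hY
          rw [size_add, size_add, size_pt] at this
          omega
        | @deeper _ X₁ C₁ _ _ hpp =>
          rcases add_eq_add_iff.1 hY with ⟨rfl, rfl⟩ | ⟨E, h2, rfl⟩
          · exfalso
            have := hpp.size_le'
            omega
          · obtain ⟨rfl, rfl⟩ := pt_add_eq h2
            obtain ⟨h3, h4⟩ := hpp.eq_of_size' (by omega)
            subst h3 h4
            obtain ⟨h5, h6⟩ := e4_2a hK hs hB hN₁ hA₂ ha hN' hM'c hQ hZC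
            exact ⟨h5, h6⟩
      · obtain ⟨h3, h4⟩ := hp.eq_of_size' (by rw [size_add]; omega)
        subst h3 h4
        rw [hP] at hQ
        obtain ⟨_, h6⟩ := e4_2b hs rfl hN's hQ hZC
        exact ⟨rfl, h6⟩
      · obtain ⟨h3, h4⟩ := hp.eq_of_size' (by omega)
        subst h3 h4
        rw [hP] at hQ
        obtain ⟨h5, h6⟩ := e4_2b hs (by rw [size_add]; omega) hN's hQ hZC
        exact ⟨h5.symm, h6⟩
    obtain ⟨h1, h2⟩ := hfin
    rw [h1, h2, add_swap]

end E4

/-- E4: two copies of an `EQ` tree with exactly two branches. -/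
theorem good_E4 (hK : KHyp) {A₁ A₂ : RT} (h1 : EQ A₁) (h2 : EQ A₂) (hs : A₁.size = A₂.size)
    (ha : 3 ≤ A₁.size) : Good (((pt.add A₁).add A₂).add ((pt.add A₁).add A₂)) := by
  -- choose the branch with the larger sub-branches
  have main : ∀ {A₁ A₂ : RT}, EQ A₁ → EQ A₂ → A₁.size = A₂.size → 3 ≤ A₁.size →
      (∀ B ∈ A₁.kids, ∀ C ∈ A₂.kids, C.size ≤ B.size) →
      Good (((pt.add A₂).add A₁).add ((pt.add A₂).add A₁)) := by
    intro A₁ A₂ h1 h2 hs ha hle
    rcases A₁.eq_pt_or with rfl | ⟨N₁, B, rfl⟩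
    · rw [size_pt] at ha
      omega
    · rw [size_add] at hs ha
      exact good_E4_aux hK hs.symm (h1.kid B (by simp))
        (fun K hK => h1.same_size K (by simp [hK]) B (by simp))
        (fun K hK => hle B (by simp) K hK) (by omega)
  by_cases hle : ∀ B ∈ A₁.kids, ∀ C ∈ A₂.kids, C.size ≤ B.size
  · have := main h1 h2 hs ha hle
    rwa [add_swap pt A₂ A₁] at this
  · push Not at hle
    obtain ⟨B, hB, C, hC, hlt⟩ := hle
    refine main h2 h1 hs.symm (by omega) ?_
    intro B' hB' C' hC'
    have e1 := h2.same_size B' hB' C hC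
    have e2 := h1.same_size C' hC' B hB
    omega

/-- Summary of E3 and E4: two copies of an `EQ` tree `X`. -/
theorem good_XX (hK : KHyp) (hK2 : K2Hyp) {X : RT} (hX : EQ X) (hs : 7 ≤ X.size) :
    Good (X.add X) := by
  rcases X.eq_pt_or with rfl | ⟨Y, A, rfl⟩
  · rw [size_pt] at hs; omega
  · have hA : EQ A := hX.kid A (by simp)
    have hYk : ∀ K ∈ Y.kids, K.size = A.size := fun K hK =>
      hX.same_size K (by simp [hK]) A (by simp)
    rcases Y.eq_pt_or with rfl | ⟨Y', A', rfl⟩
    · rw [size_add, size_pt] at hs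
      exact good_E3a hK hK2 hA (by omega)
    · rcases Y'.eq_pt_or with rfl | ⟨Y'', A'', rfl⟩
      · have hA' : EQ A' := hX.kid A' (by simp)
        have h1 := hYk A' (by simp)
        simp only [size_add, size_pt] at hs
        exact good_E4 hK hA' hA h1 (by omega)
      · exact good_E3b hK hYk (by simp) hA

end Pool.Agent.H48.Drn
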