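import Pool.Agent.H48.Drn.Good

set_option autoImplicit false

/-!
The family of rooted trees that are not determined by two leaf deletions.
-/

namespace Pool.Agent.H48.Drn

open RT

/-- path with `k+1` vertices, rooted at an end -/
def pa : ℕ → RT
  | 0 => pt
  | k + 1 => node {pa k}

/-- path with `k+1` vertices ending in a fork (two leaves), rooted at the far end;
`k+3` vertices in total -/
def br : ℕ → RT
  | 0 => node {pt, pt}
  | k + 1 => node {br k}

@[simp] theorem size_pa (k : ℕ) : size (pa k) = k + 1 := by
  induction k with
  | zero => rfl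
  | succ k ih => rw [pa, size_node]; simp [ih]; omega

@[simp] theorem size_br (k : ℕ) : size (br k) = k + 3 := by
  induction k with
  | zero => rw [br, size_node]; simp
  | succ k ih => rw [br, size_node]; simp [ih]; omega

theorem pa_inj {k l : ℕ} : pa k = pa l ↔ k = l := by
  constructor
  · intro h
    have := congrArg size h
    simpa using this
  · rintro rfl
    rfl

theorem br_inj {k l : ℕ} : br k = br l ↔ k = l := by
  constructor
  · intro h
    have := congrArg size h
    simpa using this
  · rintro rfl
    rfl

theorem del_single {A D : RT} : Del (node {A}) D ↔ (A = pt ∧ D = pt) ∨ ∃ A', Del A A' ∧ D = node {A'} := by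
  obtain ⟨M', rfl⟩ := exists_eq_node D
  rw [del_iff]
  constructor
  · rintro ⟨B, X, N, hM, rfl, hB⟩
    have hM' : (A ::ₘ (0 : Multiset RT)) = B ::ₘ N := hM
    rw [Multiset.cons_eq_cons] at hM'
    rcases hM' with ⟨rfl, rfl⟩ | ⟨_, _, h, _⟩
    · rcases hB with ⟨rfl, rfl⟩ | ⟨B', hB', rfl⟩
      · left; simp
      · right; exact ⟨B', hB', by simp⟩
    · exact absurd h.symm (Multiset.cons_ne_zero)
  · rintro (⟨rfl, h⟩ | ⟨A', hA', h⟩)
    · rw [node_eq_pt] at h
      subst h
      exact ⟨pt, 0, 0, rfl, by simp, Or.inl ⟨rfl, rfl⟩⟩
    · rw [node_inj] at h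
      subst h
      exact ⟨A, {A'}, 0, rfl, by simp, Or.inr ⟨A', hA', rfl⟩⟩

theorem size_eq_two {R : RT} : size R = 2 ↔ R = pa 1 := by
  constructor
  · intro h
    obtain ⟨M, rfl⟩ := exists_eq_node R
    rw [size_node] at h
    have hM : M ≠ 0 := by rintro rfl; simp at h
    obtain ⟨A, hA⟩ := Multiset.exists_mem_of_ne_zero hM
    obtain ⟨N, rfl⟩ := Multiset.exists_cons_of_mem hA
    rw [Multiset.map_cons, Multiset.sum_cons] at h
    have hA1 := size_pos A
    have hA2 : size A = 1 := by omega
    rw [size_eq_one] at hA2
    subst hA2
    have hN : N = 0 := by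
      by_contra hN
      obtain ⟨B, hB⟩ := Multiset.exists_mem_of_ne_zero hN
      obtain ⟨N', rfl⟩ := Multiset.exists_cons_of_mem hB
      rw [Multiset.map_cons, Multiset.sum_cons] at h
      have := size_pos B
      omega
    subst hN
    rfl
  · rintro rfl
    simp

theorem del_pa {k : ℕ} {D : RT} : Del (pa (k + 1)) D ↔ D = pa k := by
  induction k generalizing D with
  | zero =>
    change Del (node {pt}) D ↔ D = pt
    rw [del_single]
    constructor
    · rintro (⟨_, h⟩ | ⟨A', hA', _⟩)
      · exact h
      · exact absurd hA' not_del_pt
    · intro h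
      exact Or.inl ⟨rfl, h⟩
  | succ k ih =>
    rw [pa, del_single]
    constructor
    · rintro (⟨h, _⟩ | ⟨A', hA', h⟩)
      · have := congrArg size h
        simp at this
      · rw [ih] at hA'
        rw [h, hA']
        rfl
    · rintro rfl
      exact Or.inr ⟨pa k, ih.2 rfl, rfl⟩

theorem del_br {k : ℕ} {D : RT} : Del (br k) D ↔ D = pa (k + 1) := by
  induction k generalizing D with
  | zero =>
    obtain ⟨M', rfl⟩ := exists_eq_node D
    rw [br, del_iff]
    constructor
    · rintro ⟨B, X, N, hM, rfl, hB⟩
      have hBm : B ∈ ({pt, pt} : Multiset RT) := by rw [hM]; simp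
      have hBp : B = pt := by simpa using hBm
      subst hBp
      have hM' : (pt ::ₘ {pt} : Multiset RT) = pt ::ₘ N := hM
      rw [Multiset.cons_inj_right] at hM'
      subst hM'
      rcases hB with ⟨_, rfl⟩ | ⟨B', hB', rfl⟩
      · simp [pa]
      · exact absurd hB' not_del_pt
    · intro h
      rw [pa, node_inj] at h
      subst h
      exact ⟨pt, 0, {pt}, rfl, by simp [pa], Or.inl ⟨rfl, rfl⟩⟩
  | succ k ih =>
    rw [br, del_single]
    constructor
    · rintro (⟨h, _⟩ | ⟨A', hA', h⟩)
      · have := congrArg size h
        simp at this
      · rw [ih] at hA'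
        rw [h, hA']
        rfl
    · rintro rfl
      exact Or.inr ⟨pa (k + 1), ih.2 rfl, rfl⟩

/-- If all deletions of `node M` agree, all its branches agree. -/
theorem branches_eq {M : Multiset RT} {D : RT} (h : ∀ D', Del (node M) D' → D' = D) {U V : RT}
    (hU : U ∈ M) (hV : V ∈ M) : U = V := by
  by_contra hne
  obtain ⟨L, hL⟩ := Multiset.exists_cons_of_mem hU
  obtain ⟨L', hL'⟩ := Multiset.exists_cons_of_mem hV
  obtain ⟨XU, hXU⟩ := exists_delM U
  obtain ⟨XV, hXV⟩ := exists_delM V
  have h1 : node (XU + L) = D := h _ (del_iff.2 ⟨U, XU, L, hL, rfl, hXU⟩)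
  have h2 : node (XV + L') = D := h _ (del_iff.2 ⟨V, XV, L', hL', rfl, hXV⟩)
  have h3 : XU + L = XV + L' := node_injective (h1.trans h2.symm)
  have e1 := congrArg (Multiset.count V) h3
  have e2 := congrArg (Multiset.count V) hL
  have e3 := congrArg (Multiset.count V) hL'
  rw [Multiset.count_add, Multiset.count_add] at e1
  rw [Multiset.count_cons_of_ne (Ne.symm hne)] at e2
  rw [Multiset.count_cons_self] at e3
  have e4 : XV.count V = 0 := count_delM hXV (by omega)
  omega

/-- Two different trees of the same size all of whose leaf deletions coincide. -/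
theorem twin : ∀ B C : RT, B ≠ C → size B = size C →
    (∀ B' C', Del B B' → Del C C' → B' = C') →
    ∃ k, (B = pa (k + 2) ∧ C = br k) ∨ (B = br k ∧ C = pa (k + 2)) := by
  intro B
  induction B using RT.ind with
  | h M ih =>
    intro C hne hs hall
    obtain ⟨M', rfl⟩ := exists_eq_node C
    have hB1 : node M ≠ pt := by
      intro h
      rw [h, size_pt] at hs
      exact hne (h.trans (size_eq_one.1 hs.symm).symm)
    have hC1 : node M' ≠ pt := by
      intro h
      rw [h, size_pt] at hs
      exact hne ((size_eq_one.1 hs).trans h.symm)
    obtain ⟨D, hD⟩ := exists_del hB1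
    obtain ⟨D', hD'⟩ := exists_del hC1
    have hDD : D = D' := hall D D' hD hD'
    subst hDD
    have hallB : ∀ D₁, Del (node M) D₁ → D₁ = D := fun D₁ h => hall D₁ D h hD'
    have hallC : ∀ D₁, Del (node M') D₁ → D₁ = D := fun D₁ h => (hall D D₁ hD h).symm
    have hM0 : M ≠ 0 := fun h => hB1 (by rw [h, node_zero])
    have hM0' : M' ≠ 0 := fun h => hC1 (by rw [h, node_zero])
    obtain ⟨U, hU⟩ := Multiset.exists_mem_of_ne_zero hM0
    obtain ⟨U', hU'⟩ := Multiset.exists_mem_of_ne_zero hM0'
    obtain ⟨L, rfl⟩ := Multiset.exists_cons_of_mem hU
    obtain ⟨L', rfl⟩ := Multiset.exists_cons_of_mem hU'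
    have hL : ∀ A ∈ L, A = U := fun A hA => branches_eq hallB (by simp [hA]) (by simp)
    have hL' : ∀ A ∈ L', A = U' := fun A hA => branches_eq hallC (by simp [hA]) (by simp)
    have key : ∀ X X', DelM U X → DelM U' X' → X + L = X' + L' := by
      intro X X' hX hX'
      have h1 := hallB _ (del_iff.2 ⟨U, X, L, rfl, rfl, hX⟩)
      have h2 := hallC _ (del_iff.2 ⟨U', X', L', rfl, rfl, hX'⟩)
      exact node_injective (h1.trans h2.symm)
    by_cases hp : U = pt
    · by_cases hp' : U' = pt
      · -- both points
        subst hp hp'
        have := key 0 0 (Or.inl ⟨rfl, rfl⟩) (Or.inl ⟨rfl, rfl⟩)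
        rw [zero_add, zero_add] at this
        rw [this] at hne
        exact absurd rfl hne
      · subst hp
        obtain ⟨V', hV'⟩ := exists_del hp'
        have h1 := key 0 {V'} (Or.inl ⟨rfl, rfl⟩) (Or.inr ⟨V', hV', rfl⟩)
        rw [zero_add, Multiset.singleton_add] at h1
        have hL0 : L' = 0 := by
          by_contra hcon
          obtain ⟨A, hA⟩ := Multiset.exists_mem_of_ne_zero hcon
          have h2 := hL' A hA
          have h3 : A = pt := hL A (by rw [h1]; exact Multiset.mem_cons_of_mem hA)
          exact hp' (h2.symm.trans h3)
        subst hL0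
        have hV1 : V' = pt := hL V' (by rw [h1]; simp)
        subst hV1
        have hU2 : U' = pa 1 := by
          rw [← size_eq_two]
          have := hV'.size_eq
          simpa using this
        refine ⟨0, Or.inr ⟨?_, ?_⟩⟩
        · rw [h1]; rfl
        · rw [hU2]; rfl
    · by_cases hp' : U' = pt
      · subst hp'
        obtain ⟨V, hV⟩ := exists_del hp
        have h1 := key {V} 0 (Or.inr ⟨V, hV, rfl⟩) (Or.inl ⟨rfl, rfl⟩)
        rw [zero_add, Multiset.singleton_add] at h1
        have hL0 : L = 0 := by
          by_contra hcon
          obtain ⟨A, hA⟩ := Multiset.exists_mem_of_ne_zero hcon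
          have h2 := hL A hA
          have h3 : A = pt := hL' A (by rw [← h1]; exact Multiset.mem_cons_of_mem hA)
          exact hp (h2.symm.trans h3)
        subst hL0
        have hV1 : V = pt := hL' V (by rw [← h1]; simp)
        subst hV1
        have hU2 : U = pa 1 := by
          rw [← size_eq_two]
          have := hV.size_eq
          simpa using this
        refine ⟨0, Or.inl ⟨?_, ?_⟩⟩
        · rw [hU2]; rfl
        · rw [← h1]; rfl
      · -- both nontrivial
        obtain ⟨V, hV⟩ := exists_del hp
        obtain ⟨V', hV'⟩ := exists_del hp'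
        have h1 := key {V} {V'} (Or.inr ⟨V, hV, rfl⟩) (Or.inr ⟨V', hV', rfl⟩)
        have hcard : L.card = L'.card := by
          have := congrArg Multiset.card h1
          simp at this
          exact this
        have hLr : L = Multiset.replicate L.card U := Multiset.eq_replicate_card.2 hL
        have hLr' : L' = Multiset.replicate L'.card U' := Multiset.eq_replicate_card.2 hL'
        have hUU : U ≠ U' := by
          rintro rfl
          apply hne
          rw [hLr, hLr', hcard]
        have hsV := hV.size_eq
        have hsV' := hV'.size_eq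
        have hL0 : L = 0 := by
          by_contra hcon
          obtain ⟨A, hA⟩ := Multiset.exists_mem_of_ne_zero hcon
          have hUL : U ∈ L := hL A hA ▸ hA
          have hcon' : L' ≠ 0 := by
            intro h0
            rw [h0, Multiset.card_zero, Multiset.card_eq_zero] at hcard
            exact hcon hcard
          obtain ⟨A', hA'⟩ := Multiset.exists_mem_of_ne_zero hcon'
          have hUL' : U' ∈ L' := hL' A' hA' ▸ hA'
          have h2 : U ∈ {V'} + L' := by rw [← h1]; simp [hUL]
          have h3 : U' ∈ {V} + L := by rw [h1]; simp [hUL']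
          rw [Multiset.mem_add, Multiset.mem_singleton] at h2 h3
          rcases h2 with h2 | h2
          · rcases h3 with h3 | h3
            · have h4 := congrArg size h2
              have h5 := congrArg size h3
              omega
            · exact hUU (hL _ h3).symm
          · exact hUU (hL' _ h2)
        subst hL0
        have hL0' : L' = 0 := by
          rw [← Multiset.card_eq_zero, ← hcard, Multiset.card_zero]
        subst hL0'
        have hsU : size U = size U' := by
          simp only [size_node, Multiset.map_cons, Multiset.sum_cons, Multiset.map_zero,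
            Multiset.sum_zero] at hs
          omega
        obtain ⟨k, hk⟩ := ih U (by simp) U' hUU hsU (by
          intro B' C' hB' hC'
          have := key {B'} {C'} (Or.inr ⟨B', hB', rfl⟩) (Or.inr ⟨C', hC', rfl⟩)
          simpa using this)
        rcases hk with ⟨rfl, rfl⟩ | ⟨rfl, rfl⟩
        · exact ⟨k + 1, Or.inl ⟨rfl, rfl⟩⟩
        · exact ⟨k + 1, Or.inr ⟨rfl, rfl⟩⟩

/-- The exceptional family. -/
inductive Fam : RT → Prop
  | pt : Fam RT.pt
  | rep (A : RT) (k : ℕ) : Fam A → Fam (node (Multiset.replicate (k + 1) A))
  | mix (s a b : ℕ) : Fam (node (Multiset.replicate (a + 1) (pa (s + 2)) +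
      Multiset.replicate (b + 1) (br s)))

theorem good_rep {B : RT} (hB : RGood B) (k : ℕ) : RGood (node (B ::ₘ Multiset.replicate k B)) := by
  obtain ⟨B₁, B₂, hne, hB1, hB2, hgood⟩ := hB
  have hM1 : DelM B {B₁} := Or.inr ⟨B₁, hB1, rfl⟩
  have hM2 : DelM B {B₂} := Or.inr ⟨B₂, hB2, rfl⟩
  have hs1 := hB1.size_eq
  have hs2 := hB2.size_eq
  refine ⟨node ({B₁} + Multiset.replicate k B), node ({B₂} + Multiset.replicate k B), ?_, ?_, ?_, ?_⟩
  · rw [Ne, node_inj, add_left_inj, Multiset.singleton_inj]
    exact hne
  · exact del_iff.2 ⟨B, {B₁}, _, rfl, rfl, hM1⟩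
  · exact del_iff.2 ⟨B, {B₂}, _, rfl, rfl, hM2⟩
  · intro Q hQ1 hQ2
    obtain ⟨K, rfl⟩ := exists_eq_node Q
    obtain ⟨E, XE, _, hE, h1⟩ := common_del' hM1 hQ1
    obtain ⟨F, XF, _, hF, h2⟩ := common_del' hM2 hQ2
    rw [node_inj]
    have hEF := sizes_of_eq hM1 hM2 hE hF h1 h2 rfl
    have key : ∀ A, XE.count A + dl A F + dl A B₂ = XF.count A + dl A E + dl A B₁ := by
      intro A
      have e1 := congrArg (Multiset.count A) h1
      have e2 := congrArg (Multiset.count A) h2
      simp only [Multiset.count_add, count_sg] at e1 e2
      omega
    by_cases he : size E = size B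
    · have k1 := key B₁
      rw [dl_ns (B := F) (by omega), dl_ne hne, dl_ns (B := E) (by omega), dl_self] at k1
      have hXE : B₁ ∈ XE := by
        rw [← Multiset.count_pos]
        omega
      have k2 := key B₂
      rw [dl_ns (B := F) (by omega), dl_ne (Ne.symm hne), dl_ns (B := E) (by omega), dl_self] at k2
      have hXF : B₂ ∈ XF := by
        rw [← Multiset.count_pos]
        omega
      obtain ⟨_, rfl, hE1⟩ := hE.mem_size hXE
      obtain ⟨_, rfl, hF2⟩ := hF.mem_size hXF
      have hEF' : E = F := by
        have k3 := key E
        rw [count_sg, count_sg, dl_self] at k3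
        apply eq_of_dl
        omega
      subst hEF'
      have hEB := hgood E hE1 hF2
      subst hEB
      exact add_right_cancel (add_right_cancel h1)
    · exfalso
      by_cases he1 : size E + 1 = size B
      · have k1 := key B₁
        rw [count_delM hE (by omega), count_delM hF (by omega), dl_ne hne, dl_self] at k1
        have k2 := key B₂
        rw [count_delM hE (by omega), count_delM hF (by omega), dl_ne (Ne.symm hne), dl_self] at k2
        have h3 : B₂ = E := eq_of_dl (by omega)
        subst h3
        rcases hE with ⟨h4, rfl⟩ | ⟨B', hB', rfl⟩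
        · subst h4
          rw [size_pt] at he1
          have : size B₁ = 1 := by omega
          exact hne (size_eq_one.1 this)
        · have h5 := hB'.size_eq
          have e := congrArg (Multiset.count B') h1
          simp only [Multiset.count_add, count_sg] at e
          rw [dl_self, dl_ns (B := B) (by omega), dl_ns (B := B₂) (by omega),
            dl_ns (B := B₁) (by omega)] at e
          have h6 : (B ::ₘ Multiset.replicate k B).count B' = 0 := by
            rw [Multiset.count_eq_zero]
            intro hmem
            rw [Multiset.mem_cons] at hmem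
            rcases hmem with h | h
            · rw [h] at h5; omega
            · rw [Multiset.eq_of_mem_replicate h] at h5; omega
          omega
      · have k1 := key B₁
        rw [count_delM hE (by omega), dl_ns (B := F) (by omega), dl_ne hne, dl_self] at k1
        omega

theorem good_or_fam : ∀ R : RT, RGood R ∨ Fam R := by
  intro R
  induction R using RT.ind with
  | h M ih =>
    by_cases h : ∀ B ∈ M, ∀ C ∈ M, size B = size C
    · by_cases h2 : ∃ B ∈ M, ∃ C ∈ M, B ≠ C ∧ ∃ B' C', Del B B' ∧ Del C C' ∧ B' ≠ C'
      · left
        obtain ⟨B, hB, C, hC, hne, B', C', hB', hC', hne'⟩ := h2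
        obtain ⟨L, rfl⟩ := Multiset.exists_cons_of_mem hB
        rw [Multiset.mem_cons] at hC
        rcases hC with rfl | hC
        · exact absurd rfl hne
        · obtain ⟨L', rfl⟩ := Multiset.exists_cons_of_mem hC
          exact good_of_same (h B (by simp) C (by simp)) hne hB' hC' hne'
      · push Not at h2
        by_cases h3 : ∃ B ∈ M, ∃ C ∈ M, B ≠ C
        · right
          obtain ⟨B, hB, C, hC, hne⟩ := h3
          obtain ⟨k, hk⟩ := twin B C hne (h B hB C hC)
            (fun B' C' hB' hC' => h2 B hB C hC hne B' C' hB' hC')
          obtain ⟨hPM, hQM⟩ : pa (k + 2) ∈ M ∧ br k ∈ M := by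
            rcases hk with ⟨rfl, rfl⟩ | ⟨rfl, rfl⟩
            · exact ⟨hB, hC⟩
            · exact ⟨hC, hB⟩
          have hne2 : pa (k + 2) ≠ br k := by
            rcases hk with ⟨rfl, rfl⟩ | ⟨rfl, rfl⟩
            · exact hne
            · exact hne.symm
          have hall : ∀ A ∈ M, A = pa (k + 2) ∨ A = br k := by
            intro A hA
            by_cases hA1 : A = pa (k + 2)
            · exact Or.inl hA1
            · right
              obtain ⟨j, hj⟩ := twin (pa (k + 2)) A (Ne.symm hA1) (h _ hPM A hA)
                (fun B' C' hB' hC' => h2 _ hPM A hA (Ne.symm hA1) B' C' hB' hC')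
              rcases hj with ⟨hj1, hj2⟩ | ⟨hj1, hj2⟩
              · rw [pa_inj] at hj1
                have : k = j := by omega
                rw [hj2, this]
              · -- `pa (k+2) = br j` is impossible
                exfalso
                have hd : ∀ (k j : ℕ), pa (k + 2) ≠ br j := by
                  intro k
                  induction k with
                  | zero =>
                    intro j hj
                    have hsz := congrArg size hj
                    simp only [size_pa, size_br] at hsz
                    have hj0 : j = 0 := by omega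
                    subst hj0
                    rw [pa, br, node_inj] at hj
                    have := congrArg Multiset.card hj
                    simp at this
                  | succ k ihk =>
                    intro j hj
                    cases j with
                    | zero =>
                      have hsz := congrArg size hj
                      simp at hsz
                    | succ j =>
                      rw [pa, br, node_inj, Multiset.singleton_inj] at hj
                      exact ihk j hj
                exact hd k j hj1
          have hM : M = Multiset.replicate (M.count (pa (k + 2))) (pa (k + 2)) +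
              Multiset.replicate (M.count (br k)) (br k) := by
            ext A
            rw [Multiset.count_add, Multiset.count_replicate, Multiset.count_replicate]
            by_cases hA : A ∈ M
            · rcases hall A hA with rfl | rfl
              · rw [if_pos rfl, if_neg (Ne.symm hne2), add_zero]
              · rw [if_pos rfl, if_neg hne2, zero_add]
            · have h4 : pa (k + 2) ≠ A := by rintro rfl; exact hA hPM
              have h5 : br k ≠ A := by rintro rfl; exact hA hQM
              rw [if_neg h4, if_neg h5, Multiset.count_eq_zero.2 hA]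
          have c1 : 0 < M.count (pa (k + 2)) := Multiset.count_pos.2 hPM
          have c2 : 0 < M.count (br k) := Multiset.count_pos.2 hQM
          obtain ⟨a, ha⟩ : ∃ a, M.count (pa (k + 2)) = a + 1 := ⟨_, (Nat.succ_pred_eq_of_pos c1).symm⟩
          obtain ⟨b, hb⟩ : ∃ b, M.count (br k) = b + 1 := ⟨_, (Nat.succ_pred_eq_of_pos c2).symm⟩
          rw [hM, ha, hb]
          exact Fam.mix k a b
        · push Not at h3
          by_cases hM : M = 0
          · right
            rw [hM, node_zero]
            exact Fam.pt
          · obtain ⟨B, hB⟩ := Multiset.exists_mem_of_ne_zero hM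
            obtain ⟨L, rfl⟩ := Multiset.exists_cons_of_mem hB
            have hL : L = Multiset.replicate L.card B :=
              Multiset.eq_replicate_card.2 (fun A hA => h3 A (by simp [hA]) B (by simp))
            rw [hL]
            rcases ih B (by simp) with hg | hf
            · exact Or.inl (good_rep hg _)
            · right
              have := Fam.rep B L.card hf
              rwa [Multiset.replicate_succ] at this
    · left
      push Not at h
      obtain ⟨B, hB, C, hC, hne⟩ := h
      have main : ∀ {B C : RT}, B ∈ M → C ∈ M → size C < size B → RGood (node M) := by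
        intro B C hB hC hlt
        obtain ⟨L, rfl⟩ := Multiset.exists_cons_of_mem hB
        rw [Multiset.mem_cons] at hC
        rcases hC with rfl | hC
        · omega
        · obtain ⟨L', rfl⟩ := Multiset.exists_cons_of_mem hC
          obtain ⟨B', XC, hB', hXC, hg, hne'⟩ := good_of_size (L := L') hlt
          refine ⟨_, _, hne', ?_, ?_, hg⟩
          · rw [del_node_iff]
            exact Or.inr ⟨B, B', C ::ₘ L', rfl, rfl, hB'⟩
          · exact del_iff.2 ⟨C, XC, B ::ₘ L', Multiset.cons_swap _ _ _, rfl, hXC⟩
      rcases Nat.lt_or_gt_of_ne hne with hlt | hlt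
      · exact main hC hB hlt
      · exact main hB hC hlt

end Pool.Agent.H48.Drn
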