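import Pool.Agent.H48.Drn.Graph2

set_option autoImplicit false

/-!
Unrooted types `UT` (codes modulo re-rooting), forests, degree of the root, splitting a coded set
at its root.
-/

namespace Pool.Agent.H48.Drn

open RT

/-- `R` and `R'` are codes of the same unrooted tree. -/
def Same (R R' : RT) : Prop := Relation.ReflTransGen RR R R'

theorem Same.refl (R : RT) : Same R R := Relation.ReflTransGen.refl

theorem Same.trans {R R' R'' : RT} (h : Same R R') (h' : Same R' R'') : Same R R'' :=
  Relation.ReflTransGen.trans h h'

theorem Same.symm {R R' : RT} (h : Same R R') : Same R' R := by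
  induction h with
  | refl => exact Same.refl _
  | tail _ h2 ih => exact Relation.ReflTransGen.head h2.symm ih

theorem RR.same {R R' : RT} (h : RR R R') : Same R R' := Relation.ReflTransGen.single h

theorem same_step (M N : Multiset RT) : Same (node (node N ::ₘ M)) (node (node M ::ₘ N)) :=
  (RR.step M N).same

theorem RR.size_eq {R R' : RT} (h : RR R R') : size R = size R' := by
  cases h with
  | step M N =>
    simp only [size_node, Multiset.map_cons, Multiset.sum_cons]
    omega

theorem Same.size_eq {R R' : RT} (h : Same R R') : size R = size R' := by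
  induction h with
  | refl => rfl
  | tail _ h2 ih => exact ih.trans h2.size_eq

instance sameSetoid : Setoid RT := ⟨Same, Same.refl, Same.symm, Same.trans⟩

/-- Unrooted tree types. -/
def UT : Type := Quotient sameSetoid

noncomputable instance : DecidableEq UT := Classical.decEq _

/-- the unrooted type of a rooted tree -/
def ut (R : RT) : UT := Quotient.mk sameSetoid R

theorem ut_eq {R R' : RT} : ut R = ut R' ↔ Same R R' := Quotient.eq (r := sameSetoid)

/-- size of an unrooted tree -/
def usize : UT → ℕ := Quotient.lift size (fun _ _ h => Same.size_eq h)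

@[simp] theorem usize_ut (R : RT) : usize (ut R) = size R := rfl

variable {V : Type*} [DecidableEq V] {V' : Type*} [DecidableEq V']

/-- no edges of `G` between `S` and `S'` -/
def NoEdge (G : SimpleGraph V) (S S' : Finset V) : Prop := ∀ a ∈ S, ∀ b ∈ S', ¬ G.Adj a b

omit [DecidableEq V] in
theorem NoEdge.symm {G : SimpleGraph V} {S S' : Finset V} (h : NoEdge G S S') : NoEdge G S' S :=
  fun a ha b hb hab => h b hb a ha hab.symm

omit [DecidableEq V] in
theorem NoEdge.mono {G : SimpleGraph V} {S S' T T' : Finset V} (h : NoEdge G S S') (h1 : T ⊆ S)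
    (h2 : T' ⊆ S') : NoEdge G T T' :=
  fun a ha b hb => h a (h1 ha) b (h2 hb)

/-- `G` restricted to `S` is a forest whose components have the given unrooted types. -/
inductive Ft (G : SimpleGraph V) : Finset V → Multiset UT → Prop
  | empty : Ft G ∅ 0
  | add (S S' : Finset V) (r : V) (R : RT) (U : Multiset UT) : Ft G S U → Rt G S' r R →
      Disjoint S S' → NoEdge G S S' → Ft G (S ∪ S') (ut R ::ₘ U)

namespace Rt

variable {G : SimpleGraph V} {S S' : Finset V} {r r' : V} {R R' : RT}

theorem same (h : Rt G S r R) (h' : Rt G S r' R') : Same R R' := h.rrs h'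

theorem ut_eq (h : Rt G S r R) (h' : Rt G S r' R') : ut R = ut R' := Drn.ut_eq.2 (h.same h')

theorem of_same (h : Rt G S r R) (hR : Same R R') : ∃ r₂ ∈ S, Rt G S r₂ R' := h.of_rrs hR

/-- A coded set has a code at each of its vertices. -/
theorem exists_at (h : Rt G S r R) : ∀ c ∈ S, ∃ R', Rt G S c R' := by
  refine h.conn {c | ∃ R', Rt G S c R'} ⟨R, h⟩ ?_
  rintro a _ ⟨R', hR'⟩ b hb hab
  obtain ⟨S₁, S₂, s, A, M, rfl, hS, hd, h1, h2, he, hbS⟩ := hR'.dec b hb hab.ne'
  have hbs : b = s := ((he a h1.mem b hbS).1 hab).2
  subst hbs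
  obtain ⟨N, rfl⟩ := exists_eq_node A
  exact ⟨_, Rt.graft' h2 h1 hd.symm he.symm (by rw [hS, Finset.union_comm])⟩

/-- Connected sets lie on one side of a separation. -/
theorem subset_or (h : Rt G S r R) {A B : Finset V} (hS : S ⊆ A ∪ B) (hn : NoEdge G A B) :
    S ⊆ A ∨ S ⊆ B := by
  rcases Finset.mem_union.1 (hS h.mem) with hr | hr
  · left
    intro x hx
    refine h.conn (↑A : Set V) hr ?_ x hx
    intro a _ haA b hb hab
    rcases Finset.mem_union.1 (hS hb) with hbA | hbB
    · exact hbA
    · exact absurd hab (hn a haA b hbB)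
  · right
    intro x hx
    refine h.conn (↑B : Set V) hr ?_ x hx
    intro a _ haB b hb hab
    rcases Finset.mem_union.1 (hS hb) with hbA | hbB
    · exact absurd hab.symm (hn b hbA a haB)
    · exact hbB

/-- The branches at the root form a forest. -/
theorem kids_forest (h : Rt G S r R) : Ft G (S.erase r) ((kids R).map ut) := by
  induction h with
  | single r =>
    rw [kids_node, Multiset.map_zero]
    have : ({r} : Finset V).erase r = ∅ := by simp
    rw [this]
    exact Ft.empty
  | graft S S' r r' M A h1 h2 hd he ih1 _ =>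
    rw [kids_node] at ih1 ⊢
    rw [Multiset.map_cons]
    have hr : r ∉ S' := Finset.disjoint_left.1 hd h1.mem
    have : (S ∪ S').erase r = S.erase r ∪ S' := by
      rw [Finset.erase_union_distrib, Finset.erase_eq_of_notMem hr]
    rw [this]
    refine Ft.add _ _ r' A _ ih1 h2 ?_ ?_
    · exact Finset.disjoint_of_subset_left (Finset.erase_subset _ _) hd
    · intro a ha b hb hab
      have := (he a (Finset.mem_of_mem_erase ha) b hb).1 hab
      exact (Finset.ne_of_mem_erase ha) this.1

/-- The number of neighbours of the root inside the set. -/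
theorem card_nbrs [DecidableRel G.Adj] (h : Rt G S r R) :
    (S.filter (fun b => G.Adj r b)).card = (kids R).card := by
  induction h with
  | single r => simp [Finset.filter_singleton]
  | graft S S' r r' M A h1 h2 hd he ih1 _ =>
    rw [kids_node] at ih1 ⊢
    rw [Multiset.card_cons, Finset.filter_union, Finset.card_union_of_disjoint
      (Finset.disjoint_filter_filter hd), ih1]
    congr 1
    rw [Finset.card_eq_one]
    refine ⟨r', ?_⟩
    ext b
    rw [Finset.mem_filter, Finset.mem_singleton]
    constructor
    · rintro ⟨hb, hadj⟩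
      exact ((he r h1.mem b hb).1 hadj).2
    · rintro rfl
      exact ⟨h2.mem, (he r h1.mem _ h2.mem).2 ⟨rfl, rfl⟩⟩

/-- Splitting a coded set at its root along a separation of the other vertices. -/
theorem split (h : Rt G S r R) : ∀ A B : Finset V, S.erase r = A ∪ B → Disjoint A B →
    NoEdge G A B → ∃ LA LB, kids R = LA + LB ∧ Rt G (insert r A) r (node LA) ∧
      Rt G (insert r B) r (node LB) := by
  induction h with
  | single r =>
    intro A B hAB _ _
    have h0 : ({r} : Finset V).erase r = ∅ := by simp
    rw [h0] at hAB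
    have h1 : A = ∅ := by
      have := Finset.subset_union_left (s₁ := A) (s₂ := B)
      rw [← hAB] at this
      exact Finset.subset_empty.1 this
    have h2 : B = ∅ := by
      have := Finset.subset_union_right (s₁ := A) (s₂ := B)
      rw [← hAB] at this
      exact Finset.subset_empty.1 this
    subst h1 h2
    exact ⟨0, 0, by simp, Rt.single r, Rt.single r⟩
  | graft S₁ S₂ r r₂ M R₂ h1 h2 hd he ih1 _ =>
    have main : ∀ A B : Finset V, (S₁ ∪ S₂).erase r = A ∪ B → Disjoint A B →
        NoEdge G A B → S₂ ⊆ A → ∃ LA LB, kids (node (R₂ ::ₘ M)) = LA + LB ∧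
        Rt G (insert r A) r (node LA) ∧ Rt G (insert r B) r (node LB) := by
      intro A B hAB hdAB hn hSA
      have hr : r ∉ S₂ := Finset.disjoint_left.1 hd h1.mem
      have hrA : r ∉ A := by
        intro hrA
        have : r ∈ (S₁ ∪ S₂).erase r := by rw [hAB]; exact Finset.mem_union_left _ hrA
        exact (Finset.ne_of_mem_erase this) rfl
      have hS1 : S₁.erase r = (A \ S₂) ∪ B := by
        ext x
        have hx : x ∈ (S₁ ∪ S₂).erase r ↔ x ∈ A ∪ B := by rw [hAB]
        have hd' : x ∈ S₁ → x ∉ S₂ := fun h => Finset.disjoint_left.1 hd h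
        have hB : x ∈ B → x ∉ A := fun h h' => Finset.disjoint_left.1 hdAB h' h
        have hSA' : x ∈ S₂ → x ∈ A := fun h => hSA h
        simp only [Finset.mem_erase, Finset.mem_union, Finset.mem_sdiff] at hx ⊢
        tauto
      obtain ⟨LA, LB, hL, hLA, hLB⟩ := ih1 (A \ S₂) B hS1
        (Finset.disjoint_of_subset_left Finset.sdiff_subset hdAB)
        (hn.mono Finset.sdiff_subset (Finset.Subset.refl _))
      rw [kids_node] at hL
      refine ⟨R₂ ::ₘ LA, LB, ?_, ?_, hLB⟩
      · rw [kids_node, hL, Multiset.cons_add]
      · refine Rt.graft' hLA h2 ?_ (r' := r₂) ?_ ?_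
        · rw [Finset.disjoint_insert_left]
          exact ⟨hr, Finset.sdiff_disjoint⟩
        · intro a ha b hb
          have haS : a ∈ S₁ := by
            rcases Finset.mem_insert.1 ha with rfl | ha
            · exact h1.mem
            · have : a ∈ S₁.erase r := by rw [hS1]; exact Finset.mem_union_left _ ha
              exact Finset.mem_of_mem_erase this
          exact he a haS b hb
        · ext x
          have hSA' : x ∈ S₂ → x ∈ A := fun h => hSA h
          simp only [Finset.mem_insert, Finset.mem_union, Finset.mem_sdiff]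
          tauto
    intro A B hAB hdAB hn
    have hS2 : S₂ ⊆ A ∪ B := by
      rw [← hAB]
      intro x hx
      rw [Finset.mem_erase]
      refine ⟨?_, Finset.mem_union_right _ hx⟩
      rintro rfl
      exact Finset.disjoint_left.1 hd h1.mem hx
    rcases h2.subset_or hS2 hn with hA | hB
    · exact main A B hAB hdAB hn hA
    · obtain ⟨LB, LA, h3, h4, h5⟩ := main B A (by rw [hAB, Finset.union_comm]) hdAB.symm hn.symm hB
      exact ⟨LA, LB, by rw [h3, add_comm], h5, h4⟩

end Rt

namespace Ft

variable {G : SimpleGraph V} {S S' : Finset V} {U U' : Multiset UT}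

theorem card (h : Ft G S U) : S.card = (U.map usize).sum := by
  induction h with
  | empty => simp
  | add S S' r R U _ h2 hd _ ih =>
    rw [Finset.card_union_of_disjoint hd, ih, h2.card, Multiset.map_cons, Multiset.sum_cons,
      usize_ut]
    omega

/-- Transport of forests. -/
theorem map {G' : SimpleGraph V'} (h : Ft G S U) : ∀ (f : V → V'),
    (∀ a ∈ S, ∀ b ∈ S, f a = f b → a = b) →
    (∀ a ∈ S, ∀ b ∈ S, (G'.Adj (f a) (f b) ↔ G.Adj a b)) → Ft G' (S.image f) U := by
  induction h with
  | empty =>
    intro f _ _
    rw [Finset.image_empty]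
    exact Ft.empty
  | add S S' r R U h1 h2 hd hn ih =>
    intro f hf ha
    have hl := ih f (fun a h b h' => hf a (Finset.mem_union_left _ h) b (Finset.mem_union_left _ h'))
      (fun a h b h' => ha a (Finset.mem_union_left _ h) b (Finset.mem_union_left _ h'))
    have hr := h2.map (G' := G') f
      (fun a h b h' => hf a (Finset.mem_union_right _ h) b (Finset.mem_union_right _ h'))
      (fun a h b h' => ha a (Finset.mem_union_right _ h) b (Finset.mem_union_right _ h'))
    rw [Finset.image_union]
    refine Ft.add _ _ _ R U hl hr ?_ ?_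
    · rw [Finset.disjoint_left]
      intro x hx hx'
      obtain ⟨a, ha', rfl⟩ := Finset.mem_image.1 hx
      obtain ⟨b, hb', hab⟩ := Finset.mem_image.1 hx'
      have := hf b (Finset.mem_union_right _ hb') a (Finset.mem_union_left _ ha') hab
      subst this
      exact Finset.disjoint_left.1 hd ha' hb'
    · intro x hx y hy
      obtain ⟨a, ha', rfl⟩ := Finset.mem_image.1 hx
      obtain ⟨b, hb', rfl⟩ := Finset.mem_image.1 hy
      rw [ha a (Finset.mem_union_left _ ha') b (Finset.mem_union_right _ hb')]
      exact hn a ha' b hb'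

/-- The component containing a given vertex. -/
theorem comp (h : Ft G S U) : ∀ c ∈ S, ∃ (C W : Finset V) (R : RT) (U' : Multiset UT),
    S = C ∪ W ∧ Disjoint C W ∧ NoEdge G C W ∧ Rt G C c R ∧ Ft G W U' ∧ U = ut R ::ₘ U' := by
  induction h with
  | empty => intro c hc; simp at hc
  | add S S' r R U h1 h2 hd hn ih =>
    intro c hc
    rcases Finset.mem_union.1 hc with hc | hc
    · obtain ⟨C, W, R', U', hS, hdC, hnC, hC, hW, hU⟩ := ih c hc
      have hCS : C ⊆ S := by rw [hS]; exact Finset.subset_union_left
      have hWS : W ⊆ S := by rw [hS]; exact Finset.subset_union_right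
      refine ⟨C, W ∪ S', R', ut R ::ₘ U', ?_, ?_, ?_, hC, ?_, ?_⟩
      · rw [hS, Finset.union_assoc]
      · rw [Finset.disjoint_union_right]
        exact ⟨hdC, Finset.disjoint_of_subset_left hCS hd⟩
      · intro a ha b hb
        rcases Finset.mem_union.1 hb with hb | hb
        · exact hnC a ha b hb
        · exact hn a (hCS ha) b hb
      · exact Ft.add W S' r R U' hW h2 (Finset.disjoint_of_subset_left hWS hd)
          (hn.mono hWS (Finset.Subset.refl _))
      · rw [hU, Multiset.cons_swap]
    · obtain ⟨R', hR'⟩ := h2.exists_at c hc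
      refine ⟨S', S, R', U, Finset.union_comm _ _, hd.symm, hn.symm, hR', h1, ?_⟩
      rw [h2.ut_eq hR']

/-- The multiset of unrooted types of a forest is unique. -/
theorem unique (h : Ft G S U) : ∀ U', Ft G S U' → U = U' := by
  induction h with
  | empty =>
    intro U' h'
    have h0 := h'.card
    rw [Finset.card_empty] at h0
    by_contra hne
    obtain ⟨a, ha⟩ := Multiset.exists_mem_of_ne_zero (Ne.symm hne)
    obtain ⟨t, rfl⟩ := Multiset.exists_cons_of_mem ha
    rw [Multiset.map_cons, Multiset.sum_cons] at h0
    have : 0 < usize a := by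
      induction a using Quotient.inductionOn with
      | h R => exact size_pos R
    omega
  | add S S' r R U h1 h2 hd hn ih =>
    intro U' h'
    obtain ⟨C, W, R', U'', hS, hdC, hnC, hC, hW, hU⟩ := h'.comp r (Finset.mem_union_right _ h2.mem)
    have hCS' : C = S' := by
      apply Finset.Subset.antisymm
      · have hsub : C ⊆ S ∪ S' := by rw [hS]; exact Finset.subset_union_left
        rcases hC.subset_or hsub hn with h3 | h3
        · exact absurd (h3 hC.mem) (Finset.disjoint_right.1 hd h2.mem)
        · exact h3
      · have hsub : S' ⊆ C ∪ W := by rw [← hS]; exact Finset.subset_union_right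
        rcases h2.subset_or hsub hnC with h3 | h3
        · exact h3
        · exact absurd (h3 h2.mem) (Finset.disjoint_left.1 hdC hC.mem)
    subst hCS'
    have hWS : W = S := by
      ext x
      have hx : x ∈ S ∪ C ↔ x ∈ C ∪ W := by rw [hS]
      have h3 : x ∈ S → x ∉ C := fun h => Finset.disjoint_left.1 hd h
      have h4 : x ∈ C → x ∉ W := fun h => Finset.disjoint_left.1 hdC h
      simp only [Finset.mem_union] at hx
      tauto
    subst hWS
    rw [hU, ih _ hW, h2.ut_eq hC]

end Ft

end Pool.Agent.H48.Drn
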