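import Pool.Agent.H48.Drn.Exc4
import Pool.Agent.H48.Drn.Cat

set_option autoImplicit false

/-!
The lemmas K and K2 for hereditarily equal-sized rooted trees.
-/

namespace Pool.Agent.H48.Drn

open RT
open Cat (size_path size_chain pos_path path_codes path_codes_card card_path_le)

theorem PosD.graft {P C D K : RT} (h : PosD P C D K) (E : RT) :
    ∃ C', Gr E C C' ∧ PosD P C' (D.add E) K := by
  induction h with
  | here P B => exact ⟨B.add E, Gr.root B, PosD.here _ _⟩
  | @deeper P X C D K _ ih =>
    obtain ⟨C', h1, h2⟩ := ih
    exact ⟨X.add C', Gr.child X h1, PosD.deeper h2⟩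

/-- a sub-branch of a path is a path -/
theorem PosD.of_path {P C D K : RT} (h : PosD P C D K) : ∀ m, K = path m → ∃ j, P = path j := by
  induction h with
  | here P B => exact fun m hm => ⟨m, hm⟩
  | @deeper P X C D K _ ih =>
    intro m hm
    obtain ⟨j, hj⟩ := ih m hm
    cases j with
    | zero => exact absurd hj add_ne_pt
    | succ j =>
      obtain ⟨_, h2⟩ := Cat.pt_add_inj (show pt.add (path j) = X.add P from hj.symm)
      exact ⟨j, h2.symm⟩

theorem ut_chain_add_path (j l : ℕ) (Z : RT) :
    ut ((chain j Z).add (path l)) = ut (Z.add (path (l + j))) := by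
  induction j generalizing l with
  | zero => rfl
  | succ j ih =>
    rw [chain, add_swap, ut_add_comm, show pt.add (path l) = path (l + 1) from rfl, ih (l + 1)]
    congr 3
    omega

theorem ut_chain_succ (j : ℕ) (Z : RT) : ut (chain (j + 1) Z) = ut (Z.add (path j)) := by
  rw [chain, ut_add_comm]
  have := ut_chain_add_path j 0 Z
  rw [show path 0 = pt from rfl] at this
  rw [this]
  congr 3
  omega

theorem EQ.decomp {A : RT} : EQ A → ∃ i Z, A = chain i Z ∧
    (Z = pt ∨ (2 ≤ Multiset.card Z.kids ∧ ∃ b, ∀ K ∈ Z.kids, K.size = b)) := by
  induction A using RT.ind with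
  | h M ih =>
    intro hA
    rcases Nat.lt_or_ge (Multiset.card M) 2 with h | h
    · rcases Nat.lt_or_ge (Multiset.card M) 1 with h0 | h1
      · have : M = 0 := by
          rw [← Multiset.card_eq_zero]; omega
        subst this
        exact ⟨0, pt, rfl, Or.inl rfl⟩
      · have h2 : Multiset.card (node M).kids = 1 := by rw [kids_node]; omega
        obtain ⟨A', hA'⟩ := Cat.eq_pt_add_of_card' h2
        have hm : A' ∈ (node M).kids := by rw [hA']; simp
        have hm' : A' ∈ M := by rwa [kids_node] at hm
        obtain ⟨i, Z, h3, h4⟩ := ih A' hm' (hA.kid A' hm)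
        exact ⟨i + 1, Z, by rw [hA', h3, chain], h4⟩
    · refine ⟨0, node M, rfl, Or.inr ⟨by rwa [kids_node], ?_⟩⟩
      obtain ⟨C, hC⟩ : ∃ C, C ∈ M := Multiset.card_pos_iff_exists_mem.1 (by omega)
      exact ⟨C.size, fun K hK => hA.same_size K hK C (by rwa [kids_node])⟩

theorem ut_path_add (a b : ℕ) : ut ((path a).add (path b)) = ut (path (a + b + 1)) := by
  have h : ∀ a, path a = chain a pt := by
    intro a
    induction a with
    | zero => rfl
    | succ a ih => rw [path, ih, chain]
  rw [h a, ut_chain_add_path, show pt.add (path (b + a)) = path (b + a + 1) from rfl]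
  congr 2
  omega

/-- PS: the position of the root of an `EQ` tree `A` is determined by the type of `A` with a
path of one or two vertices attached there. -/
theorem PS {A B : RT} {f : ℕ} (hf : f ≤ 1) (hA : EQ A) (hs : f = 0 ∨ 4 ≤ A.size)
    (hut : ut B = ut A) (hut2 : ut (B.add (path f)) = ut (A.add (path f))) : B = A := by
  obtain ⟨i, Z, rfl, hZ | ⟨hk, b, hb⟩⟩ := hA.decomp
  · -- `A` is a path
    subst hZ
    have h : ∀ a, chain a pt = path a := by
      intro a
      induction a with
      | zero => rfl
      | succ a ih => rw [path, ← ih, chain]
    rw [h] at hut hut2 ⊢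
    rw [ut_path_add] at hut2
    rcases path_codes hut with h1 | ⟨x, y, _, h1⟩
    · exact h1
    · exfalso
      have h2 := path_codes_card hut2
      rw [h1] at h2
      simp at h2
  · -- `Z` has at least two kids, all of size `b`
    have hZs := size_of_all hb
    have hb1 : 1 ≤ b := by
      obtain ⟨C, hC⟩ : ∃ C, C ∈ Z.kids := Multiset.card_pos_iff_exists_mem.1 (by omega)
      rw [← hb C hC]
      exact C.size_pos
    have hkb : 2 * b ≤ Multiset.card Z.kids * b := Nat.mul_le_mul_right b hk
    rw [ut_chain_add_path] at hut2
    have hTs : (Z.add (path (f + i))).size = 1 + Multiset.card Z.kids * b + (f + i + 1) := by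
      rw [size_add, hZs, size_path]
    have hpath : (path f).size = f + 1 := size_path f
    -- main claim: `S2 = Z.add (path (f+i))` for a suitable `S2`
    have claim : ∀ S2 : RT, ut S2 = ut (Z.add (path (f + i))) →
        (∀ C ∈ S2.kids, C.size ≤ b + (f + 1) ∨ C.size ≤ i + (f + 1)) →
        (∀ C P, S2 = P.add C → P.size ≤ f + i + 1 → ∀ j, P ≠ path j) →
        S2 = Z.add (path (f + i)) := by
      intro S2 h1 h2 h3
      rcases same_iff.1 h1 with h4 | ⟨P, C, D, K, h4, h5, hp⟩
      · exact h4
      · exfalso
        have hPK := hp.size_le
        have hsz := size_of_ut h1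
        rw [hTs, h4, size_add] at hsz
        have hK : K ∈ (Z.add (path (f + i))).kids := by rw [h5]; simp
        have hC := h2 C (by rw [h4]; simp)
        rw [mem_kids_add] at hK
        rcases hK with hK | hK
        · obtain ⟨j, hj⟩ := hp.of_path _ hK
          have hKs := congrArg size hK
          rw [size_path] at hKs
          exact h3 C P h4 (by omega) j hj
        · have hKs := hb K hK
          omega
    cases i with
    | zero =>
      -- `A = Z`
      rw [chain] at hut hs ⊢
      rcases same_iff.1 hut.symm with h1 | ⟨P₁, C₁, D₁, K₁, h1, h2, hp⟩
      · exact h1.symm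
      · exfalso
        obtain ⟨C', hG, hp'⟩ := hp.graft (path f)
        have hC's := hG.size
        have hC1 : C₁.size = b := hb C₁ (by rw [h1]; simp)
        have hP₁k : ∀ C ∈ P₁.kids, C.size = b := fun C hC => hb C (by rw [h1]; simp [hC])
        have hcardP : Multiset.card P₁.kids + 1 = Multiset.card Z.kids := by
          rw [h1]; simp
        have hutS2 : ut (P₁.add C') = ut (Z.add (path (f + 0))) := by
          rw [← hut2, h2, ← hp'.ut_eq, add_swap]
        have hS2 := claim (P₁.add C') hutS2 (by
          intro C hC
          rw [mem_kids_add] at hC
          rcases hC with rfl | hC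
          · left; omega
          · left; rw [hP₁k C hC]; omega) (by
          intro C P hPC hPs j hj
          -- `P` has at least one kid of size `b`, unless small
          have hcard := congrArg (fun A => Multiset.card (kids A)) hPC
          simp only [kids_add, Multiset.card_cons] at hcard
          have hPj := card_path_le j
          rw [← hj] at hPj
          have hk2 : Multiset.card Z.kids = 2 := by omega
          have hPk1 : Multiset.card P.kids = 1 := by omega
          obtain ⟨X, hX⟩ := Cat.eq_pt_add_of_card' hPk1
          have hXm : X ∈ (P₁.add C').kids := by rw [hPC, hX]; simp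
          rw [mem_kids_add] at hXm
          have hXs : b ≤ X.size := by
            rcases hXm with rfl | hXm
            · omega
            · rw [hP₁k X hXm]
          rw [hX, size_add, size_pt] at hPs
          rw [hk2] at hZs
          rcases hs with hs | hs
          · omega
          · omega)
        have hc := congrArg (fun A => Multiset.card (kids A)) hS2
        simp only [kids_add, Multiset.card_cons] at hc
        omega
    | succ i =>
      -- `S1 = Z.add (path i)`
      rw [ut_chain_succ] at hut
      have hcardS1 : Multiset.card (Z.add (path i)).kids = Multiset.card Z.kids + 1 := by simp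
      rcases same_iff.1 hut.symm with h1 | ⟨P₁, C₁, D₁, K₁, h1, h2, hp⟩
      · -- `B = S1`
        exfalso
        rw [← h1] at hut2
        have hS2 := claim _ hut2 (by
          intro C hC
          simp only [mem_kids_add] at hC
          rcases hC with rfl | rfl | hC
          · left; omega
          · right; rw [size_path]; omega
          · left; rw [hb C hC]; omega) (by
          intro C P hPC _ j hj
          have hcard := congrArg (fun A => Multiset.card (kids A)) hPC
          simp only [kids_add, Multiset.card_cons] at hcard
          have hPj := card_path_le j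
          rw [← hj] at hPj
          omega)
        have hc := congrArg (fun A => Multiset.card (kids A)) hS2
        simp only [kids_add, Multiset.card_cons] at hc
        omega
      · obtain ⟨C', hG, hp'⟩ := hp.graft (path f)
        have hC's := hG.size
        have hC1m : C₁ ∈ (Z.add (path i)).kids := by rw [h1]; simp
        have hC1 : C₁.size = b ∨ C₁.size = i + 1 := by
          rw [mem_kids_add] at hC1m
          rcases hC1m with rfl | h
          · right; rw [size_path]
          · left; exact hb _ h
        have hP₁k : ∀ C ∈ P₁.kids, C.size = b ∨ C.size = i + 1 := by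
          intro C hC
          have : C ∈ (Z.add (path i)).kids := by rw [h1]; simp [hC]
          rw [mem_kids_add] at this
          rcases this with rfl | h
          · right; rw [size_path]
          · left; exact hb _ h
        have hcardP : Multiset.card P₁.kids = Multiset.card Z.kids := by
          have := congrArg (fun A => Multiset.card (kids A)) h1
          simpa using this.symm
        have hutS2 : ut (P₁.add C') = ut (Z.add (path (f + (i + 1)))) := by
          rw [← hut2, h2, ← hp'.ut_eq, add_swap]
        have hS2 := claim (P₁.add C') hutS2 (by
          intro C hC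
          rw [mem_kids_add] at hC
          rcases hC with rfl | hC
          · rcases hC1 with h | h
            · left; omega
            · right; omega
          · rcases hP₁k C hC with h | h
            · left; omega
            · right; omega) (by
          intro C P hPC _ j hj
          have hcard := congrArg (fun A => Multiset.card (kids A)) hPC
          simp only [kids_add, Multiset.card_cons] at hcard
          have hPj := card_path_le j
          rw [← hj] at hPj
          omega)
        -- cancel multisets
        have hC'ne : C' ≠ C₁ := hG.ne
        have hkey : C' = path (f + (i + 1)) ∧ C₁ = path i ∧ P₁ = Z := by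
          rcases add_eq_add_iff.1 hS2 with ⟨h3, h4⟩ | ⟨E, h3, h4⟩
          · rw [h3, add_right_inj] at h1
            exact ⟨h4, h1.symm, h3⟩
          · -- `P₁ = E.add (path ..)`, `Z = E.add C'`
            have h5 : (path i ::ₘ C' ::ₘ (0 : Multiset RT)) =
                (C₁ ::ₘ path (f + (i + 1)) ::ₘ (0 : Multiset RT)) := by
              have h6 := congrArg kids h1
              rw [h3, h4, kids_add, kids_add, kids_add, kids_add] at h6
              refine add_right_cancel (b := E.kids) ?_
              simpa only [Multiset.cons_add, zero_add] using h6
            have h7 : C' = path (f + (i + 1)) := by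
              have : C' ∈ (C₁ ::ₘ path (f + (i + 1)) ::ₘ (0 : Multiset RT)) := by
                rw [← h5]; simp
              simp only [Multiset.mem_cons, Multiset.notMem_zero, or_false] at this
              rcases this with h | h
              · exact absurd h hC'ne
              · exact h
            rw [h7, Multiset.cons_inj_left] at h5
            exact ⟨h7, h5.symm, by rw [h3, h4, h7]⟩
        obtain ⟨h3, h4, h5⟩ := hkey
        subst h3 h4 h5
        obtain ⟨j, hj, hD, hK⟩ := pos_path hp
        obtain ⟨l, hl, hD', _⟩ := pos_path hp'
        have hD1 : D₁ = pt := by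
          have hc := congrArg (fun A => Multiset.card (kids A)) hD'
          simp only [kids_add, Multiset.card_cons] at hc
          have := card_path_le (f + (i + 1) - l)
          exact eq_pt_of_card (by omega)
        have hij : i = j := by
          rw [hD1] at hD
          have := congrArg size hD
          rw [size_pt, size_path] at this
          omega
        rw [h2, hD1, hK, chain, hij]

theorem K_holds : KHyp := by
  intro A B hA hut hc
  have hcard := card_of_cards hc
  rcases Nat.lt_or_ge (Multiset.card A.kids) 2 with h | h
  · rcases Nat.lt_or_ge (Multiset.card A.kids) 1 with h0 | h1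
    · rw [eq_pt_of_card (M := A) (by omega), eq_pt_of_card (M := B) (by omega)]
    · obtain ⟨A', rfl⟩ := Cat.eq_pt_add_of_card' (M := A) (by omega)
      obtain ⟨B', rfl⟩ := Cat.eq_pt_add_of_card' (M := B) (by omega)
      simp only [cards_add, cards_pt, Multiset.cons_inj_left] at hc
      have := PS (f := 0) (by omega) (hA.kid A' (by simp)) (Or.inl rfl) hc (by
        rw [show path 0 = pt from rfl, ut_add_comm, hut, ut_add_comm])
      rw [this]
  · obtain ⟨C, hC⟩ : ∃ C, C ∈ A.kids := Multiset.card_pos_iff_exists_mem.1 (by omega)
    have hs : ∀ D ∈ A.kids, D.size = C.size := fun D hD => hA.same_size D hD C hC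
    have hsz := size_of_all hs
    have h2 := Nat.mul_le_mul_right C.size h
    have hSB : SBal A := by
      intro D hD
      rw [hs D hD]
      omega
    exact (hSB.eq ((hSB.bal).congr_cards hc) hut.symm).symm

theorem K2_holds : K2Hyp := by
  intro A B hA hs hut hut2
  refine PS (f := 1) le_rfl hA (Or.inr hs) hut ?_
  have h : ∀ X : RT, ut (X.add (path 1)) = ut (pt.add (pt.add X)) := by
    intro X
    rw [show path 1 = pt.add pt from rfl, ut_add_comm, add_swap, ut_add_comm]
  rw [h, h, hut2]

/-- E1 without hypotheses. -/
theorem good_E1' {M N : RT} (hs : ∀ A ∈ M.kids, A.size = N.size)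
    (hc : 2 ≤ Multiset.card M.kids) (hN : EQ N) : Good (M.add N) := good_E1 K_holds hs hc hN

theorem good_E2' {X : RT} (hX : EQ X) : Good ((pt.add X).add X) := good_E2 K_holds hX

theorem good_XX' {X : RT} (hX : EQ X) (hs : 7 ≤ X.size) : Good (X.add X) :=
  good_XX K_holds K2_holds hX hs

/-! ### PTC: a pendant at the centroid -/

theorem good_PTC {M : RT} (h : ∀ B ∈ (M.add pt).kids, 2 * B.size + 2 ≤ (M.add pt).size)
    (hM : 2 ≤ M.size) : Good (M.add pt) := by
  have hSM : SBal M := by
    intro B hB
    have := h B (by simp [hB])
    rw [size_add, size_pt] at this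
    omega
  refine good_of_adj (fun A _ => by rw [size_pt]; exact A.size_pos) (by rw [size_pt]; omega) ?_
  intro M' Z N' hcard hN' hcards hcase
  have hN0 := Cat.eq_pt_of_cards hN'
  subst hN0
  rcases hcase with ⟨rfl, hut⟩ | ⟨Q, hQ, hut⟩
  · rw [cards_add, cards_add, Multiset.cons_inj_right] at hcards
    have hMM : M = M' := hSM.eq ((hSM.bal).congr_cards hcards) hut.symm
    rw [← hMM]
  · exfalso
    have hQs := hQ.size
    have hQp := Q.size_pos
    have hMs := size_of_ut hut
    rw [size_add] at hMs
    -- `M'.add Q` is balanced, so equals `M`, but has one more kid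
    have hBal : Bal (M'.add Q) := by
      intro B hB
      rw [mem_kids_add] at hB
      rw [size_of_ut hut]
      rcases hB with rfl | hB
      · obtain ⟨C, hC, hCs⟩ := exists_size_of_cards hcards (A := Z) (by simp)
        have := h C hC
        rw [size_add, size_pt] at this
        rw [size_pt] at hQs
        omega
      · obtain ⟨C, hC, hCs⟩ := exists_size_of_cards hcards (A := B) (by simp [hB])
        have := h C hC
        rw [size_add, size_pt] at this
        omega
    have hMM := hSM.eq hBal hut.symm
    have := congrArg (fun A => Multiset.card (kids A)) hMM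
    simp only [kids_add, Multiset.card_cons] at this
    omega

end Pool.Agent.H48.Drn
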