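import Pool.Agent.H48.Drn.Delta
import Pool.Agent.H48.Drn.KLem

set_option autoImplicit false

/-!
The case in which every branch `B` at the centroid satisfies `2|B| + 2 ≤ n`.
-/

namespace Pool.Agent.H48.Drn

open RT

/-- Case G. -/
theorem good_G {R : RT} (h : ∀ B ∈ R.kids, 2 * B.size + 2 ≤ R.size) (hn : 8 ≤ R.size) :
    Good R := by
  by_cases hpt : pt ∈ R.kids
  · obtain ⟨M, rfl⟩ := exists_add_of_mem hpt
    refine good_PTC h ?_
    rw [size_add, size_pt] at hn
    omega
  have h2 : ∀ B ∈ R.kids, 2 ≤ B.size := by
    intro B hB
    by_contra hcon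
    have : B = pt := eq_pt_of_size (by have := B.size_pos; omega)
    exact hpt (this ▸ hB)
  by_cases hA : ∃ A ∈ R.kids, 2 * A.size + 2 = R.size
  · obtain ⟨A, hA, hAs⟩ := hA
    obtain ⟨W, rfl⟩ := exists_add_of_mem hA
    rw [size_add] at hAs hn
    -- a second kid
    rcases eq_pt_or W with rfl | ⟨W1, B, rfl⟩
    · rw [size_pt] at hAs; omega
    have hBs := h B (by simp)
    have hB2 := h2 B (by simp)
    -- a third kid
    rcases eq_pt_or W1 with rfl | ⟨M, C, rfl⟩
    · simp only [size_add, size_pt] at hAs hBs hn
      omega
    have hCs := h C (by simp)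
    have hC2 := h2 C (by simp)
    have hMp := M.size_pos
    simp only [size_add] at hAs hBs hCs hn
    -- the pair
    have hcB : B.size < A.size := by omega
    obtain ⟨A1, hA1, hch⟩ : ∃ A1, Lf A1 A ∧ (Lf B A → A1 = B) := by
      by_cases h1 : Lf B A
      · exact ⟨B, h1, fun _ => rfl⟩
      · obtain ⟨D, hD⟩ := exists_lf (R := A) (by omega)
        exact ⟨D, hD, fun h2 => absurd h2 h1⟩
    obtain ⟨B1, hB1⟩ := exists_lf (R := B) hB2
    have hR1 := delta (M := M.add C) hA1 hcB hch (Or.inl ⟨B1, hB1, rfl⟩)
    have hswap : ((M.add C).add B).add A = ((M.add C).add A).add B := add_swap _ _ _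
    rw [hswap] at h ⊢
    obtain ⟨hu, hv, hne, huniq⟩ := hR1
    refine good_of_leaf hu hv hne ?_
    intro S S' hSS hS hS'
    have hSn := hS.size
    have hSn' := hS'.size
    have hA1s := hA1.size
    have hB1s := hB1.size
    simp only [size_add] at hSn hSn'
    have hM : ∀ K ∈ M.kids, K.size + 2 < A.size := by
      intro K hK
      have h1 := h2 K (by simp [hK])
      have h3 := size_lt_of_mem' hK
      omega
    have hSB : SBal S := by
      intro K hK
      have := lf_kids_le' (m := A.size - 1) hS (by
        intro K hK
        simp only [mem_kids_add] at hK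
        rcases hK with rfl | rfl | rfl | hK
        · omega
        · omega
        · omega
        · have := hM K hK
          omega) K hK
      omega
    have hSB' : Bal S' := by
      intro K hK
      have := lf_kids_le' (m := A.size) hS' (by
        intro K hK
        simp only [mem_kids_add] at hK
        rcases hK with rfl | rfl | rfl | hK
        · omega
        · omega
        · omega
        · have := hM K hK
          omega) K hK
      omega
    have hE := hSB.eq hSB' hSS
    subst hE
    rw [huniq S hS hS']
  · push Not at hA
    have h3 : ∀ B ∈ R.kids, 2 * B.size + 3 ≤ R.size := by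
      intro B hB
      have := h B hB
      have := hA B hB
      omega
    by_cases hEQ : EQ R
    · rcases eq_pt_or R with rfl | ⟨M, N, rfl⟩
      · rw [size_pt] at hn; omega
      have hs : ∀ A ∈ M.kids, A.size = N.size := fun A hA =>
        hEQ.same_size A (by simp [hA]) N (by simp)
      refine good_E1' hs ?_ (hEQ.kid N (by simp))
      have h4 := size_of_all hs
      have h5 := h3 N (by simp)
      rw [size_add, h4] at h5
      by_contra hcon
      have : Multiset.card M.kids ≤ 1 := by omega
      have : Multiset.card M.kids * N.size ≤ 1 * N.size := Nat.mul_le_mul_right _ this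
      omega
    · obtain ⟨Ru, Rv, hu, hv, hne, huniq⟩ := R1_of_not_EQ hEQ
      refine good_of_leaf hu hv hne ?_
      intro S S' hSS hS hS'
      have hus := hu.size
      have hvs := hv.size
      have hSn := hS.size
      have hSn' := hS'.size
      have hm : ∀ B ∈ R.kids, B.size ≤ (R.size - 3) / 2 := by
        intro B hB
        have := h3 B hB
        omega
      have hSB : SBal S := by
        intro K hK
        have := lf_kids_le' hS (lf_kids_le hu hm) K hK
        omega
      have hSB' : Bal S' := by
        intro K hK
        have := lf_kids_le' hS' (lf_kids_le hv hm) K hK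
        omega
      have hE := hSB.eq hSB' hSS
      subst hE
      rw [huniq S hS hS']

end Pool.Agent.H48.Drn
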