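import Pool.Agent.H48.Drn.RT

set_option autoImplicit false

/-!
Grafting relation on codes: `Gr P A A'` says that `A'` is `A` with the rooted tree `P` attached
as a new child at some vertex.  `Del R D := Gr pt D R` (deletion of a leaf different from the root).
-/

namespace Pool.Agent.H48.Drn

open RT

/-- `Gr P A A'`: `A'` is `A` with a copy of `P` attached (by its root) at some vertex of `A`. -/
inductive Gr (P : RT) : RT → RT → Prop
  | here (M : Multiset RT) : Gr P (node M) (node (P ::ₘ M))
  | there (M : Multiset RT) (A A' : RT) : Gr P A A' → Gr P (node (A ::ₘ M)) (node (A' ::ₘ M))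

/-- `Del R D`: `D` is `R` minus a leaf other than the root. -/
def Del (R D : RT) : Prop := Gr pt D R

theorem Gr.exists_node {P A A' : RT} (h : Gr P A A') :
    ∃ M M', A = node M ∧ A' = node M' ∧
      (M' = P ::ₘ M ∨ ∃ B B' N, M = B ::ₘ N ∧ M' = B' ::ₘ N ∧ Gr P B B') := by
  cases h with
  | here M => exact ⟨M, P ::ₘ M, rfl, rfl, Or.inl rfl⟩
  | there M B B' h => exact ⟨B ::ₘ M, B' ::ₘ M, rfl, rfl, Or.inr ⟨B, B', M, rfl, rfl, h⟩⟩

/-- Characterisation of grafting on multisets of branches. -/
theorem gr_node_iff {P : RT} {M M' : Multiset RT} :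
    Gr P (node M) (node M') ↔
      (M' = P ::ₘ M ∨ ∃ B B' N, M = B ::ₘ N ∧ M' = B' ::ₘ N ∧ Gr P B B') := by
  constructor
  · intro h
    obtain ⟨M₁, M₁', h1, h2, h3⟩ := h.exists_node
    rw [node_inj] at h1 h2
    subst h1 h2
    exact h3
  · rintro (rfl | ⟨B, B', N, rfl, rfl, h⟩)
    · exact Gr.here M
    · exact Gr.there N B B' h

theorem Gr.cons {P : RT} {M M' : Multiset RT} (R : RT) (h : Gr P (node M) (node M')) :
    Gr P (node (R ::ₘ M)) (node (R ::ₘ M')) := by
  rw [gr_node_iff] at h ⊢
  rcases h with rfl | ⟨B, B', N, rfl, rfl, h⟩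
  · left
    exact Multiset.cons_swap _ _ _
  · right
    exact ⟨B, B', R ::ₘ N, Multiset.cons_swap _ _ _, Multiset.cons_swap _ _ _, h⟩

theorem Gr.add {P : RT} {M M' : Multiset RT} (N : Multiset RT) (h : Gr P (node M) (node M')) :
    Gr P (node (M + N)) (node (M' + N)) := by
  induction N using Multiset.induction_on with
  | empty => simpa using h
  | cons a s ih =>
    rw [Multiset.add_cons, Multiset.add_cons]
    exact ih.cons a

theorem Gr.size_eq {P A A' : RT} (h : Gr P A A') : size A' = size A + size P := by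
  induction h with
  | here M => rw [size_node, size_node, Multiset.map_cons, Multiset.sum_cons]; omega
  | there M A A' _ ih =>
    rw [size_node, size_node, Multiset.map_cons, Multiset.sum_cons, Multiset.map_cons,
      Multiset.sum_cons, ih]
    omega

theorem Gr.ne {P A A' : RT} (h : Gr P A A') : A' ≠ A := by
  intro he
  have := h.size_eq
  have hp := size_pos P
  rw [he] at this
  omega

theorem Del.size_eq {R D : RT} (h : Del R D) : size R = size D + 1 := by
  have := Gr.size_eq h
  simpa using this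

theorem Del.ne {R D : RT} (h : Del R D) : R ≠ D := Gr.ne h

/-- Deletions in terms of branches. -/
theorem del_node_iff {M M' : Multiset RT} :
    Del (node M) (node M') ↔
      (M = pt ::ₘ M' ∨ ∃ B B' N, M = B ::ₘ N ∧ M' = B' ::ₘ N ∧ Del B B') := by
  unfold Del
  rw [gr_node_iff]
  constructor
  · rintro (h | ⟨B, B', N, h1, h2, h3⟩)
    · exact Or.inl h
    · exact Or.inr ⟨B', B, N, h2, h1, h3⟩
  · rintro (h | ⟨B, B', N, h1, h2, h3⟩)
    · exact Or.inl h
    · exact Or.inr ⟨B', B, N, h2, h1, h3⟩

theorem del_node_left {M : Multiset RT} {D : RT} (h : Del (node M) D) :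
    ∃ M', D = node M' ∧
      (M = pt ::ₘ M' ∨ ∃ B B' N, M = B ::ₘ N ∧ M' = B' ::ₘ N ∧ Del B B') := by
  obtain ⟨M', rfl⟩ := exists_eq_node D
  exact ⟨M', rfl, del_node_iff.1 h⟩

theorem not_del_pt {D : RT} : ¬ Del pt D := by
  intro h
  have h1 := Del.size_eq h
  have h2 := size_pos D
  rw [size_pt] at h1
  omega

/-- Every tree with at least two vertices has a leaf other than the root. -/
theorem exists_del {R : RT} (h : R ≠ pt) : ∃ D, Del R D := by
  induction R using RT.ind with
  | h M ih =>
    have hM : M ≠ 0 := by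
      intro h0
      exact h (by rw [h0, node_zero])
    obtain ⟨A, hA⟩ := Multiset.exists_mem_of_ne_zero hM
    obtain ⟨N, rfl⟩ := Multiset.exists_cons_of_mem hA
    by_cases hp : A = pt
    · subst hp
      exact ⟨node N, Gr.here N⟩
    · obtain ⟨D, hD⟩ := ih A hA hp
      exact ⟨node (D ::ₘ N), Gr.there N D A hD⟩

end Pool.Agent.H48.Drn
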