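import Pool.Agent.H48.Drn.Gr

set_option autoImplicit false

/-!
`Rt G S r R`: the graph `G` restricted to the finite vertex set `S` is a tree which, rooted at
`r ∈ S`, has code `R`.
-/

namespace Pool.Agent.H48.Drn

open RT

variable {V : Type*} [DecidableEq V] {V' : Type*} [DecidableEq V']

/-- There is exactly one edge of `G` between `S` and `S'`, namely `r r'`. -/
def OneEdge (G : SimpleGraph V) (S S' : Finset V) (r r' : V) : Prop :=
  ∀ a ∈ S, ∀ b ∈ S', (G.Adj a b ↔ (a = r ∧ b = r'))

/-- `G` restricted to `S` is a tree with code `R` at the root `r`. -/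
inductive Rt (G : SimpleGraph V) : Finset V → V → RT → Prop
  | single (r : V) : Rt G {r} r (node 0)
  | graft (S S' : Finset V) (r r' : V) (M : Multiset RT) (A : RT) :
      Rt G S r (node M) → Rt G S' r' A → Disjoint S S' → OneEdge G S S' r r' →
      Rt G (S ∪ S') r (node (A ::ₘ M))

namespace Rt

variable {G : SimpleGraph V} {S S' : Finset V} {r r' : V} {R R' : RT}

theorem mem (h : Rt G S r R) : r ∈ S := by
  induction h with
  | single r => exact Finset.mem_singleton_self r
  | graft S S' r r' M A _ _ _ _ ih1 _ => exact Finset.mem_union_left _ ih1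

theorem card (h : Rt G S r R) : S.card = size R := by
  induction h with
  | single r => simp
  | graft S S' r r' M A _ _ hd _ ih1 ih2 =>
    rw [Finset.card_union_of_disjoint hd, ih1, ih2, size_node, size_node, Multiset.map_cons,
      Multiset.sum_cons]
    omega

/-- Graft, with the union given up to equality. -/
theorem graft' {M : Multiset RT} {A : RT} {T : Finset V} (h1 : Rt G S r (node M))
    (h2 : Rt G S' r' A) (hd : Disjoint S S') (he : OneEdge G S S' r r') (hT : T = S ∪ S') :
    Rt G T r (node (A ::ₘ M)) := hT ▸ Rt.graft S S' r r' M A h1 h2 hd he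

/-- Inversion: every branch can be taken as the last one grafted. -/
theorem inv_aux (h : Rt G S r R) : ∀ (A : RT) (M : Multiset RT), R = node (A ::ₘ M) →
    ∃ (S₁ S₂ : Finset V) (r₂ : V), S = S₁ ∪ S₂ ∧ Disjoint S₁ S₂ ∧ Rt G S₁ r (node M) ∧
      Rt G S₂ r₂ A ∧ OneEdge G S₁ S₂ r r₂ := by
  induction h with
  | single r =>
    intro A M hR
    rw [node_inj] at hR
    exact absurd hR.symm (Multiset.cons_ne_zero)
  | graft S S' r r' M₀ A₀ h1 h2 hd he ih1 _ =>
    intro A M hR
    rw [node_inj, Multiset.cons_eq_cons] at hR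
    rcases hR with ⟨rfl, rfl⟩ | ⟨_, M'', h3, h4⟩
    · exact ⟨S, S', r', rfl, hd, h1, h2, he⟩
    · obtain ⟨T₁, T₂, t, hS, hdT, hT1, hT2, heT⟩ := ih1 A M'' (by rw [h3])
      have hd1 : Disjoint T₁ S' := Finset.disjoint_of_subset_left
        (by rw [hS]; exact Finset.subset_union_left) hd
      have hd2 : Disjoint T₂ S' := Finset.disjoint_of_subset_left
        (by rw [hS]; exact Finset.subset_union_right) hd
      refine ⟨T₁ ∪ S', T₂, t, ?_, ?_, ?_, hT2, ?_⟩
      · rw [hS]
        ext x
        simp only [Finset.mem_union]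
        tauto
      · rw [Finset.disjoint_union_left]
        exact ⟨hdT, hd2.symm⟩
      · rw [h4]
        refine Rt.graft T₁ S' r r' M'' A₀ hT1 h2 hd1 ?_
        intro a ha b hb
        exact he a (by rw [hS]; exact Finset.mem_union_left _ ha) b hb
      · intro a ha b hb
        rcases Finset.mem_union.1 ha with ha | ha
        · exact heT a ha b hb
        · have hbS : b ∈ S := by rw [hS]; exact Finset.mem_union_right _ hb
          have hrT : r ∈ T₁ := hT1.mem
          constructor
          · intro hab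
            have := (he b hbS a ha).1 hab.symm
            exact absurd (this.1 ▸ hb) (Finset.disjoint_left.1 hdT hrT)
          · rintro ⟨rfl, rfl⟩
            exact absurd ha (Finset.disjoint_left.1 hd1 hrT)

theorem inv {A : RT} {M : Multiset RT} (h : Rt G S r (node (A ::ₘ M))) :
    ∃ (S₁ S₂ : Finset V) (r₂ : V), S = S₁ ∪ S₂ ∧ Disjoint S₁ S₂ ∧ Rt G S₁ r (node M) ∧
      Rt G S₂ r₂ A ∧ OneEdge G S₁ S₂ r r₂ := h.inv_aux A M rfl

theorem eq_singleton (h : Rt G S r pt) : S = {r} := by
  have h1 := h.card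
  rw [size_pt, Finset.card_eq_one] at h1
  obtain ⟨a, ha⟩ := h1
  have := h.mem
  rw [ha, Finset.mem_singleton] at this
  rw [ha, this]

/-- Decomposition with respect to the branch containing a given vertex. -/
theorem dec (h : Rt G S r R) : ∀ c ∈ S, c ≠ r →
    ∃ (S₁ S₂ : Finset V) (r₂ : V) (A : RT) (M : Multiset RT), R = node (A ::ₘ M) ∧
      S = S₁ ∪ S₂ ∧ Disjoint S₁ S₂ ∧ Rt G S₁ r (node M) ∧
      Rt G S₂ r₂ A ∧ OneEdge G S₁ S₂ r r₂ ∧ c ∈ S₂ := by
  induction h with
  | single r =>
    intro c hc hne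
    exact absurd (Finset.mem_singleton.1 hc) hne
  | graft S S' r r' M₀ A₀ h1 h2 hd he ih1 _ =>
    intro c hc hne
    rcases Finset.mem_union.1 hc with hc | hc
    · obtain ⟨T₁, T₂, t, B, N, hR, hS, hdT, hT1, hT2, heT, hcT⟩ := ih1 c hc hne
      rw [node_inj] at hR
      have hd1 : Disjoint T₁ S' := Finset.disjoint_of_subset_left
        (by rw [hS]; exact Finset.subset_union_left) hd
      have hd2 : Disjoint T₂ S' := Finset.disjoint_of_subset_left
        (by rw [hS]; exact Finset.subset_union_right) hd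
      refine ⟨T₁ ∪ S', T₂, t, B, A₀ ::ₘ N, ?_, ?_, ?_, ?_, hT2, ?_, hcT⟩
      · rw [hR, Multiset.cons_swap]
      · rw [hS]
        ext x
        simp only [Finset.mem_union]
        tauto
      · rw [Finset.disjoint_union_left]
        exact ⟨hdT, hd2.symm⟩
      · refine Rt.graft T₁ S' r r' N A₀ hT1 h2 hd1 ?_
        intro a ha b hb
        exact he a (by rw [hS]; exact Finset.mem_union_left _ ha) b hb
      · intro a ha b hb
        rcases Finset.mem_union.1 ha with ha | ha
        · exact heT a ha b hb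
        · have hbS : b ∈ S := by rw [hS]; exact Finset.mem_union_right _ hb
          have hrT : r ∈ T₁ := hT1.mem
          constructor
          · intro hab
            have := (he b hbS a ha).1 hab.symm
            exact absurd (this.1 ▸ hb) (Finset.disjoint_left.1 hdT hrT)
          · rintro ⟨rfl, rfl⟩
            exact absurd ha (Finset.disjoint_left.1 hd1 hrT)
    · exact ⟨S, S', r', A₀, M₀, rfl, rfl, hd, h1, h2, he, hc⟩

/-- Connectivity from the root. -/
theorem conn (h : Rt G S r R) (Z : Set V) : r ∈ Z →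
    (∀ a ∈ S, a ∈ Z → ∀ b ∈ S, G.Adj a b → b ∈ Z) → ∀ c ∈ S, c ∈ Z := by
  induction h with
  | single r =>
    intro hr _ c hc
    rwa [Finset.mem_singleton.1 hc]
  | graft S S' r r' M A h1 h2 hd he ih1 ih2 =>
    intro hr hZ c hc
    rcases Finset.mem_union.1 hc with hc | hc
    · exact ih1 hr (fun a ha haZ b hb hab =>
        hZ a (Finset.mem_union_left _ ha) haZ b (Finset.mem_union_left _ hb) hab) c hc
    · refine ih2 ?_ (fun a ha haZ b hb hab =>
        hZ a (Finset.mem_union_right _ ha) haZ b (Finset.mem_union_right _ hb) hab) c hc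
      exact hZ r (Finset.mem_union_left _ h1.mem) hr r' (Finset.mem_union_right _ h2.mem)
        ((he r h1.mem r' h2.mem).2 ⟨rfl, rfl⟩)

/-- Connectivity from any vertex. -/
theorem conn' (h : Rt G S r R) (Z : Set V) {c₀ : V} (hc₀ : c₀ ∈ S) (hZ₀ : c₀ ∈ Z)
    (hZ : ∀ a ∈ S, a ∈ Z → ∀ b ∈ S, G.Adj a b → b ∈ Z) : ∀ c ∈ S, c ∈ Z := by
  have hr : r ∈ Z := by
    by_contra hr
    have := h.conn Zᶜ hr (fun a ha haZ b hb hab hbZ => haZ (hZ b hb hbZ a ha hab.symm)) c₀ hc₀
    exact this hZ₀
  exact h.conn Z hr hZ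

/-- Transport along an adjacency-preserving injection. -/
theorem map {G' : SimpleGraph V'} (h : Rt G S r R) : ∀ (f : V → V'),
    (∀ a ∈ S, ∀ b ∈ S, f a = f b → a = b) →
    (∀ a ∈ S, ∀ b ∈ S, (G'.Adj (f a) (f b) ↔ G.Adj a b)) → Rt G' (S.image f) (f r) R := by
  induction h with
  | single r =>
    intro f _ _
    rw [Finset.image_singleton]
    exact Rt.single (f r)
  | graft S S' r r' M A h1 h2 hd he ih1 ih2 =>
    intro f hf ha
    have hl := ih1 f (fun a h b h' => hf a (Finset.mem_union_left _ h) b (Finset.mem_union_left _ h'))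
      (fun a h b h' => ha a (Finset.mem_union_left _ h) b (Finset.mem_union_left _ h'))
    have hr := ih2 f (fun a h b h' => hf a (Finset.mem_union_right _ h) b (Finset.mem_union_right _ h'))
      (fun a h b h' => ha a (Finset.mem_union_right _ h) b (Finset.mem_union_right _ h'))
    rw [Finset.image_union]
    refine Rt.graft _ _ _ _ M A hl hr ?_ ?_
    · rw [Finset.disjoint_left]
      intro x hx hx'
      obtain ⟨a, ha', rfl⟩ := Finset.mem_image.1 hx
      obtain ⟨b, hb', hab⟩ := Finset.mem_image.1 hx'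
      have := hf b (Finset.mem_union_right _ hb') a (Finset.mem_union_left _ ha') hab
      subst this
      exact Finset.disjoint_left.1 hd ha' hb'
    · intro x hx y hy
      obtain ⟨a, ha', rfl⟩ := Finset.mem_image.1 hx
      obtain ⟨b, hb', rfl⟩ := Finset.mem_image.1 hy
      rw [ha a (Finset.mem_union_left _ ha') b (Finset.mem_union_right _ hb'), he a ha' b hb']
      constructor
      · rintro ⟨rfl, rfl⟩
        exact ⟨rfl, rfl⟩
      · rintro ⟨h3, h4⟩
        exact ⟨hf _ (Finset.mem_union_left _ ha') _ (Finset.mem_union_left _ h1.mem) h3,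
          hf _ (Finset.mem_union_right _ hb') _ (Finset.mem_union_right _ h2.mem) h4⟩

/-- Only the adjacencies inside `S` matter. -/
theorem congr_adj {G' : SimpleGraph V} (h : Rt G S r R)
    (ha : ∀ a ∈ S, ∀ b ∈ S, (G'.Adj a b ↔ G.Adj a b)) : Rt G' S r R := by
  have := h.map (G' := G') id (fun _ _ _ _ h => h) ha
  simpa using this

/-- If two decompositions of the same set along one edge at the same root share a vertex on the
far side, they agree. -/
theorem branch_unique {S₁ S₂ T₁ T₂ : Finset V} {r s t : V} {A B : RT} {M N : Multiset RT}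
    (hS : S₁ ∪ S₂ = T₁ ∪ T₂) (hdS : Disjoint S₁ S₂) (hdT : Disjoint T₁ T₂)
    (hS1 : Rt G S₁ r (node M)) (hS2 : Rt G S₂ s A) (heS : OneEdge G S₁ S₂ r s)
    (hT1 : Rt G T₁ r (node N)) (hT2 : Rt G T₂ t B) (heT : OneEdge G T₁ T₂ r t)
    {c : V} (hc : c ∈ S₂) (hc' : c ∈ T₂) : S₁ = T₁ ∧ S₂ = T₂ ∧ s = t := by
  have key : ∀ {S₁ S₂ T₁ T₂ : Finset V} {s t : V} {A B : RT} {M N : Multiset RT},
      S₁ ∪ S₂ = T₁ ∪ T₂ → Disjoint S₁ S₂ → Disjoint T₁ T₂ → Rt G S₁ r (node M) →
      Rt G S₂ s A → OneEdge G S₁ S₂ r s → Rt G T₁ r (node N) → Rt G T₂ t B →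
      OneEdge G T₁ T₂ r t → c ∈ S₂ → c ∈ T₂ → S₂ ⊆ T₂ := by
    intro S₁ S₂ T₁ T₂ s t A B M N hS hdS hdT hS1 hS2 heS hT1 hT2 heT hc hc' x hx
    refine hS2.conn' (↑T₂ : Set V) hc hc' ?_ x hx
    intro a ha haZ b hb hab
    have hbT : b ∈ T₁ ∪ T₂ := by rw [← hS]; exact Finset.mem_union_right _ hb
    rcases Finset.mem_union.1 hbT with hbT | hbT
    · have := (heT b hbT a haZ).1 hab.symm
      rw [this.1] at hb
      exact absurd hb (Finset.disjoint_left.1 hdS hS1.mem)
    · exact hbT
  have h2 : S₂ = T₂ := Finset.Subset.antisymm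
    (key hS hdS hdT hS1 hS2 heS hT1 hT2 heT hc hc')
    (key hS.symm hdT hdS hT1 hT2 heT hS1 hS2 heS hc' hc)
  have h1 : S₁ = T₁ := by
    ext x
    constructor
    · intro hx
      have : x ∈ T₁ ∪ T₂ := by rw [← hS]; exact Finset.mem_union_left _ hx
      rcases Finset.mem_union.1 this with h | h
      · exact h
      · rw [← h2] at h
        exact absurd h (Finset.disjoint_left.1 hdS hx)
    · intro hx
      have : x ∈ S₁ ∪ S₂ := by rw [hS]; exact Finset.mem_union_left _ hx
      rcases Finset.mem_union.1 this with h | h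
      · exact h
      · rw [h2] at h
        exact absurd h (Finset.disjoint_left.1 hdT hx)
  refine ⟨h1, h2, ?_⟩
  have hadj : G.Adj r s := (heS r hS1.mem s hS2.mem).2 ⟨rfl, rfl⟩
  have := (heT r hT1.mem s (h2 ▸ hS2.mem)).1 hadj
  exact this.2

/-- The code at a given root is unique. -/
theorem unique (h : Rt G S r R) : ∀ R', Rt G S r R' → R = R' := by
  induction h with
  | single r =>
    intro R' h'
    have := h'.card
    rw [Finset.card_singleton] at this
    rw [node_zero, (size_eq_one.1 this.symm)]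
  | graft S S' r r' M A h1 h2 hd he ih1 ih2 =>
    intro R' h'
    have hne : r' ≠ r := by
      rintro rfl
      exact Finset.disjoint_left.1 hd h1.mem h2.mem
    obtain ⟨T₁, T₂, t, B, N, rfl, hS, hdT, hT1, hT2, heT, hcT⟩ :=
      h'.dec r' (Finset.mem_union_right _ h2.mem) hne
    obtain ⟨e1, e2, e3⟩ := branch_unique hS hd hdT h1 h2 he hT1 hT2 heT h2.mem hcT
    subst e1 e2 e3
    have := ih1 _ hT1
    rw [node_inj] at this
    rw [this, ih2 _ hT2]

end Rt

end Pool.Agent.H48.Drn
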