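import Pool.Agent.H48.Drn.Graph

set_option autoImplicit false

/-!
Grafting and un-grafting at arbitrary vertices, re-rooting, equality of codes gives isomorphism,
every tree has a code.
-/

namespace Pool.Agent.H48.Drn

open RT

variable {V : Type*} [DecidableEq V] {V' : Type*} [DecidableEq V']

/-- one step of re-rooting -/
inductive RR : RT → RT → Prop
  | step (M N : Multiset RT) : RR (node (node N ::ₘ M)) (node (node M ::ₘ N))

theorem RR.symm {R R' : RT} (h : RR R R') : RR R' R := by
  cases h with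
  | step M N => exact RR.step N M

omit [DecidableEq V] in
theorem OneEdge.symm {G : SimpleGraph V} {S S' : Finset V} {r r' : V} (h : OneEdge G S S' r r') :
    OneEdge G S' S r' r := by
  intro a ha b hb
  rw [G.adj_comm, h b hb a ha]
  tauto

namespace Rt

variable {G : SimpleGraph V} {S S' : Finset V} {r r' : V} {R R' : RT}

/-- Grafting at an arbitrary vertex. -/
theorem graft_at (h : Rt G S r R) : ∀ (T : Finset V) (t : V) (P : RT) (p : V), Rt G T t P →
    Disjoint S T → p ∈ S → OneEdge G S T p t → ∃ R', Rt G (S ∪ T) r R' ∧ Gr P R R' := by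
  induction h with
  | single r =>
    intro T t P p hT hd hp he
    rw [Finset.mem_singleton] at hp
    subst hp
    exact ⟨_, Rt.graft {p} T p t 0 P (Rt.single p) hT hd he, Gr.here 0⟩
  | graft S S' r r' M A h1 h2 hd he ih1 ih2 =>
    intro T t P p hT hdT hp heT
    rw [Finset.disjoint_union_left] at hdT
    rcases Finset.mem_union.1 hp with hp | hp
    · obtain ⟨R₁, hR1, hG1⟩ := ih1 T t P p hT hdT.1 hp
        (fun a ha b hb => heT a (Finset.mem_union_left _ ha) b hb)
      obtain ⟨M', rfl⟩ := exists_eq_node R₁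
      refine ⟨node (A ::ₘ M'), ?_, hG1.cons A⟩
      refine Rt.graft' hR1 h2 (Finset.disjoint_union_left.2 ⟨hd, hdT.2.symm⟩) (r' := r') ?_ ?_
      · intro a ha b hb
        rcases Finset.mem_union.1 ha with ha | ha
        · exact he a ha b hb
        · constructor
          · intro hab
            have := (heT b (Finset.mem_union_right _ hb) a ha).1 hab.symm
            rw [this.1] at hb
            exact absurd hb (Finset.disjoint_left.1 hd hp)
          · rintro ⟨rfl, rfl⟩
            exact absurd ha (Finset.disjoint_left.1 hdT.1 h1.mem)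
      · ext x
        simp only [Finset.mem_union]
        tauto
    · obtain ⟨R₂, hR2, hG2⟩ := ih2 T t P p hT hdT.2 hp
        (fun a ha b hb => heT a (Finset.mem_union_right _ ha) b hb)
      refine ⟨node (R₂ ::ₘ M), ?_, Gr.there M A R₂ hG2⟩
      refine Rt.graft' h1 hR2 (Finset.disjoint_union_right.2 ⟨hd, hdT.1⟩) (r' := r') ?_ ?_
      · intro a ha b hb
        rcases Finset.mem_union.1 hb with hb | hb
        · exact he a ha b hb
        · constructor
          · intro hab
            have := (heT a (Finset.mem_union_left _ ha) b hb).1 hab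
            rw [← this.1] at hp
            exact absurd hp (Finset.disjoint_left.1 hd ha)
          · rintro ⟨rfl, rfl⟩
            exact absurd hb (Finset.disjoint_left.1 hdT.2 h2.mem)
      · ext x
        simp only [Finset.mem_union]
        tauto

/-- Adding a leaf. -/
theorem add_leaf (h : Rt G S r R) {b p : V} (hb : b ∉ S) (hp : p ∈ S)
    (he : ∀ a ∈ S, (G.Adj a b ↔ a = p)) : ∃ R', Rt G (insert b S) r R' ∧ Del R' R := by
  obtain ⟨R', h1, h2⟩ := h.graft_at {b} b pt p (Rt.single b)
    (Finset.disjoint_singleton_right.2 hb) hp (by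
      intro a ha c hc
      rw [Finset.mem_singleton] at hc
      subst hc
      rw [he a ha]
      tauto)
  refine ⟨R', ?_, h2⟩
  rwa [Finset.insert_eq, Finset.union_comm]

/-- Un-grafting. -/
theorem ungraft {P A A' : RT} (hG : Gr P A A') : ∀ (S : Finset V) (r : V), Rt G S r A' →
    ∃ (S₁ S₂ : Finset V) (p r₂ : V), S = S₁ ∪ S₂ ∧ Disjoint S₁ S₂ ∧ p ∈ S₁ ∧
      Rt G S₁ r A ∧ Rt G S₂ r₂ P ∧ OneEdge G S₁ S₂ p r₂ := by
  induction hG with
  | here M =>
    intro S r h
    obtain ⟨S₁, S₂, r₂, hS, hd, h1, h2, he⟩ := h.inv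
    exact ⟨S₁, S₂, r, r₂, hS, hd, h1.mem, h1, h2, he⟩
  | there M A A' hA ih =>
    intro S r h
    obtain ⟨S₁, S₂, r₂, hS, hd, h1, h2, he⟩ := h.inv
    obtain ⟨T₁, T₂, p, t, hT, hdT, hp, hT1, hT2, heT⟩ := ih S₂ r₂ h2
    have hT1S : T₁ ⊆ S₂ := by rw [hT]; exact Finset.subset_union_left
    have hT2S : T₂ ⊆ S₂ := by rw [hT]; exact Finset.subset_union_right
    refine ⟨S₁ ∪ T₁, T₂, p, t, ?_, ?_, Finset.mem_union_right _ hp, ?_, hT2, ?_⟩
    · rw [hS, hT]
      ext x
      simp only [Finset.mem_union]
      tauto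
    · rw [Finset.disjoint_union_left]
      exact ⟨Finset.disjoint_of_subset_right hT2S hd, hdT⟩
    · refine Rt.graft _ _ _ _ M A h1 hT1 (Finset.disjoint_of_subset_right hT1S hd) ?_
      intro a ha b hb
      exact he a ha b (hT1S hb)
    · intro a ha b hb
      rcases Finset.mem_union.1 ha with ha | ha
      · constructor
        · intro hab
          have := (he a ha b (hT2S hb)).1 hab
          rw [this.2] at hb
          exact absurd hb (Finset.disjoint_left.1 hdT hT1.mem)
        · rintro ⟨rfl, rfl⟩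
          exact absurd (hT1S hp) (Finset.disjoint_left.1 hd ha)
      · exact heT a ha b hb

/-- Removing a leaf, from a code deletion. -/
theorem del_leaf {D : RT} (hD : Del R D) (h : Rt G S r R) :
    ∃ b p, b ∈ S ∧ p ∈ S ∧ b ≠ p ∧ b ≠ r ∧ Rt G (S.erase b) r D ∧
      (∀ a ∈ S, (G.Adj a b ↔ a = p)) := by
  obtain ⟨S₁, S₂, p, b, hS, hd, hp, h1, h2, he⟩ := ungraft hD S r h
  have hS2 := h2.eq_singleton
  subst hS2
  rw [Finset.disjoint_singleton_right] at hd
  have hbS : b ∈ S := by rw [hS]; simp
  have hpS : p ∈ S := by rw [hS]; exact Finset.mem_union_left _ hp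
  have herase : S.erase b = S₁ := by
    rw [hS]
    ext x
    simp only [Finset.mem_erase, Finset.mem_union, Finset.mem_singleton]
    constructor
    · rintro ⟨h1, h2 | h2⟩
      · exact h2
      · exact absurd h2 h1
    · intro hx
      refine ⟨?_, Or.inl hx⟩
      rintro rfl
      exact hd hx
  refine ⟨b, p, hbS, hpS, ?_, ?_, ?_, ?_⟩
  · rintro rfl
    exact hd hp
  · rintro rfl
    exact hd h1.mem
  · rw [herase]
    exact h1
  · intro a ha
    by_cases hab : a = b
    · subst hab
      constructor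
      · intro h
        exact absurd h (G.irrefl)
      · rintro rfl
        exact absurd hp hd
    · have ha1 : a ∈ S₁ := by
        rw [hS] at ha
        rcases Finset.mem_union.1 ha with h | h
        · exact h
        · exact absurd (Finset.mem_singleton.1 h) hab
      rw [he a ha1 b (Finset.mem_singleton_self b)]
      simp

/-- Re-rooting along an edge. -/
theorem reroot {M N : Multiset RT} (h : Rt G S r (node (node N ::ₘ M))) :
    ∃ r₂, G.Adj r r₂ ∧ r₂ ∈ S ∧ Rt G S r₂ (node (node M ::ₘ N)) := by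
  obtain ⟨S₁, S₂, r₂, hS, hd, h1, h2, he⟩ := h.inv
  refine ⟨r₂, (he r h1.mem r₂ h2.mem).2 ⟨rfl, rfl⟩, ?_, ?_⟩
  · rw [hS]; exact Finset.mem_union_right _ h2.mem
  · exact Rt.graft' h2 h1 hd.symm he.symm (by rw [hS, Finset.union_comm])

/-- A re-rooted code is realised at some vertex. -/
theorem of_rr (h : Rt G S r R) (hR : RR R R') : ∃ r₂ ∈ S, Rt G S r₂ R' := by
  cases hR with
  | step M N =>
    obtain ⟨r₂, _, h1, h2⟩ := h.reroot
    exact ⟨r₂, h1, h2⟩

theorem of_rrs (h : Rt G S r R) (hR : Relation.ReflTransGen RR R R') :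
    ∃ r₂ ∈ S, Rt G S r₂ R' := by
  induction hR with
  | refl => exact ⟨r, h.mem, h⟩
  | tail _ h2 ih =>
    obtain ⟨r₂, _, h3⟩ := ih
    exact h3.of_rr h2

/-- Two codes of the same tree are related by re-rooting; auxiliary form. -/
theorem rrs_aux : ∀ (k : ℕ) (S₁ S₂ : Finset V) (r r₂ c : V) (M : Multiset RT) (A R' : RT),
    S₂.card ≤ k → Rt G S₁ r (node M) → Rt G S₂ r₂ A → Disjoint S₁ S₂ →
    OneEdge G S₁ S₂ r r₂ → c ∈ S₂ → Rt G (S₁ ∪ S₂) c R' →
    Relation.ReflTransGen RR (node (A ::ₘ M)) R' := by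
  intro k
  induction k with
  | zero =>
    intro S₁ S₂ r r₂ c M A R' hk _ h2 _ _ _ _
    have := Finset.card_pos.2 ⟨r₂, h2.mem⟩
    omega
  | succ k ih =>
    intro S₁ S₂ r r₂ c M A R' hk h1 h2 hd he hc hR'
    by_cases hcr : c = r₂
    · subst hcr
      obtain ⟨N, rfl⟩ := exists_eq_node A
      have hh : Rt G (S₁ ∪ S₂) c (node (node M ::ₘ N)) :=
        Rt.graft' h2 h1 hd.symm he.symm (Finset.union_comm _ _)
      rw [← hh.unique R' hR']
      exact Relation.ReflTransGen.single (RR.step M N)
    · obtain ⟨T₁, T₂, t, B, N, rfl, hT, hdT, hT1, hT2, heT, hcT⟩ := h2.dec c hc hcr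
      have hT1S : T₁ ⊆ S₂ := by rw [hT]; exact Finset.subset_union_left
      have hT2S : T₂ ⊆ S₂ := by rw [hT]; exact Finset.subset_union_right
      have hd1 : Disjoint S₁ T₁ := Finset.disjoint_of_subset_right hT1S hd
      have hd2 : Disjoint S₁ T₂ := Finset.disjoint_of_subset_right hT2S hd
      have hU : Rt G (T₁ ∪ S₁) r₂ (node (node M ::ₘ N)) := by
        refine Rt.graft _ _ _ _ N (node M) hT1 h1 hd1.symm ?_
        intro a ha b hb
        exact he.symm a (hT1S ha) b hb
      have hstep : RR (node (node (B ::ₘ N) ::ₘ M)) (node (node M ::ₘ (B ::ₘ N))) :=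
        RR.step M (B ::ₘ N)
      refine Relation.ReflTransGen.head hstep ?_
      rw [Multiset.cons_swap]
      refine ih (T₁ ∪ S₁) T₂ r₂ t c (node M ::ₘ N) B R' ?_ hU hT2 ?_ ?_ hcT ?_
      · have h3 : T₂.card < S₂.card := by
          rw [hT, Finset.card_union_of_disjoint hdT]
          have := Finset.card_pos.2 ⟨r₂, hT1.mem⟩
          omega
        omega
      · rw [Finset.disjoint_union_left]
        exact ⟨hdT, hd2⟩
      · intro a ha b hb
        rcases Finset.mem_union.1 ha with ha | ha
        · exact heT a ha b hb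
        · constructor
          · intro hab
            have := (he a ha b (hT2S hb)).1 hab
            rw [this.2] at hb
            exact absurd hb (Finset.disjoint_left.1 hdT hT1.mem)
          · rintro ⟨rfl, rfl⟩
            exact absurd ha (Finset.disjoint_right.1 hd1 hT1.mem)
      · have : T₁ ∪ S₁ ∪ T₂ = S₁ ∪ S₂ := by
          rw [hT]
          ext x
          simp only [Finset.mem_union]
          tauto
        rw [this]
        exact hR'

/-- Two codes of the same tree are related by re-rooting. -/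
theorem rrs (h : Rt G S r R) (h' : Rt G S r' R') : Relation.ReflTransGen RR R R' := by
  by_cases hrr : r' = r
  · subst hrr
    rw [h.unique R' h']
  · obtain ⟨T₁, T₂, t, B, N, rfl, hT, hdT, hT1, hT2, heT, hcT⟩ := h.dec r' h'.mem hrr
    exact rrs_aux T₂.card T₁ T₂ r t r' N B R' le_rfl hT1 hT2 hdT heT hcT (hT ▸ h')

/-- Equal codes give isomorphic rooted trees (as a map). -/
theorem iso {G' : SimpleGraph V'} (h : Rt G S r R) : ∀ (S' : Finset V') (r' : V'),
    Rt G' S' r' R → ∃ f : V → V', f r = r' ∧ S.image f = S' ∧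
      (∀ a ∈ S, ∀ b ∈ S, f a = f b → a = b) ∧
      (∀ a ∈ S, ∀ b ∈ S, (G'.Adj (f a) (f b) ↔ G.Adj a b)) := by
  induction h with
  | single r =>
    intro S' r' h'
    have hS' := h'.eq_singleton
    subst hS'
    refine ⟨fun _ => r', rfl, ?_, ?_, ?_⟩
    · simp
    · intro a ha b hb _
      rw [Finset.mem_singleton.1 ha, Finset.mem_singleton.1 hb]
    · intro a ha b hb
      rw [Finset.mem_singleton.1 ha, Finset.mem_singleton.1 hb]
      simp
  | graft S₁ S₂ r r₂ M A h1 h2 hd he ih1 ih2 =>
    intro S' r' h'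
    obtain ⟨T₁, T₂, t, hT, hdT, hT1, hT2, heT⟩ := h'.inv
    obtain ⟨f₁, hf1, hi1, hj1, ha1⟩ := ih1 T₁ r' hT1
    obtain ⟨f₂, hf2, hi2, hj2, ha2⟩ := ih2 T₂ t hT2
    classical
    let f : V → V' := fun a => if a ∈ S₁ then f₁ a else f₂ a
    have hfl : ∀ a ∈ S₁, f a = f₁ a := fun a ha => if_pos ha
    have hfr : ∀ a ∈ S₂, f a = f₂ a := fun a ha =>
      if_neg (Finset.disjoint_right.1 hd ha)
    have hml : ∀ a ∈ S₁, f₁ a ∈ T₁ := fun a ha => by
      rw [← hi1]; exact Finset.mem_image_of_mem _ ha
    have hmr : ∀ a ∈ S₂, f₂ a ∈ T₂ := fun a ha => by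
      rw [← hi2]; exact Finset.mem_image_of_mem _ ha
    refine ⟨f, ?_, ?_, ?_, ?_⟩
    · rw [hfl r h1.mem, hf1]
    · rw [Finset.image_union, hT, ← hi1, ← hi2]
      congr 1
      · exact Finset.image_congr (fun a ha => hfl a ha)
      · exact Finset.image_congr (fun a ha => hfr a ha)
    · intro a ha b hb hab
      rcases Finset.mem_union.1 ha with ha | ha <;> rcases Finset.mem_union.1 hb with hb | hb
      · rw [hfl a ha, hfl b hb] at hab
        exact hj1 a ha b hb hab
      · rw [hfl a ha, hfr b hb] at hab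
        exact absurd (hab ▸ hml a ha) (Finset.disjoint_right.1 hdT (hmr b hb))
      · rw [hfr a ha, hfl b hb] at hab
        exact absurd (hab ▸ hmr a ha) (Finset.disjoint_left.1 hdT (hml b hb))
      · rw [hfr a ha, hfr b hb] at hab
        exact hj2 a ha b hb hab
    · intro a ha b hb
      rcases Finset.mem_union.1 ha with ha | ha <;> rcases Finset.mem_union.1 hb with hb | hb
      · rw [hfl a ha, hfl b hb]
        exact ha1 a ha b hb
      · rw [hfl a ha, hfr b hb, heT _ (hml a ha) _ (hmr b hb), he a ha b hb]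
        constructor
        · rintro ⟨h3, h4⟩
          exact ⟨hj1 a ha r h1.mem (h3.trans hf1.symm), hj2 b hb r₂ h2.mem (h4.trans hf2.symm)⟩
        · rintro ⟨rfl, rfl⟩
          exact ⟨hf1, hf2⟩
      · rw [hfr a ha, hfl b hb, heT.symm _ (hmr a ha) _ (hml b hb), he.symm a ha b hb]
        constructor
        · rintro ⟨h3, h4⟩
          exact ⟨hj2 a ha r₂ h2.mem (h3.trans hf2.symm), hj1 b hb r h1.mem (h4.trans hf1.symm)⟩
        · rintro ⟨rfl, rfl⟩
          exact ⟨hf2, hf1⟩
      · rw [hfr a ha, hfr b hb]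
        exact ha2 a ha b hb

/-- Equal codes of spanning trees give graph isomorphisms. -/
theorem nonempty_iso [Fintype V] [Fintype V'] {G' : SimpleGraph V'} {r : V} {r' : V'}
    (h : Rt G Finset.univ r R) (h' : Rt G' Finset.univ r' R) : Nonempty (G ≃g G') := by
  obtain ⟨f, _, hi, hj, ha⟩ := h.iso Finset.univ r' h'
  have hinj : Function.Injective f := fun a b hab =>
    hj a (Finset.mem_univ _) b (Finset.mem_univ _) hab
  have hsurj : Function.Surjective f := fun y => by
    have : y ∈ Finset.univ.image f := by rw [hi]; exact Finset.mem_univ _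
    obtain ⟨x, _, hx⟩ := Finset.mem_image.1 this
    exact ⟨x, hx⟩
  refine ⟨⟨Equiv.ofBijective f ⟨hinj, hsurj⟩, ?_⟩⟩
  intro a b
  exact ha a (Finset.mem_univ _) b (Finset.mem_univ _)

/-- Inside a coded set any two vertices are joined by a walk. -/
theorem exists_walk (h : Rt G S r R) {c : V} (hc : c ∈ S) :
    ∃ p : G.Walk r c, ∀ x ∈ p.support, x ∈ S := by
  refine h.conn {c | ∃ p : G.Walk r c, ∀ x ∈ p.support, x ∈ S} ?_ ?_ c hc
  · refine ⟨SimpleGraph.Walk.nil, ?_⟩
    intro x hx
    rw [SimpleGraph.Walk.support_nil, List.mem_singleton] at hx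
    rw [hx]
    exact h.mem
  · rintro a _ ⟨p, hp⟩ b hb hab
    refine ⟨p.concat hab, ?_⟩
    intro x hx
    rw [SimpleGraph.Walk.support_concat, List.mem_append,
      List.mem_singleton] at hx
    rcases hx with hx | rfl
    · exact hp x hx
    · exact hb

end Rt

/-- Every finite tree has a code at every vertex. -/
theorem exists_code [Fintype V] {G : SimpleGraph V} (hG : G.IsTree) (r : V) :
    ∃ R, Rt G Finset.univ r R := by
  classical
  -- take a largest coded set
  have hex : ∃ k, ∃ S : Finset V, S.card = k ∧ ∃ R, Rt G S r R :=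
    ⟨1, {r}, by simp, _, Rt.single r⟩
  let P : ℕ → Prop := fun k => ∃ S : Finset V, S.card = k ∧ ∃ R, Rt G S r R
  have hP : ∃ k, P k := hex
  have hbd : ∀ k, P k → k ≤ Fintype.card V := by
    rintro k ⟨S, rfl, _⟩
    exact Finset.card_le_univ S
  obtain ⟨k, ⟨S, hSk, R, hR⟩, hmax⟩ :=
    Nat.findGreatest_eq_iff.1 (rfl : Nat.findGreatest P (Fintype.card V) = _) |>.2.1
      (by
        have h1 : 1 ≤ Nat.findGreatest P (Fintype.card V) := by
          refine Nat.le_findGreatest ?_ ⟨{r}, by simp, _, Rt.single r⟩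
          exact hbd 1 ⟨{r}, by simp, _, Rt.single r⟩
        omega) |> fun h => (⟨_, h, fun k hk => Nat.le_findGreatest (hbd k hk) hk⟩ :
          ∃ k, P k ∧ ∀ k', P k' → k' ≤ k)
  by_cases hS : S = Finset.univ
  · exact ⟨R, hS ▸ hR⟩
  exfalso
  -- find an edge leaving `S`
  obtain ⟨y, hy⟩ : ∃ y, y ∉ S := by
    by_contra hcon
    push Not at hcon
    exact hS (Finset.eq_univ_iff_forall.2 hcon)
  have hedge : ∃ a ∈ S, ∃ b, b ∉ S ∧ G.Adj a b := by
    by_contra hcon
    push Not at hcon
    obtain ⟨p⟩ := hG.connected.preconnected r y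
    have : ∀ {u v : V} (q : G.Walk u v), u ∈ S → v ∈ S := by
      intro u v q
      induction q with
      | nil => exact fun h => h
      | cons hadj _ ih =>
        intro hu
        apply ih
        by_contra hv
        exact hcon _ hu _ hv hadj
    exact hy (this p hR.mem)
  obtain ⟨a, ha, b, hb, hab⟩ := hedge
  have huniq : ∀ a' ∈ S, (G.Adj a' b ↔ a' = a) := by
    intro a' ha'
    constructor
    · intro hadj
      by_contra hne
      -- two different paths from `a'` to `a`
      obtain ⟨p, hp⟩ := hR.exists_walk ha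
      obtain ⟨q, hq⟩ := hR.exists_walk ha'
      let w : G.Walk a' a := q.reverse.append p
      have hw : ∀ x ∈ w.support, x ∈ S := by
        intro x hx
        rw [SimpleGraph.Walk.mem_support_append_iff] at hx
        rcases hx with hx | hx
        · rw [SimpleGraph.Walk.support_reverse, List.mem_reverse] at hx
          exact hq x hx
        · exact hp x hx
      have hw' : ∀ x ∈ (w.toPath : G.Walk a' a).support, x ∈ S := fun x hx =>
        hw x (SimpleGraph.Walk.support_toPath_subset_support w hx)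
      let v : G.Walk a' a := SimpleGraph.Walk.cons hadj (SimpleGraph.Walk.cons hab.symm SimpleGraph.Walk.nil)
      have hv : v.IsPath := by
        simp only [v, SimpleGraph.Walk.cons_isPath_iff, SimpleGraph.Walk.support_cons,
          SimpleGraph.Walk.support_nil, List.mem_cons, List.not_mem_nil,
          or_false, not_or]
        exact ⟨⟨SimpleGraph.Walk.IsPath.nil, fun h => hb (h ▸ ha)⟩, fun h => hb (h ▸ ha'), hne⟩
      have heq : (⟨v, hv⟩ : G.Path a' a) = w.toPath := (hG.isAcyclic.subsingleton_path a' a).elim _ _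
      have hbv : b ∈ v.support := by
        simp [v]
      have : b ∈ (w.toPath : G.Walk a' a).support := by
        rw [← heq]
        exact hbv
      exact hb (hw' b this)
    · rintro rfl
      exact hab
  obtain ⟨R', hR', _⟩ := hR.add_leaf hb ha huniq
  have := hmax _ ⟨insert b S, rfl, R', hR'⟩
  rw [Finset.card_insert_of_notMem hb, hSk] at this
  omega

end Pool.Agent.H48.Drn
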