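import Mathlib

set_option autoImplicit false

/-!
Rooted unordered trees `RT` as a type with `node : Multiset RT ≃ RT`.
Built as a quotient of binary trees (`nil` = a single vertex, `cons a b` = the rooted tree `b`
with the rooted tree `a` added as a child of the root).
-/

namespace Pool.Agent.H48.Drn

/-- Ordered rooted trees: `nil` is one vertex, `cons a b` adds `a` as a child of the root of `b`. -/
inductive Fo : Type
  | nil : Fo
  | cons : Fo → Fo → Fo

/-- Equality up to reordering children. -/
inductive Pm : Fo → Fo → Prop
  | nil : Pm Fo.nil Fo.nil
  | cons {a b c d : Fo} : Pm a b → Pm c d → Pm (Fo.cons a c) (Fo.cons b d)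
  | swap (a b c : Fo) : Pm (Fo.cons a (Fo.cons b c)) (Fo.cons b (Fo.cons a c))
  | trans {a b c : Fo} : Pm a b → Pm b c → Pm a c

theorem Pm.refl : ∀ a : Fo, Pm a a
  | Fo.nil => Pm.nil
  | Fo.cons a b => Pm.cons (Pm.refl a) (Pm.refl b)

theorem Pm.symm {a b : Fo} (h : Pm a b) : Pm b a := by
  induction h with
  | nil => exact Pm.nil
  | cons _ _ ih1 ih2 => exact Pm.cons ih1 ih2
  | swap a b c => exact Pm.swap b a c
  | trans _ _ ih1 ih2 => exact Pm.trans ih2 ih1

instance foSetoid : Setoid Fo := ⟨Pm, Pm.refl, Pm.symm, Pm.trans⟩

/-- Rooted unordered trees. -/
def RT : Type := Quotient foSetoid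

noncomputable instance : DecidableEq RT := Classical.decEq _

namespace RT

/-- add a child to the root -/
def addChild : RT → RT → RT :=
  Quotient.map₂ Fo.cons (fun _ _ h1 _ _ h2 => Pm.cons h1 h2)

theorem addChild_comm (a b c : RT) : addChild a (addChild b c) = addChild b (addChild a c) := by
  induction a using Quotient.inductionOn
  induction b using Quotient.inductionOn
  induction c using Quotient.inductionOn
  exact Quotient.sound (Pm.swap _ _ _)

instance : LeftCommutative addChild := ⟨addChild_comm⟩

/-- the one-vertex tree -/
def pt : RT := Quotient.mk foSetoid Fo.nil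

/-- The rooted tree with the given multiset of branches at the root. -/
def node (M : Multiset RT) : RT := M.foldr addChild pt

theorem node_zero : node 0 = pt := rfl

theorem node_cons (A : RT) (M : Multiset RT) : node (A ::ₘ M) = addChild A (node M) := by
  simp [node]

/-- branches of an ordered tree -/
def foKids : Fo → Multiset RT
  | Fo.nil => 0
  | Fo.cons a b => (Quotient.mk foSetoid a) ::ₘ foKids b

theorem foKids_pm {a b : Fo} (h : Pm a b) : foKids a = foKids b := by
  induction h with
  | nil => rfl
  | cons h1 _ _ ih2 =>
    simp only [foKids, ih2]
    congr 1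
    exact Quotient.sound h1
  | swap a b c => simp only [foKids]; exact Multiset.cons_swap _ _ _
  | trans _ _ ih1 ih2 => exact ih1.trans ih2

/-- The multiset of branches at the root. -/
def kids : RT → Multiset RT := Quotient.lift foKids (fun _ _ h => foKids_pm h)

@[simp] theorem kids_pt : kids pt = 0 := rfl

theorem kids_addChild (a b : RT) : kids (addChild a b) = a ::ₘ kids b := by
  induction a using Quotient.inductionOn
  induction b using Quotient.inductionOn
  rfl

@[simp] theorem kids_node (M : Multiset RT) : kids (node M) = M := by
  induction M using Multiset.induction_on with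
  | empty => rfl
  | cons a s ih => rw [node_cons, kids_addChild, ih]

theorem node_foKids (f : Fo) : node (foKids f) = Quotient.mk foSetoid f := by
  induction f with
  | nil => rfl
  | cons a b _ ih2 =>
    simp only [foKids, node_cons, ih2]
    rfl

@[simp] theorem node_kids (R : RT) : node (kids R) = R := by
  induction R using Quotient.inductionOn with
  | h f => exact node_foKids f

theorem node_injective : Function.Injective node := fun a b h => by
  have := congrArg kids h
  simpa using this

@[simp] theorem node_inj {M N : Multiset RT} : node M = node N ↔ M = N :=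
  node_injective.eq_iff

theorem exists_eq_node (R : RT) : ∃ M, R = node M := ⟨kids R, (node_kids R).symm⟩

/-- number of vertices, ordered version -/
def foSize : Fo → ℕ
  | Fo.nil => 1
  | Fo.cons a b => foSize a + foSize b

theorem foSize_pm {a b : Fo} (h : Pm a b) : foSize a = foSize b := by
  induction h with
  | nil => rfl
  | cons _ _ ih1 ih2 => simp only [foSize, ih1, ih2]
  | swap a b c => simp only [foSize]; omega
  | trans _ _ ih1 ih2 => exact ih1.trans ih2

/-- number of vertices -/
def size : RT → ℕ := Quotient.lift foSize (fun _ _ h => foSize_pm h)

@[simp] theorem size_pt : size pt = 1 := rfl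

theorem size_addChild (a b : RT) : size (addChild a b) = size a + size b := by
  induction a using Quotient.inductionOn
  induction b using Quotient.inductionOn
  rfl

@[simp] theorem size_node (M : Multiset RT) : size (node M) = 1 + (M.map size).sum := by
  induction M using Multiset.induction_on with
  | empty => rfl
  | cons a s ih =>
    rw [node_cons, size_addChild, ih, Multiset.map_cons, Multiset.sum_cons]
    omega

theorem size_pos (R : RT) : 0 < size R := by
  obtain ⟨M, rfl⟩ := exists_eq_node R
  rw [size_node]; omega

theorem size_lt_of_mem {A : RT} {M : Multiset RT} (h : A ∈ M) : size A < size (node M) := by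
  obtain ⟨t, rfl⟩ := Multiset.exists_cons_of_mem h
  rw [size_node, Multiset.map_cons, Multiset.sum_cons]
  omega

theorem size_lt_of_mem_kids {A R : RT} (h : A ∈ kids R) : size A < size R := by
  have := size_lt_of_mem h
  simpa using this

/-- Structural induction. -/
theorem ind {P : RT → Prop} (h : ∀ M : Multiset RT, (∀ A ∈ M, P A) → P (node M)) : ∀ R, P R := by
  have key : ∀ n : ℕ, ∀ R : RT, size R ≤ n → P R := by
    intro n
    induction n with
    | zero =>
      intro R hR
      have := size_pos R
      omega
    | succ n ih =>
      intro R hR
      obtain ⟨M, rfl⟩ := exists_eq_node R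
      refine h M (fun A hA => ih A ?_)
      have := size_lt_of_mem hA
      omega
  exact fun R => key (size R) R le_rfl

theorem size_eq_one {R : RT} : size R = 1 ↔ R = pt := by
  constructor
  · intro h
    obtain ⟨M, rfl⟩ := exists_eq_node R
    rw [size_node] at h
    have h0 : (M.map size).sum = 0 := by omega
    have : M = 0 := by
      by_contra hne
      obtain ⟨a, ha⟩ := Multiset.exists_mem_of_ne_zero hne
      obtain ⟨t, rfl⟩ := Multiset.exists_cons_of_mem ha
      rw [Multiset.map_cons, Multiset.sum_cons] at h0
      have := size_pos a
      omega
    rw [this, node_zero]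
  · rintro rfl
    rfl

@[simp] theorem node_eq_pt {M : Multiset RT} : node M = pt ↔ M = 0 := by
  rw [← node_zero, node_inj]

end RT

end Pool.Agent.H48.Drn
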